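import Mathlib

/-!
# The dual of an `L¹` norm on a space of holomorphic functions is not strictly plurisubharmonic

Analysis for MP_452786_gt: the Teichmüller norm on a fibre of the tangent bundle.
-/

open scoped BigOperators Topology ENNReal ComplexConjugate
open Metric Set MeasureTheory Filter

namespace Pool.Agent.TNQ

noncomputable section

/-! ## Two lemmas on holomorphic functions -/

/-- A function which is real relative to `h0` is a real multiple of `h0`. -/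
lemma real_mult {h h0 : ℂ → ℂ} (hh : DifferentiableOn ℂ h (ball 0 1))
    (hh0 : DifferentiableOn ℂ h0 (ball 0 1)) (hne : ∃ z ∈ ball (0 : ℂ) 1, h0 z ≠ 0)
    (him : ∀ᵐ z ∂(volume.restrict (ball (0 : ℂ) 1)), (h z * conj (h0 z)).im = 0) :
    ∃ t : ℝ, ∀ z ∈ ball (0 : ℂ) 1, h z = t * h0 z := by
  have hcont : ContinuousOn (fun z => (h z * conj (h0 z)).im) (ball 0 1) :=
    Complex.continuous_im.comp_continuousOn
      (hh.continuousOn.mul (Complex.continuous_conj.comp_continuousOn hh0.continuousOn))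
  have hall : ∀ z ∈ ball (0 : ℂ) 1, (h z * conj (h0 z)).im = 0 := by
    by_contra hcon
    push Not at hcon
    obtain ⟨z, hz, hz2⟩ := hcon
    have hopen : IsOpen (ball (0 : ℂ) 1 ∩ (fun z => (h z * conj (h0 z)).im) ⁻¹' {0}ᶜ) :=
      hcont.isOpen_inter_preimage isOpen_ball isOpen_compl_singleton
    have hpos := hopen.measure_pos volume ⟨z, hz, hz2⟩
    rw [ae_restrict_iff' measurableSet_ball] at him
    have : volume (ball (0 : ℂ) 1 ∩ (fun z => (h z * conj (h0 z)).im) ⁻¹' {0}ᶜ) = 0 := by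
      refine measure_mono_null ?_ him
      rintro w ⟨hw1, hw2⟩ hw3
      exact hw2 (hw3 hw1)
    rw [this] at hpos
    exact lt_irrefl _ hpos
  obtain ⟨z1, hz1, hz1'⟩ := hne
  have hVopen : IsOpen (ball (0 : ℂ) 1 ∩ h0 ⁻¹' {0}ᶜ) :=
    hh0.continuousOn.isOpen_inter_preimage isOpen_ball isOpen_compl_singleton
  obtain ⟨r, hr, hball⟩ := Metric.isOpen_iff.mp hVopen z1 ⟨hz1, hz1'⟩
  have hq : AnalyticOnNhd ℂ (fun z => h z / h0 z) (ball z1 r) := by
    apply DifferentiableOn.analyticOnNhd _ isOpen_ball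
    exact (hh.mono (fun w hw => (hball hw).1)).div (hh0.mono (fun w hw => (hball hw).1))
      (fun w hw => (hball hw).2)
  have hqim : ∀ z ∈ ball z1 r, (h z / h0 z).im = 0 := by
    intro z hz
    have h1 := hall z (hball hz).1
    have h3 : h z / h0 z = (((Complex.normSq (h0 z))⁻¹ : ℝ) : ℂ) * (h z * conj (h0 z)) := by
      rw [div_eq_mul_inv, Complex.inv_def]
      push_cast
      ring
    rw [h3, Complex.im_ofReal_mul, h1, mul_zero]
  obtain ⟨c, hc⟩ := hq.eq_const_of_im_eq_const hqim isOpen_ball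
    (Metric.isConnected_ball hr)
  have hcim : c.im = 0 := by
    rw [← hc z1 (mem_ball_self hr)]
    exact hqim z1 (mem_ball_self hr)
  refine ⟨c.re, ?_⟩
  have hcre : ((c.re : ℝ) : ℂ) = c := by
    apply Complex.ext <;> simp [hcim]
  rw [hcre]
  have ha : AnalyticOnNhd ℂ h (ball 0 1) := hh.analyticOnNhd isOpen_ball
  have hb : AnalyticOnNhd ℂ (fun z => c * h0 z) (ball 0 1) :=
    ((differentiableOn_const c).mul hh0).analyticOnNhd isOpen_ball
  apply ha.eqOn_of_preconnected_of_eventuallyEq hb (convex_ball 0 1).isPreconnected hz1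
  filter_upwards [isOpen_ball.mem_nhds (mem_ball_self hr)] with z hz
  have h2 : h0 z ≠ 0 := (hball hz).2
  have := hc z hz
  rw [← this]
  field_simp

/-- Divergence of the second variation at a zero of order `≥ 2`. -/
lemma diverge {h h0 : ℂ → ℂ} (hh : DifferentiableOn ℂ h (ball 0 1))
    (hh0 : DifferentiableOn ℂ h0 (ball 0 1)) (hne : ∃ z ∈ ball (0 : ℂ) 1, h0 z ≠ 0)
    (h00 : h0 0 = 0) (h01 : deriv h0 0 = 0) (hn : h 0 ≠ 0) :
    ∫⁻ z in ball (0 : ℂ) 1, ENNReal.ofReal ((h z * conj (h0 z)).im ^ 2 / ‖h0 z‖ ^ 3) = ∞ := by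
  have h0mem : (0 : ℂ) ∈ ball (0 : ℂ) 1 := mem_ball_self one_pos
  have ha0 : AnalyticAt ℂ h0 0 := hh0.analyticAt (isOpen_ball.mem_nhds h0mem)
  have hnot : ¬ ∀ᶠ z in 𝓝 (0 : ℂ), h0 z = 0 := by
    intro hev
    have hb : AnalyticOnNhd ℂ h0 (ball 0 1) := hh0.analyticOnNhd isOpen_ball
    have := hb.eqOn_zero_of_preconnected_of_eventuallyEq_zero
      (convex_ball 0 1).isPreconnected h0mem hev
    obtain ⟨z, hz, hz2⟩ := hne
    exact hz2 (this hz)
  obtain ⟨k, u, hu, hu0, hueq⟩ := ha0.exists_eventuallyEq_pow_smul_nonzero_iff.mpr hnot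
  simp only [sub_zero, smul_eq_mul] at hueq
  -- order at least two
  have hk : 2 ≤ k := by
    rcases Nat.lt_or_ge k 2 with hk | hk
    · exfalso
      interval_cases k
      · have := hueq.self_of_nhds
        simp [h00] at this
        exact hu0 this.symm
      · have h1 : deriv h0 0 = deriv (fun z => z ^ 1 * u z) 0 := Filter.EventuallyEq.deriv_eq hueq
        have h2 : deriv (fun z : ℂ => z ^ 1 * u z) 0 = u 0 := by
          have h3 : HasDerivAt (fun z : ℂ => z ^ 1 * u z) (1 * u 0 + 0 ^ 1 * deriv u 0) 0 := by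
            have := (hasDerivAt_id' (0 : ℂ)).fun_mul hu.differentiableAt.hasDerivAt
            simpa using this
          rw [h3.deriv]; simp
        rw [h01, h2] at h1
        exact hu0 h1.symm
    · exact hk
  set b : ℂ := h 0 / u 0 with hb
  have hb0 : b ≠ 0 := div_ne_zero hn hu0
  have hbn : 0 < ‖b‖ := norm_pos_iff.mpr hb0
  -- the direction
  obtain ⟨w0, hw0⟩ : ∃ w0 : ℂ, w0 ^ k = b / (Complex.I * ‖b‖) :=
    IsAlgClosed.exists_pow_nat_eq _ (by omega)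
  have hw0n : ‖w0‖ = 1 := by
    have h1 : ‖w0‖ ^ k = 1 := by
      rw [← norm_pow, hw0, norm_div, norm_mul, Complex.norm_I, one_mul, Complex.norm_real,
        norm_norm, div_self hbn.ne']
    exact (pow_eq_one_iff_of_nonneg (norm_nonneg _) (by omega)).mp h1
  have hw00 : w0 ≠ 0 := by
    intro h; rw [h] at hw0n; simp at hw0n
  have hval : (b / w0 ^ k).im = ‖b‖ := by
    rw [hw0]
    have : b / (b / (Complex.I * ‖b‖)) = Complex.I * ‖b‖ := by
      have h3 : (Complex.I * ‖b‖ : ℂ) ≠ 0 :=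
        mul_ne_zero Complex.I_ne_zero (by exact_mod_cast hbn.ne')
      field_simp
    rw [this]; simp
  -- continuity
  have hcont1 : ContinuousAt (fun p : ℂ × ℂ => (h p.1 / u p.1 / p.2 ^ k).im) (0, w0) := by
    apply Complex.continuous_im.continuousAt.comp
    apply ContinuousAt.div
    · apply ContinuousAt.div
      · exact ContinuousAt.comp (f := fun p : ℂ × ℂ => p.1) (g := h)
          (hh.continuousOn.continuousAt (isOpen_ball.mem_nhds h0mem)) continuous_fst.continuousAt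
      · exact ContinuousAt.comp (f := fun p : ℂ × ℂ => p.1) (g := u)
          hu.continuousAt continuous_fst.continuousAt
      · exact hu0
    · exact (continuous_snd.pow k).continuousAt
    · exact pow_ne_zero _ hw00
  have hev1 : ∀ᶠ p in 𝓝 ((0 : ℂ), w0), ‖b‖ / 2 < (h p.1 / u p.1 / p.2 ^ k).im := by
    apply hcont1.eventually_const_lt
    show ‖b‖ / 2 < (h 0 / u 0 / w0 ^ k).im
    rw [← hb, hval]; linarith
  have hev2 : ∀ᶠ z in 𝓝 (0 : ℂ), ‖u 0‖ / 2 < ‖u z‖ := by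
    apply hu.continuousAt.norm.eventually_const_lt
    have := norm_pos_iff.mpr hu0
    linarith
  rw [nhds_prod_eq, Filter.eventually_prod_iff] at hev1
  obtain ⟨pa, hpa, pb, hpb, hpab⟩ := hev1
  obtain ⟨δ, hδ, hδb⟩ := Metric.eventually_nhds_iff_ball.mp
    ((hpa.and hev2).and (hueq.and (isOpen_ball.mem_nhds h0mem : ∀ᶠ z in 𝓝 (0 : ℂ), z ∈ ball (0 : ℂ) 1)))
  obtain ⟨η', hη', hηb'⟩ := Metric.eventually_nhds_iff_ball.mp hpb
  set η : ℝ := min η' (1 / 4) with hη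
  have hηpos : 0 < η := by positivity
  have hη4 : η ≤ 1 / 4 := min_le_right _ _
  have hηb : ∀ w ∈ ball w0 η, pb w := fun w hw => hηb' w (ball_subset_ball (min_le_left _ _) hw)
  obtain ⟨J, hJ⟩ := exists_pow_lt_of_lt_one (show (0 : ℝ) < δ / 2 by positivity)
    (show (1 / 2 : ℝ) < 1 by norm_num)
  set c : ℝ := (3 / 4) ^ k * ‖u 0‖ / 2 * (‖b‖ ^ 2 / 4) with hc
  have hcpos : 0 < c := by
    have := norm_pos_iff.mpr hu0
    positivity
  -- the balls
  set B : ℕ → Set ℂ := fun j => ball ((((1 / 2 : ℝ) ^ (J + j) : ℝ) : ℂ) * w0)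
    ((1 / 2 : ℝ) ^ (J + j) * η) with hB
  have hBnorm : ∀ j, ∀ z ∈ B j, ∃ w ∈ ball w0 η, z = (((1 / 2 : ℝ) ^ (J + j) : ℝ) : ℂ) * w := by
    intro j z hz
    have hs : (0 : ℝ) < (1 / 2 : ℝ) ^ (J + j) := by positivity
    have hs' : ((((1 / 2 : ℝ) ^ (J + j) : ℝ)) : ℂ) ≠ 0 := by exact_mod_cast hs.ne'
    refine ⟨z / (((1 / 2 : ℝ) ^ (J + j) : ℝ) : ℂ), ?_, by field_simp⟩
    rw [mem_ball, dist_eq_norm] at hz ⊢
    have h1 : z / (((1 / 2 : ℝ) ^ (J + j) : ℝ) : ℂ) - w0 =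
        (z - (((1 / 2 : ℝ) ^ (J + j) : ℝ) : ℂ) * w0) / (((1 / 2 : ℝ) ^ (J + j) : ℝ) : ℂ) := by
      field_simp
    rw [h1, norm_div, Complex.norm_real, Real.norm_of_nonneg hs.le, div_lt_iff₀ hs]
    linarith
  have hwn : ∀ w ∈ ball w0 η, 3 / 4 < ‖w‖ ∧ ‖w‖ < 5 / 4 := by
    intro w hw
    rw [mem_ball, dist_eq_norm] at hw
    have h1 : ‖w0‖ ≤ ‖w‖ + ‖w - w0‖ := by
      have := norm_sub_le w (w - w0)
      simpa using this
    have h2 : ‖w‖ ≤ ‖w0‖ + ‖w - w0‖ := by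
      have := norm_add_le w0 (w - w0)
      simpa using this
    rw [hw0n] at h1 h2
    constructor <;> linarith
  have hdisj : Pairwise (Function.onFun Disjoint B) := by
    intro i j hij
    rw [Function.onFun, Set.disjoint_left]
    intro z hzi hzj
    obtain ⟨w, hw, hzw⟩ := hBnorm i z hzi
    obtain ⟨w', hw', hzw'⟩ := hBnorm j z hzj
    have h1 : ‖z‖ = (1 / 2 : ℝ) ^ (J + i) * ‖w‖ := by
      rw [hzw, norm_mul, Complex.norm_real, Real.norm_of_nonneg (by positivity)]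
    have h2 : ‖z‖ = (1 / 2 : ℝ) ^ (J + j) * ‖w'‖ := by
      rw [hzw', norm_mul, Complex.norm_real, Real.norm_of_nonneg (by positivity)]
    have key : ∀ p q : ℕ, p < q → ∀ x y : ℝ, 3 / 4 < x → y < 5 / 4 → 0 < y →
        (1 / 2 : ℝ) ^ (J + p) * x ≠ (1 / 2 : ℝ) ^ (J + q) * y := by
      intro p q hpq x y hx hy hy0 heq
      have h3 : (1 / 2 : ℝ) ^ (J + q) ≤ (1 / 2 : ℝ) ^ (J + p) * (1 / 2) := by
        rw [← pow_succ]
        exact pow_le_pow_of_le_one (by norm_num) (by norm_num) (by omega)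
      have h4 : (0 : ℝ) < (1 / 2 : ℝ) ^ (J + p) := by positivity
      have h5 : (1 / 2 : ℝ) ^ (J + q) * y ≤ (1 / 2 : ℝ) ^ (J + p) * (1 / 2) * y :=
        mul_le_mul_of_nonneg_right h3 hy0.le
      nlinarith
    rcases lt_or_gt_of_ne hij with h | h
    · exact key i j h ‖w‖ ‖w'‖ (hwn w hw).1 (hwn w' hw').2 (by linarith [(hwn w' hw').1])
        (by rw [← h1, ← h2])
    · exact key j i h ‖w'‖ ‖w‖ (hwn w' hw').1 (hwn w hw).2 (by linarith [(hwn w hw).1])
        (by rw [← h1, ← h2])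
  -- lower bound on the balls
  have hlow : ∀ j, ∀ z ∈ B j, z ∈ ball (0 : ℂ) 1 ∧
      c * 4 ^ (J + j) ≤ (h z * conj (h0 z)).im ^ 2 / ‖h0 z‖ ^ 3 := by
    intro j z hz
    obtain ⟨w, hw, hzw⟩ := hBnorm j z hz
    set s : ℝ := (1 / 2 : ℝ) ^ (J + j) with hs
    have hspos : 0 < s := by positivity
    have hsJ : s < δ / 2 := by
      refine lt_of_le_of_lt ?_ hJ
      exact pow_le_pow_of_le_one (by norm_num) (by norm_num) (by omega)
    have hzn : ‖z‖ = s * ‖w‖ := by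
      rw [hzw, norm_mul, Complex.norm_real, Real.norm_of_nonneg hspos.le]
    obtain ⟨hw1, hw2⟩ := hwn w hw
    have hzδ : z ∈ ball (0 : ℂ) δ := by
      rw [mem_ball_zero_iff, hzn]
      nlinarith
    obtain ⟨⟨h1, h2⟩, h3, h4⟩ := hδb z hzδ
    refine ⟨h4, ?_⟩
    have h5 : ‖b‖ / 2 < (h z / u z / w ^ k).im := hpab h1 (hηb w hw)
    have hw_ne : w ≠ 0 := by
      intro h; rw [h] at hw1; simp at hw1; linarith
    have hu_ne : u z ≠ 0 := by
      intro h
      rw [h, norm_zero] at h2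
      have := norm_nonneg (u 0)
      linarith
    have hz_ne : z ≠ 0 := by
      rw [hzw]
      exact mul_ne_zero (by exact_mod_cast hspos.ne') hw_ne
    have h0_ne : h0 z ≠ 0 := by
      rw [h3]; exact mul_ne_zero (pow_ne_zero _ hz_ne) hu_ne
    have hN : 0 < ‖h0 z‖ := norm_pos_iff.mpr h0_ne
    -- the imaginary part
    have h6 : h z * conj (h0 z) = (((‖h0 z‖ ^ 2 * (s⁻¹) ^ k : ℝ)) : ℂ) * (h z / u z / w ^ k) := by
      have h7 : ((‖h0 z‖ ^ 2 : ℝ) : ℂ) = h0 z * conj (h0 z) := by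
        rw [Complex.mul_conj, Complex.normSq_eq_norm_sq]
      have h8 : h0 z = (s : ℂ) ^ k * w ^ k * u z := by
        rw [h3, show z ^ k = (s : ℂ) ^ k * w ^ k by rw [hzw, mul_pow]]
      have hs' : (s : ℂ) ≠ 0 := by exact_mod_cast hspos.ne'
      rw [Complex.ofReal_mul, h7, Complex.ofReal_pow, Complex.ofReal_inv]
      rw [inv_pow]
      have h9 : h0 z * ((s : ℂ) ^ k)⁻¹ * (h z / u z / w ^ k) = h z := by
        rw [h8]; field_simp
      calc h z * conj (h0 z) = (h0 z * ((s : ℂ) ^ k)⁻¹ * (h z / u z / w ^ k)) * conj (h0 z) := by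
            rw [h9]
        _ = _ := by ring
    have h10 : (h z * conj (h0 z)).im = ‖h0 z‖ ^ 2 * (s⁻¹) ^ k * (h z / u z / w ^ k).im := by
      rw [h6, Complex.im_ofReal_mul]
    rw [h10]
    have h11 : (‖h0 z‖ ^ 2 * (s⁻¹) ^ k * (h z / u z / w ^ k).im) ^ 2 / ‖h0 z‖ ^ 3 =
        ‖h0 z‖ * ((s⁻¹) ^ k) ^ 2 * (h z / u z / w ^ k).im ^ 2 := by
      field_simp
    rw [h11]
    have h12 : ‖h0 z‖ = s ^ k * ‖w‖ ^ k * ‖u z‖ := by
      rw [h3, norm_mul, norm_pow, hzn, mul_pow]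
    have h13 : ‖h0 z‖ * ((s⁻¹) ^ k) ^ 2 = ‖w‖ ^ k * ‖u z‖ * (s⁻¹) ^ k := by
      rw [h12]
      have h18 : s ^ k * (s⁻¹) ^ k = 1 := by
        rw [← mul_pow, mul_inv_cancel₀ hspos.ne', one_pow]
      linear_combination (‖w‖ ^ k * ‖u z‖ * (s⁻¹) ^ k) * h18
    rw [h13]
    have h14 : (4 : ℝ) ^ (J + j) ≤ (s⁻¹) ^ k := by
      have h15 : s⁻¹ = 2 ^ (J + j) := by
        rw [hs]; rw [one_div, inv_pow, inv_inv]
      rw [h15]
      calc (4 : ℝ) ^ (J + j) = (2 ^ (J + j)) ^ 2 := by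
            rw [← pow_mul, mul_comm, pow_mul]; norm_num
        _ ≤ (2 ^ (J + j)) ^ k := pow_le_pow_right₀ (one_le_pow₀ (by norm_num)) hk
    have h16 : (3 / 4 : ℝ) ^ k ≤ ‖w‖ ^ k := pow_le_pow_left₀ (by norm_num) hw1.le _
    have h17 : (‖b‖ / 2) ^ 2 ≤ (h z / u z / w ^ k).im ^ 2 :=
      pow_le_pow_left₀ (by positivity) h5.le _
    calc c * 4 ^ (J + j) = ((3 / 4) ^ k * (‖u 0‖ / 2) * 4 ^ (J + j)) * (‖b‖ / 2) ^ 2 := by
          rw [hc]; ring
      _ ≤ (‖w‖ ^ k * ‖u z‖ * (s⁻¹) ^ k) * (h z / u z / w ^ k).im ^ 2 := by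
          gcongr
  -- conclusion
  rw [eq_top_iff]
  have hBm : ∀ j, MeasurableSet (B j) := fun j => measurableSet_ball
  have hsub : (⋃ j, B j) ⊆ ball (0 : ℂ) 1 := by
    intro z hz
    obtain ⟨j, hj⟩ := mem_iUnion.mp hz
    exact (hlow j z hj).1
  have hterm : ∀ j, ENNReal.ofReal (c * η ^ 2 * Real.pi) ≤
      ∫⁻ z in B j, ENNReal.ofReal ((h z * conj (h0 z)).im ^ 2 / ‖h0 z‖ ^ 3) := by
    intro j
    have h1 : ∫⁻ z in B j, ENNReal.ofReal (c * 4 ^ (J + j)) ≤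
        ∫⁻ z in B j, ENNReal.ofReal ((h z * conj (h0 z)).im ^ 2 / ‖h0 z‖ ^ 3) := by
      apply setLIntegral_mono' (hBm j)
      intro z hz
      exact ENNReal.ofReal_le_ofReal (hlow j z hz).2
    refine le_trans (le_of_eq ?_) h1
    rw [setLIntegral_const, hB]
    simp only
    rw [Complex.volume_ball]
    have h2 : (NNReal.pi : ℝ≥0∞) = ENNReal.ofReal Real.pi := by
      rw [← NNReal.coe_real_pi, ENNReal.ofReal_coe_nnreal]
    rw [h2, ← ENNReal.ofReal_pow (by positivity), ← ENNReal.ofReal_mul (by positivity),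
      ← ENNReal.ofReal_mul (by positivity)]
    congr 1
    have h3 : (4 : ℝ) ^ (J + j) * ((1 / 2 : ℝ) ^ (J + j)) ^ 2 = 1 := by
      rw [← pow_mul, mul_comm (J + j) 2, pow_mul, ← mul_pow]; norm_num
    calc c * η ^ 2 * Real.pi = c * η ^ 2 * Real.pi *
          ((4 : ℝ) ^ (J + j) * ((1 / 2 : ℝ) ^ (J + j)) ^ 2) := by rw [h3, mul_one]
      _ = _ := by ring
  calc (∞ : ℝ≥0∞) = ∑' _ : ℕ, ENNReal.ofReal (c * η ^ 2 * Real.pi) := by
        rw [ENNReal.tsum_const_eq_top_of_ne_zero]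
        rw [Ne, ENNReal.ofReal_eq_zero, not_le]
        have := Real.pi_pos
        positivity
    _ ≤ ∑' j, ∫⁻ z in B j, ENNReal.ofReal ((h z * conj (h0 z)).im ^ 2 / ‖h0 z‖ ^ 3) :=
        ENNReal.tsum_le_tsum hterm
    _ = ∫⁻ z in ⋃ j, B j, ENNReal.ofReal ((h z * conj (h0 z)).im ^ 2 / ‖h0 z‖ ^ 3) :=
        (lintegral_iUnion hBm hdisj _).symm
    _ ≤ _ := lintegral_mono_set hsub

end

end Pool.Agent.TNQ
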