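import Mathlib

/-!
# Definitions for MP_452786_gt
-/

open scoped BigOperators Topology ENNReal ComplexConjugate
open Metric Set MeasureTheory Filter

namespace Pool.Agent.TNQ

noncomputable section

/-! ## Plurisubharmonic functions -/

/-- A real function `u` on a complex normed space is plurisubharmonic on an open set `O`: it is
upper semicontinuous, and for every holomorphic disc in `O` (a holomorphic map from a
neighbourhood of the closed unit disc to `O`) the value of `u` at the centre is at most its mean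
over the boundary circle (all discs are obtained by reparametrisation). -/
def PshOn {E : Type*} [NormedAddCommGroup E] [NormedSpace ℂ E] (u : E → ℝ) (O : Set E) : Prop :=
  UpperSemicontinuousOn u O ∧
    ∀ (R : ℝ) (γ : ℂ → E), 1 < R → DifferentiableOn ℂ γ (ball 0 R) → MapsTo γ (ball 0 R) O →
      u (γ 0) ≤ (2 * Real.pi)⁻¹ *
        ∫ θ in (0 : ℝ)..(2 * Real.pi), u (γ (Complex.exp (θ * Complex.I)))

/-- Strictly plurisubharmonic on an open set `O` of `ℂ ^ ι`: near each point `a` of `O` there is a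
local chart `w` (an injective holomorphic map with invertible derivative on an open neighbourhood
`U` of `a`) and an `ε > 0` such that `u - ε |w| ^ 2` is plurisubharmonic on `U`. -/
def StrictPshOn {ι : Type*} [Fintype ι] (u : EuclideanSpace ℂ ι → ℝ)
    (O : Set (EuclideanSpace ℂ ι)) : Prop :=
  ∀ a ∈ O, ∃ (ε : ℝ) (U : Set (EuclideanSpace ℂ ι))
    (w : EuclideanSpace ℂ ι → EuclideanSpace ℂ ι), 0 < ε ∧ IsOpen U ∧ a ∈ U ∧ U ⊆ O ∧
    DifferentiableOn ℂ w U ∧ InjOn w U ∧ (∀ x ∈ U, Function.Injective (fderiv ℂ w x)) ∧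
    PshOn (fun x => u x - ε * ‖w x‖ ^ 2) U

/-! ## Dual `L¹` norms -/

/-- The linear combination with coefficients `q` of the functions `b i`. -/
def comb {Ω ι : Type*} [Fintype ι] (b : ι → Ω → ℂ) (q : EuclideanSpace ℂ ι) (x : Ω) : ℂ :=
  ∑ i, q i * b i x

/-- The `L¹` norm of a linear combination. -/
def nrm {Ω ι : Type*} [Fintype ι] [MeasurableSpace Ω] (m : Measure Ω) (b : ι → Ω → ℂ)
    (q : EuclideanSpace ℂ ι) : ℝ := ∫ x, ‖comb b q x‖ ∂m

/-- The dual norm, in the dual coordinates. -/
def dnrm {Ω ι : Type*} [Fintype ι] [MeasurableSpace Ω] (m : Measure Ω) (b : ι → Ω → ℂ)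
    (l : EuclideanSpace ℂ ι) : ℝ :=
  sSup {r : ℝ | ∃ q : EuclideanSpace ℂ ι, nrm m b q = 1 ∧ r = ‖∑ i, l i * q i‖}

end

end Pool.Agent.TNQ
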