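import Pool.Agent.TNQ.Main2

/-!
# Hyperelliptic curves: the Teichmüller norm is not strictly plurisubharmonic on the fibre
-/

open scoped BigOperators Topology ENNReal ComplexConjugate
open Metric Set MeasureTheory Filter

namespace Pool.Agent.TNQ

noncomputable section

namespace Hyp2

/-! ### Integrability -/

theorem integrableOn_inv_norm (R : ℝ) : IntegrableOn (fun w : ℂ => ‖w‖⁻¹) (ball 0 R) volume := by
  have h := (integrableOn_fun_norm_addHaar (volume : Measure ℂ) (f := fun t : ℝ => t⁻¹)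
    (r := R)).2
  apply h
  rw [Complex.finrank_real_complex]
  have h1 : IntegrableOn (fun _ : ℝ => (1 : ℝ)) (Ioo 0 R) volume :=
    integrableOn_const (C := (1 : ℝ)) (by simp) (by simp)
  refine h1.congr_fun ?_ measurableSet_Ioo
  intro t ht
  have : t ≠ 0 := ne_of_gt ht.1
  simp [this]

theorem integrableOn_inv_norm_sub (z : ℂ) (R : ℝ) :
    IntegrableOn (fun w : ℂ => ‖w - z‖⁻¹) (ball z R) volume := by
  have h := integrableOn_inv_norm R
  rw [← integrable_indicator_iff measurableSet_ball] at h ⊢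
  have h2 := h.comp_sub_right z
  refine h2.congr (Eventually.of_forall fun w => ?_)
  simp only [indicator]
  have : w - z ∈ ball (0 : ℂ) R ↔ w ∈ ball z R := by
    simp [dist_eq_norm]
  by_cases hw : w ∈ ball z R
  · rw [if_pos hw, if_pos (this.2 hw)]
  · rw [if_neg hw, if_neg (fun h => hw (this.1 h))]

/-- The polynomial `∏ (x - t j)`. -/
def fn {n : ℕ} (t : Fin n → ℂ) (x : ℂ) : ℂ := ∏ j, (x - t j)

lemma fn_cont {n : ℕ} (t : Fin n → ℂ) : Continuous (fn t) := by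
  unfold fn
  fun_prop

lemma inv_fn_le {n : ℕ} (t : Fin n → ℂ) (ht : Function.Injective t) (hn : 0 < n) :
    ∃ C : ℝ, 0 ≤ C ∧ ∀ x : ℂ, ‖fn t x‖⁻¹ ≤ C * ∑ j, ‖x - t j‖⁻¹ := by
  -- separation
  obtain ⟨δ, hδ, hsep⟩ : ∃ δ : ℝ, 0 < δ ∧ ∀ j k, j ≠ k → 2 * δ ≤ ‖t j - t k‖ := by
    have hfin : Set.Finite {r : ℝ | ∃ j k, j ≠ k ∧ r = ‖t j - t k‖} := by
      have : {r : ℝ | ∃ j k, j ≠ k ∧ r = ‖t j - t k‖} ⊆
          Set.range (fun p : Fin n × Fin n => ‖t p.1 - t p.2‖) := by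
        rintro r ⟨j, k, _, rfl⟩
        exact ⟨(j, k), rfl⟩
      exact (Set.finite_range _).subset this
    by_cases hne : {r : ℝ | ∃ j k, j ≠ k ∧ r = ‖t j - t k‖}.Nonempty
    · obtain ⟨r, hr, hmin⟩ := Set.exists_min_image _ id hfin hne
      obtain ⟨j, k, hjk, rfl⟩ := hr
      have hpos : 0 < ‖t j - t k‖ := norm_pos_iff.mpr (sub_ne_zero.mpr (fun h => hjk (ht h)))
      refine ⟨‖t j - t k‖ / 2, by positivity, ?_⟩
      intro j' k' h
      have := hmin ‖t j' - t k'‖ ⟨j', k', h, rfl⟩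
      simp only [id] at this
      linarith
    · refine ⟨1, one_pos, ?_⟩
      intro j k h
      exact absurd ⟨_, j, k, h, rfl⟩ hne
  refine ⟨(δ ^ (n - 1))⁻¹, by positivity, ?_⟩
  intro x
  have : Nonempty (Fin n) := ⟨⟨0, hn⟩⟩
  obtain ⟨j, -, hj⟩ := Finset.exists_min_image Finset.univ (fun j => ‖x - t j‖)
    Finset.univ_nonempty
  have h1 : ∀ k ∈ Finset.univ.erase j, δ ≤ ‖x - t k‖ := by
    intro k hk
    have hkj : k ≠ j := Finset.ne_of_mem_erase hk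
    have h2 := hsep k j hkj
    have h3 : ‖t k - t j‖ ≤ ‖x - t k‖ + ‖x - t j‖ := by
      have : t k - t j = (x - t j) - (x - t k) := by ring
      rw [this, add_comm]
      exact norm_sub_le _ _
    have h4 := hj k (Finset.mem_univ _)
    linarith
  have h2 : ‖fn t x‖ = ‖x - t j‖ * ∏ k ∈ Finset.univ.erase j, ‖x - t k‖ := by
    unfold fn
    rw [norm_prod]
    exact (Finset.mul_prod_erase _ (fun k => ‖x - t k‖) (Finset.mem_univ j)).symm
  have h3 : δ ^ (n - 1) ≤ ∏ k ∈ Finset.univ.erase j, ‖x - t k‖ := by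
    have : (Finset.univ.erase j).card = n - 1 := by
      rw [Finset.card_erase_of_mem (Finset.mem_univ j)]; simp
    rw [← this, ← Finset.prod_const]
    exact Finset.prod_le_prod (fun _ _ => hδ.le) h1
  have h4 : ‖x - t j‖⁻¹ ≤ ∑ j, ‖x - t j‖⁻¹ :=
    Finset.single_le_sum (f := fun j => ‖x - t j‖⁻¹) (fun _ _ => by positivity)
      (Finset.mem_univ j)
  rw [h2, mul_inv, mul_comm]
  apply mul_le_mul _ h4 (by positivity) (by positivity)
  exact inv_anti₀ (by positivity) h3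

lemma fn_lower {n : ℕ} (t : Fin n → ℂ) : ∃ R : ℝ, 1 ≤ R ∧ ∀ x : ℂ, R ≤ ‖x‖ →
    (‖x‖ / 2) ^ n ≤ ‖fn t x‖ := by
  refine ⟨1 + 2 * ∑ j, ‖t j‖, ?_, ?_⟩
  · have : 0 ≤ ∑ j, ‖t j‖ := Finset.sum_nonneg (fun _ _ => norm_nonneg _)
    linarith
  intro x hx
  unfold fn
  rw [norm_prod]
  have h1 : ∏ _j : Fin n, (‖x‖ / 2) ≤ ∏ j, ‖x - t j‖ := by
    apply Finset.prod_le_prod (fun _ _ => by positivity)
    intro j _
    have h2 : ‖t j‖ ≤ ∑ j, ‖t j‖ :=
      Finset.single_le_sum (f := fun j => ‖t j‖) (fun _ _ => norm_nonneg _) (Finset.mem_univ j)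
    have h3 : ‖x‖ - ‖t j‖ ≤ ‖x - t j‖ := norm_sub_norm_le _ _
    linarith
  rw [Finset.prod_const, Finset.card_univ, Fintype.card_fin] at h1
  exact h1

/-- Integrability of `x ^ i / f`. -/
lemma int_one {n : ℕ} (t : Fin n → ℂ) (ht : Function.Injective t) (i : ℕ) (hi : i + 4 ≤ n) :
    Integrable (fun x : ℂ => ‖x‖ ^ i * ‖fn t x‖⁻¹) := by
  have hmeas : Measurable (fun x : ℂ => ‖x‖ ^ i * ‖fn t x‖⁻¹) :=
    (measurable_norm.pow_const i).mul (fn_cont t).measurable.norm.inv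
  obtain ⟨C, hC, hle⟩ := inv_fn_le t ht (by omega)
  obtain ⟨R, hR, hlow⟩ := fn_lower t
  have hball : IntegrableOn (fun x : ℂ => ‖x‖ ^ i * ‖fn t x‖⁻¹) (ball 0 R) := by
    have h1 : IntegrableOn (fun x : ℂ => R ^ i * (C * ∑ j, ‖x - t j‖⁻¹)) (ball 0 R) := by
      apply Integrable.const_mul
      apply Integrable.const_mul
      apply integrable_finsetSum
      intro j _
      have h2 := integrableOn_inv_norm_sub (t j) (R + ‖t j‖)
      apply h2.mono_set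
      intro x hx
      rw [mem_ball_zero_iff] at hx
      rw [mem_ball, dist_eq_norm]
      calc ‖x - t j‖ ≤ ‖x‖ + ‖t j‖ := norm_sub_le _ _
        _ < R + ‖t j‖ := by linarith
    apply Integrable.mono' h1 hmeas.aestronglyMeasurable
    rw [ae_restrict_iff' measurableSet_ball]
    filter_upwards with x hx
    rw [mem_ball_zero_iff] at hx
    rw [Real.norm_of_nonneg (by positivity)]
    exact mul_le_mul (pow_le_pow_left₀ (norm_nonneg _) hx.le _) (hle x) (by positivity)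
      (by positivity)
  have hout : IntegrableOn (fun x : ℂ => ‖x‖ ^ i * ‖fn t x‖⁻¹) (ball 0 R)ᶜ := by
    have h1 : Integrable (fun x : ℂ => (2 ^ n * 2 ^ 4 : ℝ) * (1 + ‖x‖) ^ (-(4 : ℝ))) := by
      apply Integrable.const_mul
      apply integrable_one_add_norm
      rw [Complex.finrank_real_complex]; norm_num
    apply Integrable.mono' h1.integrableOn hmeas.aestronglyMeasurable
    rw [ae_restrict_iff' measurableSet_ball.compl]
    filter_upwards with x hx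
    rw [mem_compl_iff, mem_ball_zero_iff, not_lt] at hx
    have hx1 : 1 ≤ ‖x‖ := hR.trans hx
    have hx0 : 0 < ‖x‖ := by linarith
    rw [Real.norm_of_nonneg (by positivity)]
    have h2 := hlow x hx
    have h3 : ‖fn t x‖⁻¹ ≤ ((‖x‖ / 2) ^ n)⁻¹ := inv_anti₀ (by positivity) h2
    have h4 : ‖x‖ ^ i * ((‖x‖ / 2) ^ n)⁻¹ ≤ 2 ^ n * (‖x‖ ^ 4)⁻¹ := by
      have h5 : ‖x‖ ^ i * ‖x‖ ^ 4 ≤ ‖x‖ ^ n := by
        rw [← pow_add]
        exact pow_le_pow_right₀ hx1 hi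
      rw [div_pow, inv_div, mul_div_assoc', div_le_iff₀ (by positivity)]
      calc ‖x‖ ^ i * 2 ^ n = 2 ^ n * (‖x‖ ^ 4)⁻¹ * (‖x‖ ^ i * ‖x‖ ^ 4) := by field_simp
        _ ≤ 2 ^ n * (‖x‖ ^ 4)⁻¹ * ‖x‖ ^ n := by gcongr
    have h6 : (‖x‖ ^ 4)⁻¹ ≤ 2 ^ 4 * (1 + ‖x‖) ^ (-(4 : ℝ)) := by
      rw [Real.rpow_neg (by positivity), show (4 : ℝ) = ((4 : ℕ) : ℝ) by norm_num,
        Real.rpow_natCast, ← div_eq_mul_inv, le_div_iff₀ (by positivity), inv_mul_le_iff₀ (by positivity)]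
      calc (1 + ‖x‖) ^ 4 ≤ (2 * ‖x‖) ^ 4 := by gcongr; linarith
        _ = ‖x‖ ^ 4 * 2 ^ 4 := by ring
    calc ‖x‖ ^ i * ‖fn t x‖⁻¹ ≤ ‖x‖ ^ i * ((‖x‖ / 2) ^ n)⁻¹ := by gcongr
      _ ≤ 2 ^ n * (‖x‖ ^ 4)⁻¹ := h4
      _ ≤ 2 ^ n * (2 ^ 4 * (1 + ‖x‖) ^ (-(4 : ℝ))) := by gcongr
      _ = _ := by ring
  have := hball.union hout
  rwa [union_compl_self, integrableOn_univ] at this

/-- Integrability of `x ^ i / √f`. -/
lemma int_sqrt {k : ℕ} (t : Fin (2 * k) → ℂ) (ht : Function.Injective t) (i : ℕ)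
    (hi : i + 4 ≤ k) : Integrable (fun x : ℂ => ‖x‖ ^ i * (√‖fn t x‖)⁻¹) := by
  have hmeas : Measurable (fun x : ℂ => ‖x‖ ^ i * (√‖fn t x‖)⁻¹) :=
    (measurable_norm.pow_const i).mul (Real.continuous_sqrt.measurable.comp
      (fn_cont t).measurable.norm).inv
  obtain ⟨C, hC, hle⟩ := inv_fn_le t ht (by omega)
  obtain ⟨R, hR, hlow⟩ := fn_lower t
  have hball : IntegrableOn (fun x : ℂ => ‖x‖ ^ i * (√‖fn t x‖)⁻¹) (ball 0 R) := by
    have h1 : IntegrableOn (fun x : ℂ => R ^ i * (1 + C * ∑ j, ‖x - t j‖⁻¹)) (ball 0 R) := by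
      apply Integrable.const_mul
      apply Integrable.add
      · exact integrableOn_const (C := (1 : ℝ)) (measure_ball_lt_top.ne) (by simp)
      apply Integrable.const_mul
      apply integrable_finsetSum
      intro j _
      have h2 := integrableOn_inv_norm_sub (t j) (R + ‖t j‖)
      apply h2.mono_set
      intro x hx
      rw [mem_ball_zero_iff] at hx
      rw [mem_ball, dist_eq_norm]
      calc ‖x - t j‖ ≤ ‖x‖ + ‖t j‖ := norm_sub_le _ _
        _ < R + ‖t j‖ := by linarith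
    apply Integrable.mono' h1 hmeas.aestronglyMeasurable
    rw [ae_restrict_iff' measurableSet_ball]
    filter_upwards with x hx
    rw [mem_ball_zero_iff] at hx
    rw [Real.norm_of_nonneg (by positivity)]
    have h3 : (√‖fn t x‖)⁻¹ ≤ 1 + ‖fn t x‖⁻¹ := by
      by_cases h0 : ‖fn t x‖ = 0
      · rw [h0]; simp
      have hpos : 0 < ‖fn t x‖ := lt_of_le_of_ne (norm_nonneg _) (Ne.symm h0)
      have hs : 0 < √‖fn t x‖ := Real.sqrt_pos.mpr hpos
      have h4 : ‖fn t x‖⁻¹ = (√‖fn t x‖)⁻¹ ^ 2 := by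
        rw [inv_pow, Real.sq_sqrt hpos.le]
      rw [h4]
      nlinarith [sq_nonneg ((√‖fn t x‖)⁻¹ - 1), inv_pos.mpr hs]
    exact mul_le_mul (pow_le_pow_left₀ (norm_nonneg _) hx.le _)
      (h3.trans (by linarith [hle x])) (by positivity) (by positivity)
  have hout : IntegrableOn (fun x : ℂ => ‖x‖ ^ i * (√‖fn t x‖)⁻¹) (ball 0 R)ᶜ := by
    have h1 : Integrable (fun x : ℂ => (2 ^ k * 2 ^ 4 : ℝ) * (1 + ‖x‖) ^ (-(4 : ℝ))) := by
      apply Integrable.const_mul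
      apply integrable_one_add_norm
      rw [Complex.finrank_real_complex]; norm_num
    apply Integrable.mono' h1.integrableOn hmeas.aestronglyMeasurable
    rw [ae_restrict_iff' measurableSet_ball.compl]
    filter_upwards with x hx
    rw [mem_compl_iff, mem_ball_zero_iff, not_lt] at hx
    have hx1 : 1 ≤ ‖x‖ := hR.trans hx
    have hx0 : 0 < ‖x‖ := by linarith
    rw [Real.norm_of_nonneg (by positivity)]
    have h2 : (‖x‖ / 2) ^ k ≤ √‖fn t x‖ := by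
      apply Real.le_sqrt_of_sq_le
      rw [← pow_mul, mul_comm k 2]
      exact hlow x hx
    have h3 : (√‖fn t x‖)⁻¹ ≤ ((‖x‖ / 2) ^ k)⁻¹ := inv_anti₀ (by positivity) h2
    have h4 : ‖x‖ ^ i * ((‖x‖ / 2) ^ k)⁻¹ ≤ 2 ^ k * (‖x‖ ^ 4)⁻¹ := by
      have h5 : ‖x‖ ^ i * ‖x‖ ^ 4 ≤ ‖x‖ ^ k := by
        rw [← pow_add]
        exact pow_le_pow_right₀ hx1 hi
      rw [div_pow, inv_div, mul_div_assoc', div_le_iff₀ (by positivity)]
      calc ‖x‖ ^ i * 2 ^ k = 2 ^ k * (‖x‖ ^ 4)⁻¹ * (‖x‖ ^ i * ‖x‖ ^ 4) := by field_simp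
        _ ≤ 2 ^ k * (‖x‖ ^ 4)⁻¹ * ‖x‖ ^ k := by gcongr
    have h6 : (‖x‖ ^ 4)⁻¹ ≤ 2 ^ 4 * (1 + ‖x‖) ^ (-(4 : ℝ)) := by
      rw [Real.rpow_neg (by positivity), show (4 : ℝ) = ((4 : ℕ) : ℝ) by norm_num,
        Real.rpow_natCast, ← div_eq_mul_inv, le_div_iff₀ (by positivity), inv_mul_le_iff₀ (by positivity)]
      calc (1 + ‖x‖) ^ 4 ≤ (2 * ‖x‖) ^ 4 := by gcongr; linarith
        _ = ‖x‖ ^ 4 * 2 ^ 4 := by ring
    calc ‖x‖ ^ i * (√‖fn t x‖)⁻¹ ≤ ‖x‖ ^ i * ((‖x‖ / 2) ^ k)⁻¹ := by gcongr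
      _ ≤ 2 ^ k * (‖x‖ ^ 4)⁻¹ := h4
      _ ≤ 2 ^ k * (2 ^ 4 * (1 + ‖x‖) ^ (-(4 : ℝ))) := by gcongr
      _ = _ := by ring
  have := hball.union hout
  rwa [union_compl_self, integrableOn_univ] at this

end Hyp2

end

end Pool.Agent.TNQ
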