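import Pool.Agent.TNQ.Hyper

/-!
# Hyperelliptic curves: the Teichmüller norm is not strictly plurisubharmonic on the fibre
-/

open scoped BigOperators Topology ENNReal ComplexConjugate
open Metric Set MeasureTheory Filter Polynomial

namespace Pool.Agent.TNQ

noncomputable section

/-! ### Definitions -/

/-- Indices of the standard basis of the quadratic differentials of a hyperelliptic curve of
genus `g`: `x ^ i dx² / y²` (`i < 2 g - 1`) and `x ^ i dx² / y` (`i < g - 2`). -/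
abbrev HIx (g : ℕ) := Fin (2 * g - 1) ⊕ Fin (g - 2)

/-- The polynomial `∏ (x - t j)`. -/
def hf {g : ℕ} (t : Fin (2 * g + 2) → ℂ) (x : ℂ) : ℂ := ∏ j, (x - t j)

/-- A square root of `f (x)`. -/
def hs {g : ℕ} (t : Fin (2 * g + 2) → ℂ) (x : ℂ) : ℂ := (hf t x) ^ (1 / 2 : ℂ)

/-- `P (x)`, for `q = (P (x) + R (x) y) dx² / y²`. -/
def hP {g : ℕ} (q : EuclideanSpace ℂ (HIx g)) (x : ℂ) : ℂ :=
  ∑ i : Fin (2 * g - 1), q (.inl i) * x ^ (i : ℕ)

/-- `R (x)`, for `q = (P (x) + R (x) y) dx² / y²`. -/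
def hR {g : ℕ} (q : EuclideanSpace ℂ (HIx g)) (x : ℂ) : ℂ :=
  ∑ i : Fin (g - 2), q (.inr i) * x ^ (i : ℕ)

/-- The `L¹` norm of the holomorphic quadratic differential `q = (P (x) + R (x) y) dx² / y²` on
the curve `y² = ∏ (x - t j)`: there are two points over each `x`. -/
def hyperL1 {g : ℕ} (t : Fin (2 * g + 2) → ℂ) (q : EuclideanSpace ℂ (HIx g)) : ℝ :=
  ∫ x : ℂ, (‖hP q x + hR q x * hs t x‖ + ‖hP q x - hR q x * hs t x‖) / ‖hf t x‖

/-- The Teichmüller norm on the fibre of the tangent bundle of Teichmüller space at the curve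
`y² = ∏ (x - t j)`; the coordinates of a tangent vector are its values on the standard basis of
the space of holomorphic quadratic differentials. -/
def hyperF {g : ℕ} (t : Fin (2 * g + 2) → ℂ) (l : EuclideanSpace ℂ (HIx g)) : ℝ :=
  sSup {r : ℝ | ∃ q : EuclideanSpace ℂ (HIx g), hyperL1 t q = 1 ∧ r = ‖∑ i, l i * q i‖}

namespace Hyp2

variable {g : ℕ}

/-- The sign of a sheet. -/
def sn (e : Bool) : ℂ := if e then 1 else -1

/-- The basis as functions on the two sheets. -/
def bs (t : Fin (2 * g + 2) → ℂ) (i : HIx g) (p : ℂ × Bool) : ℂ :=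
  match i with
  | .inl i => p.1 ^ (i : ℕ) / hf t p.1
  | .inr i => sn p.2 * p.1 ^ (i : ℕ) * hs t p.1 / hf t p.1

/-- The measure. -/
def mm : Measure (ℂ × Bool) := (volume : Measure ℂ).prod Measure.count

lemma comb_bs (t : Fin (2 * g + 2) → ℂ) (q : EuclideanSpace ℂ (HIx g)) (x : ℂ) (e : Bool) :
    comb (bs t) q (x, e) = (hP q x + sn e * (hR q x * hs t x)) / hf t x := by
  unfold comb hP hR
  rw [Fintype.sum_sum_type, add_div]
  congr 1
  · rw [Finset.sum_div]
    apply Finset.sum_congr rfl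
    intro i _
    simp only [bs]
    ring
  · rw [Finset.sum_mul, Finset.mul_sum, Finset.sum_div]
    apply Finset.sum_congr rfl
    intro i _
    simp only [bs]
    ring

lemma hs_sq (t : Fin (2 * g + 2) → ℂ) (x : ℂ) : hs t x ^ 2 = hf t x := by
  unfold hs
  by_cases hz : hf t x = 0
  · rw [hz]; simp
  · rw [sq, ← Complex.cpow_add _ _ hz]; norm_num

lemma hs_norm (t : Fin (2 * g + 2) → ℂ) (x : ℂ) : ‖hs t x‖ = √‖hf t x‖ := by
  have h := congrArg norm (hs_sq t x)
  rw [norm_pow] at h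
  rw [← h, Real.sqrt_sq (norm_nonneg _)]

lemma hf_cont (t : Fin (2 * g + 2) → ℂ) : Continuous (hf t) := fn_cont t

lemma hs_meas (t : Fin (2 * g + 2) → ℂ) : Measurable (hs t) := by
  unfold hs
  exact (hf_cont t).measurable.pow_const _

lemma bs_meas (t : Fin (2 * g + 2) → ℂ) (i : HIx g) : Measurable (bs t i) := by
  rcases i with i | i
  · show Measurable (fun p : ℂ × Bool => p.1 ^ (i : ℕ) / hf t p.1)
    exact (measurable_fst.pow_const _).div ((hf_cont t).measurable.comp measurable_fst)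
  · show Measurable (fun p : ℂ × Bool => sn p.2 * p.1 ^ (i : ℕ) * hs t p.1 / hf t p.1)
    have h1 : Measurable sn := measurable_of_finite _
    exact (((h1.comp measurable_snd).mul (measurable_fst.pow_const _)).mul
      ((hs_meas t).comp measurable_fst)).div ((hf_cont t).measurable.comp measurable_fst)

lemma bs_int (t : Fin (2 * g + 2) → ℂ) (ht : Function.Injective t) (hg : 2 ≤ g) (i : HIx g) :
    Integrable (bs t i) mm := by
  unfold mm
  have key : ∃ h : ℂ → ℝ, Integrable h ∧ ∀ p : ℂ × Bool, ‖bs t i p‖ ≤ h p.1 := by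
    rcases i with i | i
    · refine ⟨fun x => ‖x‖ ^ (i : ℕ) * ‖fn t x‖⁻¹, int_one t ht i (by have := i.2; omega), ?_⟩
      rintro ⟨x, e⟩
      show ‖x ^ (i : ℕ) / hf t x‖ ≤ _
      rw [norm_div, norm_pow, div_eq_mul_inv]
      exact le_rfl
    · have h2 : 2 * g + 2 = 2 * (g + 1) := by ring
      have hh := i.2
      have h3 := int_sqrt (k := g + 1) t ht i (by omega)
      refine ⟨fun x => ‖x‖ ^ (i : ℕ) * (√‖fn t x‖)⁻¹, h3, ?_⟩
      rintro ⟨x, e⟩
      show ‖sn e * x ^ (i : ℕ) * hs t x / hf t x‖ ≤ _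
      have h4 : ‖sn e‖ = 1 := by
        unfold sn; split_ifs <;> simp
      rw [norm_div, norm_mul, norm_mul, norm_pow, h4, one_mul, hs_norm, mul_div_assoc]
      apply le_of_eq
      congr 1
      exact Real.sqrt_div_self'.trans (one_div _)
  obtain ⟨h, hh, hle⟩ := key
  have h1 : Integrable (fun p : ℂ × Bool => h p.1) ((volume : Measure ℂ).prod Measure.count) := by
    have := hh.mul_prod (ν := (Measure.count : Measure Bool)) (g := fun _ => (1 : ℝ))
      (integrable_const 1)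
    simpa using this
  exact Integrable.mono' h1 (bs_meas t i).aestronglyMeasurable (Filter.Eventually.of_forall hle)

lemma nrm_bs (t : Fin (2 * g + 2) → ℂ) (ht : Function.Injective t) (hg : 2 ≤ g)
    (q : EuclideanSpace ℂ (HIx g)) : nrm mm (bs t) q = hyperL1 t q := by
  unfold nrm mm hyperL1
  rw [integral_prod _ (comb_int (bs_int t ht hg) q).norm]
  congr 1
  funext x
  rw [integral_count]
  simp only [Fintype.sum_bool, comb_bs, sn, if_true, norm_div]
  simp only [one_mul, Bool.false_eq_true, if_false]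
  rw [← add_div]
  congr 3
  ring

lemma dnrm_bs (t : Fin (2 * g + 2) → ℂ) (ht : Function.Injective t) (hg : 2 ≤ g) :
    dnrm mm (bs t) = hyperF t := by
  funext l
  unfold dnrm hyperF
  simp only [nrm_bs t ht hg]

/-! ### The polynomials -/

lemma fpoly_eval (t : Fin (2 * g + 2) → ℂ) (x : ℂ) :
    (∏ j, (X - C (t j)) : ℂ[X]).eval x = hf t x := by
  simp [hf, eval_prod]

lemma exists_one (t : Fin (2 * g + 2) → ℂ) : ∃ x, hf t x = 1 := by
  have hdeg : (∏ j, (X - C (t j)) : ℂ[X]).natDegree = 2 * g + 2 := by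
    rw [natDegree_prod _ _ (fun j _ => X_sub_C_ne_zero _)]
    simp
  have h1 : ((∏ j, (X - C (t j)) : ℂ[X]) - C 1).degree ≠ 0 := by
    have h2 : ((∏ j, (X - C (t j)) : ℂ[X]) - C 1).natDegree = 2 * g + 2 := by
      rw [natDegree_sub_C, hdeg]
    intro h
    have := natDegree_eq_zero_iff_degree_le_zero.mpr h.le
    omega
  obtain ⟨x, hx⟩ := IsAlgClosed.exists_root _ h1
  refine ⟨x, ?_⟩
  rw [IsRoot, eval_sub, eval_C, fpoly_eval] at hx
  linear_combination hx

lemma sq_ne (t : Fin (2 * g + 2) → ℂ) (ht : Function.Injective t) (P R : ℂ[X])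
    (h : P ^ 2 = R ^ 2 * ∏ j, (X - C (t j))) : R = 0 := by
  by_contra hR
  have hP : P ≠ 0 := by
    rintro rfl
    have h1 : R ^ 2 * ∏ j, (X - C (t j)) ≠ 0 :=
      mul_ne_zero (pow_ne_zero _ hR) (Finset.prod_ne_zero_iff.mpr (fun j _ => X_sub_C_ne_zero _))
    apply h1
    rw [← h]; ring
  set j0 : Fin (2 * g + 2) := ⟨0, by omega⟩
  have hsplit : (∏ j, (X - C (t j)) : ℂ[X]) =
      (X - C (t j0)) * ∏ j ∈ Finset.univ.erase j0, (X - C (t j)) :=
    (Finset.mul_prod_erase _ _ (Finset.mem_univ j0)).symm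
  have hprod0 : (∏ j ∈ Finset.univ.erase j0, (X - C (t j)) : ℂ[X]) ≠ 0 :=
    Finset.prod_ne_zero_iff.mpr (fun j _ => X_sub_C_ne_zero _)
  have h1 : rootMultiplicity (t j0) (P ^ 2) = 2 * rootMultiplicity (t j0) P := by
    rw [sq, rootMultiplicity_mul (mul_ne_zero hP hP)]; ring
  have h2 : rootMultiplicity (t j0) (R ^ 2 * ∏ j, (X - C (t j))) =
      2 * rootMultiplicity (t j0) R + 1 := by
    rw [hsplit, rootMultiplicity_mul (mul_ne_zero (pow_ne_zero _ hR)
      (mul_ne_zero (X_sub_C_ne_zero _) hprod0)),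
      rootMultiplicity_mul (mul_ne_zero (X_sub_C_ne_zero _) hprod0), sq,
      rootMultiplicity_mul (mul_ne_zero hR hR), rootMultiplicity_X_sub_C_self]
    have h3 : rootMultiplicity (t j0) (∏ j ∈ Finset.univ.erase j0, (X - C (t j)) : ℂ[X]) = 0 := by
      apply rootMultiplicity_eq_zero
      rw [IsRoot, eval_prod, Finset.prod_eq_zero_iff]
      rintro ⟨j, hj, hj2⟩
      rw [eval_sub, eval_X, eval_C, sub_eq_zero] at hj2
      exact Finset.ne_of_mem_erase hj (ht hj2.symm)
    rw [h3]; ring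
  rw [h] at h1
  omega

/-! ### The disc -/

lemma hP_poly (q : EuclideanSpace ℂ (HIx g)) (x : ℂ) :
    (∑ i : Fin (2 * g - 1), C (q (.inl i)) * X ^ (i : ℕ) : ℂ[X]).eval x = hP q x := by
  simp [hP, eval_finsetSum]

lemma hR_poly (q : EuclideanSpace ℂ (HIx g)) (x : ℂ) :
    (∑ i : Fin (g - 2), C (q (.inr i)) * X ^ (i : ℕ) : ℂ[X]).eval x = hR q x := by
  simp [hR, eval_finsetSum]

lemma coeff_zero_of_sum {n : ℕ} (a : Fin n → ℂ)
    (h : (∑ i : Fin n, C (a i) * X ^ (i : ℕ) : ℂ[X]) = 0) (i : Fin n) : a i = 0 := by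
  have h1 := congrArg (fun p : ℂ[X] => p.coeff (i : ℕ)) h
  simp only [finsetSum_coeff, coeff_C_mul, coeff_X_pow, coeff_zero] at h1
  rw [Finset.sum_eq_single i] at h1
  · simpa using h1
  · intro j _ hj
    rw [if_neg (fun h => hj (Fin.ext h.symm)), mul_zero]
  · intro h; exact absurd (Finset.mem_univ _) h

/-- Injectivity on a disc on which the square root is defined. -/
lemma inj_disc (t : Fin (2 * g + 2) → ℂ) (ht : Function.Injective t) {c0 : ℂ} {ρ : ℝ}
    (hρ : 0 < ρ) (q : EuclideanSpace ℂ (HIx g))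
    (h : ∀ x ∈ ball c0 ρ, hP q x + hR q x * hs t x = 0) : q = 0 := by
  set P : ℂ[X] := ∑ i : Fin (2 * g - 1), C (q (.inl i)) * X ^ (i : ℕ) with hPd
  set R : ℂ[X] := ∑ i : Fin (g - 2), C (q (.inr i)) * X ^ (i : ℕ) with hRd
  have hinf : Set.Infinite (ball c0 ρ) := infinite_of_mem_nhds c0 (ball_mem_nhds c0 hρ)
  have h1 : P ^ 2 = R ^ 2 * ∏ j, (X - C (t j)) := by
    apply Polynomial.eq_of_infinite_eval_eq
    apply hinf.mono
    intro x hx
    show (P ^ 2).eval x = (R ^ 2 * ∏ j, (X - C (t j))).eval x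
    rw [eval_mul, fpoly_eval, eval_pow, eval_pow, hPd, hRd, hP_poly, hR_poly, ← hs_sq]
    linear_combination (hP q x - hR q x * hs t x) * h x hx
  have hR0 : R = 0 := sq_ne t ht P R h1
  have hP0 : P = 0 := by
    rw [hR0] at h1
    have : P ^ 2 = 0 := by rw [h1]; ring
    exact pow_eq_zero_iff (two_ne_zero) |>.mp this
  ext i
  rcases i with i | i
  · exact coeff_zero_of_sum (fun i => q (.inl i)) hP0 i
  · exact coeff_zero_of_sum (fun i => q (.inr i)) hR0 i

lemma meas_ineq (c0 : ℂ) {ρ : ℝ} (hρ : 0 < ρ) :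
    ENNReal.ofReal (ρ ^ 2) • (volume.restrict (ball (0 : ℂ) 1)).map
      (fun z : ℂ => (c0 + ρ * z, true)) ≤ mm := by
  have hmeas : Measurable (fun z : ℂ => (c0 + ρ * z, true)) := by fun_prop
  apply Measure.le_iff.mpr
  intro A hA
  set At : Set ℂ := {x | (x, true) ∈ A} with hAt
  have hAtm : MeasurableSet At := (measurable_id.prodMk measurable_const) hA
  rw [Measure.smul_apply, smul_eq_mul, Measure.map_apply hmeas hA]
  have h1 : (volume.restrict (ball (0 : ℂ) 1)) ((fun z : ℂ => (c0 + ρ * z, true)) ⁻¹' A) ≤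
      volume ((fun z : ℂ => (c0 + ρ * z, true)) ⁻¹' A) := Measure.restrict_apply_le _ _
  have h2 : (fun z : ℂ => (c0 + ρ * z, true)) ⁻¹' A = (ρ • ·) ⁻¹' ((fun z => c0 + z) ⁻¹' At) := by
    ext z
    simp [hAt]
  have h3 : volume ((fun z : ℂ => (c0 + ρ * z, true)) ⁻¹' A) =
      ENNReal.ofReal ((ρ ^ 2)⁻¹) * volume At := by
    rw [h2, Measure.addHaar_preimage_smul volume hρ.ne', Complex.finrank_real_complex,
      measure_preimage_add, abs_of_nonneg (by positivity)]
  have h4 : volume At ≤ mm A := by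
    have h5 : At ×ˢ {true} ⊆ A := by
      rintro ⟨x, e⟩ ⟨hx, he⟩
      simp only [mem_singleton_iff] at he
      subst he
      exact hx
    have h6 : mm (At ×ˢ {true}) = volume At := by
      unfold mm
      rw [Measure.prod_prod, Measure.count_singleton, mul_one]
    rw [← h6]
    exact measure_mono h5
  calc ENNReal.ofReal (ρ ^ 2) * (volume.restrict (ball (0 : ℂ) 1))
        ((fun z : ℂ => (c0 + ρ * z, true)) ⁻¹' A)
      ≤ ENNReal.ofReal (ρ ^ 2) * (ENNReal.ofReal ((ρ ^ 2)⁻¹) * volume At) := by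
        rw [← h3]
        exact mul_le_mul_right h1 _
    _ = volume At := by
        rw [← mul_assoc, ← ENNReal.ofReal_mul (by positivity), mul_inv_cancel₀ (by positivity),
          ENNReal.ofReal_one, one_mul]
    _ ≤ mm A := h4

/-- The coefficient vector of a polynomial. -/
def qof (g : ℕ) (p : ℂ[X]) : EuclideanSpace ℂ (HIx g) :=
  WithLp.toLp 2 (Sum.elim (fun i => p.coeff (i : ℕ)) (fun _ => 0))

lemma hP_qof (p : ℂ[X]) (hp : p.natDegree < 2 * g - 1) (x : ℂ) :
    hP (qof g p) x = p.eval x := by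
  rw [eval_eq_sum_range' hp x, Finset.sum_range]
  rfl

lemma hR_qof (p : ℂ[X]) (x : ℂ) : hR (qof g p) x = 0 := by
  unfold hR qof
  simp

lemma hyp_disc (t : Fin (2 * g + 2) → ℂ) (ht : Function.Injective t) (hg : 2 ≤ g) {c0 : ℂ}
    {ρ : ℝ} (hρ : 0 < ρ) (hslit : ∀ x ∈ ball c0 ρ, hf t x ∈ Complex.slitPlane) :
    Hyp mm (bs t) (fun z : ℂ => (c0 + ρ * z, true)) (ENNReal.ofReal (ρ ^ 2)) := by
  have hmem : ∀ z ∈ ball (0 : ℂ) 1, c0 + ρ * z ∈ ball c0 ρ := by
    intro z hz
    rw [mem_ball_zero_iff] at hz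
    rw [mem_ball, dist_eq_norm, add_sub_cancel_left, norm_mul, Complex.norm_real,
      Real.norm_of_nonneg hρ.le]
    nlinarith
  have hfd : Differentiable ℂ (hf t) := by
    unfold hf
    fun_prop
  have haff : DifferentiableOn ℂ (fun z : ℂ => c0 + ρ * z) (ball 0 1) := by fun_prop
  have hfd2 : DifferentiableOn ℂ (fun z : ℂ => hf t (c0 + ρ * z)) (ball 0 1) :=
    hfd.comp_differentiableOn haff
  have hne : ∀ z ∈ ball (0 : ℂ) 1, hf t (c0 + ρ * z) ≠ 0 := fun z hz =>
    Complex.slitPlane_ne_zero (hslit _ (hmem z hz))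
  have hsd : DifferentiableOn ℂ (fun z : ℂ => hs t (c0 + ρ * z)) (ball 0 1) := by
    unfold hs
    exact hfd2.cpow (differentiableOn_const _) (fun z hz => hslit _ (hmem z hz))
  refine ⟨bs_int t ht hg, by fun_prop, ?_, ENNReal.ofReal_ne_top, meas_ineq c0 hρ, ?_, ?_⟩
  · rw [Ne, ENNReal.ofReal_eq_zero, not_le]
    positivity
  · rintro (i | i)
    · show DifferentiableOn ℂ (fun z : ℂ => (c0 + ρ * z) ^ (i : ℕ) / hf t (c0 + ρ * z)) (ball 0 1)
      exact (haff.pow _).div hfd2 hne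
    · show DifferentiableOn ℂ (fun z : ℂ => sn true * (c0 + ρ * z) ^ (i : ℕ) *
        hs t (c0 + ρ * z) / hf t (c0 + ρ * z)) (ball 0 1)
      exact ((((differentiableOn_const _).mul (haff.pow _)).mul hsd).div hfd2 hne)
  · intro q hq
    apply inj_disc t ht hρ q
    intro x hx
    have hρ' : (ρ : ℂ) ≠ 0 := by exact_mod_cast hρ.ne'
    have h1 : c0 + ρ * ((x - c0) / ρ) = x := by field_simp; ring
    have h2 : (x - c0) / ρ ∈ ball (0 : ℂ) 1 := by
      rw [mem_ball, dist_eq_norm] at hx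
      rw [mem_ball_zero_iff, norm_div, Complex.norm_real, Real.norm_of_nonneg hρ.le,
        div_lt_one hρ]
      exact hx
    have h3 := hq _ h2
    simp only [h1] at h3
    rw [comb_bs, div_eq_zero_iff] at h3
    rcases h3 with h3 | h3
    · simpa [sn] using h3
    · exact absurd h3 (Complex.slitPlane_ne_zero (hslit x hx))

end Hyp2

open Hyp2 in
/-- Q2 is false on the fibres over all hyperelliptic curves, for every genus `g ≥ 2`: the
Teichmüller norm is not strictly plurisubharmonic on `T_X T_g ∖ 0`. -/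
theorem hyper_not_strict (g : ℕ) (hg : 2 ≤ g) (t : Fin (2 * g + 2) → ℂ)
    (ht : Function.Injective t) : ¬ StrictPshOn (hyperF t) {l | l ≠ 0} := by
  obtain ⟨c0, hc0⟩ := exists_one t
  have hopen : IsOpen (hf t ⁻¹' Complex.slitPlane) :=
    Complex.isOpen_slitPlane.preimage (hf_cont t)
  obtain ⟨ρ, hρ, hball⟩ := Metric.isOpen_iff.mp hopen c0 (by
    show hf t c0 ∈ Complex.slitPlane
    rw [hc0]; exact Complex.one_mem_slitPlane)
  have H := hyp_disc t ht hg hρ hball
  rw [← dnrm_bs t ht hg]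
  have hd2 : ((X - C c0) ^ 2 : ℂ[X]).natDegree < 2 * g - 1 := by
    rw [natDegree_pow, natDegree_X_sub_C]; omega
  have hd0 : (1 : ℂ[X]).natDegree < 2 * g - 1 := by
    rw [natDegree_one]; omega
  have hval : ∀ z : ℂ, comb (bs t) (qof g ((X - C c0) ^ 2)) (c0 + ρ * z, true) =
      z * (z * (ρ ^ 2 / hf t (c0 + ρ * z))) := by
    intro z
    rw [comb_bs, hP_qof _ hd2, hR_qof]
    simp only [eval_pow, eval_sub, eval_X, eval_C]
    ring
  apply not_strict H (q0 := qof g ((X - C c0) ^ 2)) (q1 := qof g 1)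
  · intro h
    have h1 := hP_qof (g := g) _ hd2 (c0 + 1)
    rw [h] at h1
    simp [hP] at h1
  · rw [hval]; ring
  · have h1 : (fun z : ℂ => comb (bs t) (qof g ((X - C c0) ^ 2)) (c0 + ρ * z, true)) =
        fun z => z * (z * (ρ ^ 2 / hf t (c0 + ρ * z))) := funext hval
    rw [h1]
    have hfd : Differentiable ℂ (hf t) := by
      unfold hf
      fun_prop
    have h2 : DifferentiableAt ℂ (fun z : ℂ => z * ((ρ : ℂ) ^ 2 / hf t (c0 + ρ * z))) 0 := by
      apply differentiableAt_id.mul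
      apply DifferentiableAt.div (differentiableAt_const _)
      · exact (hfd _).comp (0 : ℂ) (by fun_prop)
      · rw [mul_zero, add_zero, hc0]; exact one_ne_zero
    have h3 := (hasDerivAt_id' (0 : ℂ)).fun_mul h2.hasDerivAt
    rw [h3.deriv]
    ring
  · show comb (bs t) (qof g 1) (c0 + ρ * 0, true) ≠ 0
    rw [comb_bs, hP_qof _ hd0, hR_qof, mul_zero, add_zero, hc0]
    simp

end

end Pool.Agent.TNQ
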