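import Pool.Agent.TNQ.Defs
import Pool.Agent.TNQ.Basic

/-!
# The dual `L¹` norm is not strictly plurisubharmonic: the general theorem
-/

open scoped BigOperators Topology ENNReal ComplexConjugate
open Metric Set MeasureTheory Filter

namespace Pool.Agent.TNQ

noncomputable section

set_option linter.unusedSectionVars false

variable {Ω ι : Type*} [Fintype ι] [MeasurableSpace Ω] {m : Measure Ω} {b : ι → Ω → ℂ}

/-! ## Linear algebra -/

lemma comb_add (q q' : EuclideanSpace ℂ ι) (x : Ω) :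
    comb b (q + q') x = comb b q x + comb b q' x := by
  simp [comb, add_mul, Finset.sum_add_distrib]

lemma comb_smul (c : ℂ) (q : EuclideanSpace ℂ ι) (x : Ω) :
    comb b (c • q) x = c * comb b q x := by
  simp [comb, Finset.mul_sum, mul_assoc]

lemma comb_rsmul (c : ℝ) (q : EuclideanSpace ℂ ι) (x : Ω) :
    comb b (c • q) x = c * comb b q x := by
  simp [comb, Finset.mul_sum, mul_assoc]

lemma comb_sub (q q' : EuclideanSpace ℂ ι) (x : Ω) :
    comb b (q - q') x = comb b q x - comb b q' x := by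
  simp [comb, sub_mul, Finset.sum_sub_distrib]

lemma comb_int (hb : ∀ i, Integrable (b i) m) (q : EuclideanSpace ℂ ι) :
    Integrable (comb b q) m := by
  unfold comb
  exact integrable_finsetSum _ (fun i _ => (hb i).const_mul _)

lemma nrm_add_le (hb : ∀ i, Integrable (b i) m) (q q' : EuclideanSpace ℂ ι) :
    nrm m b (q + q') ≤ nrm m b q + nrm m b q' := by
  unfold nrm
  rw [← integral_add (comb_int hb q).norm (comb_int hb q').norm]
  apply integral_mono (comb_int hb _).norm ((comb_int hb q).norm.add (comb_int hb q').norm)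
  intro x
  simp only [comb_add]
  exact norm_add_le _ _

lemma nrm_smul (c : ℂ) (q : EuclideanSpace ℂ ι) : nrm m b (c • q) = ‖c‖ * nrm m b q := by
  unfold nrm
  rw [← integral_const_mul]
  congr 1
  funext x
  rw [comb_smul, norm_mul]

lemma nrm_nonneg (q : EuclideanSpace ℂ ι) : 0 ≤ nrm m b q :=
  integral_nonneg (fun _ => norm_nonneg _)

lemma coord_le (q : EuclideanSpace ℂ ι) (i : ι) : ‖q i‖ ≤ ‖q‖ := PiLp.norm_apply_le q i

lemma nrm_le (hb : ∀ i, Integrable (b i) m) (q : EuclideanSpace ℂ ι) :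
    nrm m b q ≤ (∑ i, ∫ x, ‖b i x‖ ∂m) * ‖q‖ := by
  unfold nrm
  have h1 : ∫ x, ‖comb b q x‖ ∂m ≤ ∫ x, ∑ i, ‖q i‖ * ‖b i x‖ ∂m := by
    apply integral_mono (comb_int hb q).norm
      (integrable_finsetSum _ (fun i _ => (hb i).norm.const_mul _))
    intro x
    simp only [comb]
    refine (norm_sum_le _ _).trans (le_of_eq ?_)
    simp
  refine h1.trans ?_
  rw [integral_finsetSum _ (fun i _ => (hb i).norm.const_mul _), Finset.sum_mul]
  apply Finset.sum_le_sum
  intro i _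
  rw [integral_const_mul, mul_comm]
  exact mul_le_mul_of_nonneg_left (coord_le q i) (integral_nonneg (fun _ => norm_nonneg _))

lemma nrm_cont (hb : ∀ i, Integrable (b i) m) : Continuous (nrm m b) := by
  set C := ∑ i, ∫ x, ‖b i x‖ ∂m
  have hC : 0 ≤ C := Finset.sum_nonneg (fun i _ => integral_nonneg (fun _ => norm_nonneg _))
  apply LipschitzWith.continuous (K := ⟨C, hC⟩)
  apply LipschitzWith.of_le_add_mul
  intro x y
  have h1 : nrm m b x ≤ nrm m b y + nrm m b (x - y) := by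
    have := nrm_add_le hb y (x - y)
    simpa using this
  have h2 := nrm_le hb (x - y)
  rw [dist_eq_norm]
  exact h1.trans (add_le_add le_rfl h2)

lemma pair_le (l q : EuclideanSpace ℂ ι) : ‖∑ i, l i * q i‖ ≤ Fintype.card ι * ‖l‖ * ‖q‖ := by
  refine (norm_sum_le _ _).trans ?_
  have : ∀ i ∈ Finset.univ, ‖l i * q i‖ ≤ ‖l‖ * ‖q‖ := by
    intro i _
    rw [norm_mul]
    exact mul_le_mul (coord_le l i) (coord_le q i) (norm_nonneg _) (norm_nonneg _)
  refine (Finset.sum_le_card_nsmul _ _ _ this).trans (le_of_eq ?_)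
  simp [mul_assoc]

/-! ## The general theorem -/

/-- The hypotheses of the general theorem. -/
structure Hyp (m : Measure Ω) (b : ι → Ω → ℂ) (γ : ℂ → Ω) (c : ℝ≥0∞) : Prop where
  int : ∀ i, Integrable (b i) m
  meas : Measurable γ
  c0 : c ≠ 0
  ctop : c ≠ ∞
  disc : c • (volume.restrict (ball (0 : ℂ) 1)).map γ ≤ m
  hol : ∀ i, DifferentiableOn ℂ (fun z => b i (γ z)) (ball 0 1)
  inj : ∀ q : EuclideanSpace ℂ ι, (∀ z ∈ ball (0 : ℂ) 1, comb b q (γ z) = 0) → q = 0

variable {γ : ℂ → Ω} {c : ℝ≥0∞}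

lemma Hyp.hol_comb (H : Hyp m b γ c) (q : EuclideanSpace ℂ ι) :
    DifferentiableOn ℂ (fun z => comb b q (γ z)) (ball 0 1) := by
  unfold comb
  exact DifferentiableOn.fun_sum (fun i _ => (H.hol i).const_mul _)

lemma Hyp.ae_ball (H : Hyp m b γ c) {p : Ω → Prop} (h : ∀ᵐ x ∂m, p x) :
    ∀ᵐ z ∂(volume.restrict (ball (0 : ℂ) 1)), p (γ z) := by
  have h1 : ∀ᵐ x ∂(c • (volume.restrict (ball (0 : ℂ) 1)).map γ), p x := H.disc.absolutelyContinuous.ae_le h
  have h2 : ∀ᵐ x ∂((volume.restrict (ball (0 : ℂ) 1)).map γ), p x := by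
    rw [ae_iff] at h1 ⊢
    rw [Measure.smul_apply, smul_eq_mul, mul_eq_zero] at h1
    exact h1.resolve_left H.c0
  exact ae_of_ae_map H.meas.aemeasurable h2

lemma Hyp.lint (H : Hyp m b γ c) {f : Ω → ℝ≥0∞} (hf : AEMeasurable f m) :
    c * ∫⁻ z in ball (0 : ℂ) 1, f (γ z) ≤ ∫⁻ x, f x ∂m := by
  have hac : (volume.restrict (ball (0 : ℂ) 1)).map γ ≪ m := by
    intro s hs
    have h1 : (c • (volume.restrict (ball (0 : ℂ) 1)).map γ) s ≤ m s := H.disc s
    rw [hs, nonpos_iff_eq_zero, Measure.smul_apply, smul_eq_mul, mul_eq_zero] at h1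
    exact h1.resolve_left H.c0
  have h2 : ∫⁻ x, f x ∂((volume.restrict (ball (0 : ℂ) 1)).map γ) =
      ∫⁻ z in ball (0 : ℂ) 1, f (γ z) :=
    lintegral_map' (hf.mono_ac hac) H.meas.aemeasurable
  rw [← h2, ← smul_eq_mul, ← lintegral_smul_measure]
  exact lintegral_mono' H.disc le_rfl

lemma Hyp.definite (H : Hyp m b γ c) {q : EuclideanSpace ℂ ι} (hq : nrm m b q = 0) : q = 0 := by
  unfold nrm at hq
  rw [integral_eq_zero_iff_of_nonneg (fun _ => norm_nonneg _) (comb_int H.int q).norm] at hq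
  have h1 : ∀ᵐ z ∂(volume.restrict (ball (0 : ℂ) 1)), comb b q (γ z) = 0 := by
    apply H.ae_ball (p := fun x => comb b q x = 0)
    filter_upwards [hq] with x hx
    simpa using hx
  apply H.inj
  by_contra hcon
  push Not at hcon
  obtain ⟨z, hz, hz2⟩ := hcon
  have hopen : IsOpen (ball (0 : ℂ) 1 ∩ (fun z => comb b q (γ z)) ⁻¹' {0}ᶜ) :=
    (H.hol_comb q).continuousOn.isOpen_inter_preimage isOpen_ball isOpen_compl_singleton
  have hpos := hopen.measure_pos volume ⟨z, hz, hz2⟩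
  rw [ae_restrict_iff' measurableSet_ball] at h1
  have : volume (ball (0 : ℂ) 1 ∩ (fun z => comb b q (γ z)) ⁻¹' {0}ᶜ) = 0 := by
    refine measure_mono_null ?_ h1
    rintro w ⟨hw1, hw2⟩ hw3
    exact hw2 (hw3 hw1)
  rw [this] at hpos
  exact lt_irrefl _ hpos

lemma Hyp.lower (H : Hyp m b γ c) : ∃ a : ℝ, 0 < a ∧ ∀ q : EuclideanSpace ℂ ι,
    a * ‖q‖ ≤ nrm m b q := by
  by_cases hne : (sphere (0 : EuclideanSpace ℂ ι) 1).Nonempty
  · obtain ⟨q1, hq1, hmin⟩ := (isCompact_sphere (0 : EuclideanSpace ℂ ι) 1).exists_isMinOn hne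
      (nrm_cont H.int).continuousOn
    have hpos : 0 < nrm m b q1 := by
      rcases (nrm_nonneg (m := m) (b := b) q1).eq_or_lt with h | h
      · exfalso
        have := H.definite h.symm
        rw [this] at hq1
        simp at hq1
      · exact h
    refine ⟨nrm m b q1, hpos, ?_⟩
    intro q
    by_cases hq : q = 0
    · subst hq; simp [nrm_nonneg]
    have hqn : 0 < ‖q‖ := norm_pos_iff.mpr hq
    have h1 : ((‖q‖⁻¹ : ℝ) : ℂ) • q ∈ sphere (0 : EuclideanSpace ℂ ι) 1 := by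
      rw [mem_sphere_zero_iff_norm, norm_smul, Complex.norm_real, norm_inv, norm_norm,
        inv_mul_cancel₀ hqn.ne']
    have h2 := isMinOn_iff.mp hmin _ h1
    rw [nrm_smul, Complex.norm_real, norm_inv, norm_norm] at h2
    calc nrm m b q1 * ‖q‖ ≤ (‖q‖⁻¹ * nrm m b q) * ‖q‖ := mul_le_mul_of_nonneg_right h2 hqn.le
      _ = nrm m b q := by field_simp
  · refine ⟨1, one_pos, ?_⟩
    intro q
    by_cases hq : q = 0
    · subst hq; simp [nrm_nonneg]
    exfalso
    apply hne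
    have hqn : 0 < ‖q‖ := norm_pos_iff.mpr hq
    refine ⟨((‖q‖⁻¹ : ℝ) : ℂ) • q, ?_⟩
    rw [mem_sphere_zero_iff_norm, norm_smul, Complex.norm_real, norm_inv, norm_norm,
        inv_mul_cancel₀ hqn.ne']

/-! ## The norming functional -/

/-- The sign. -/
def sg (w : ℂ) : ℂ := w / (‖w‖ : ℂ)

lemma sg_norm_le (w : ℂ) : ‖sg w‖ ≤ 1 := by
  unfold sg
  rw [norm_div, Complex.norm_real, norm_norm]
  exact div_self_le_one _

lemma sg_meas : Measurable sg := by
  unfold sg
  exact measurable_id.div (Complex.measurable_ofReal.comp measurable_norm)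

lemma mul_conj_sg (w : ℂ) : w * conj (sg w) = (‖w‖ : ℂ) := by
  unfold sg
  by_cases hw : w = 0
  · subst hw; simp
  have hn : (‖w‖ : ℂ) ≠ 0 := by exact_mod_cast (norm_pos_iff.mpr hw).ne'
  rw [map_div₀, Complex.conj_ofReal, ← mul_div_assoc, Complex.mul_conj, Complex.normSq_eq_norm_sq]
  push_cast
  field_simp

/-- The gap function at `w` relative to `w0`. -/
def G (w w0 : ℂ) : ℝ := ‖w‖ - (w * conj (sg w0)).re

lemma G_nonneg (w w0 : ℂ) : 0 ≤ G w w0 := by
  unfold G
  have h1 : (w * conj (sg w0)).re ≤ ‖w * conj (sg w0)‖ := Complex.re_le_norm _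
  have h2 : ‖w * conj (sg w0)‖ ≤ ‖w‖ := by
    rw [norm_mul, RCLike.norm_conj]
    exact mul_le_of_le_one_right (norm_nonneg _) (sg_norm_le _)
  linarith

lemma im_of_G_zero {w w0 : ℂ} (h : G w w0 = 0) : (w * conj w0).im = 0 := by
  by_cases hw0 : w0 = 0
  · subst hw0; simp
  have hn : 0 < ‖w0‖ := norm_pos_iff.mpr hw0
  have hn' : (‖w0‖ : ℂ) ≠ 0 := by exact_mod_cast hn.ne'
  have hs : w0 = ‖w0‖ * sg w0 := by
    unfold sg; field_simp
  have h1 : ‖sg w0‖ = 1 := by
    unfold sg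
    rw [norm_div, Complex.norm_real, norm_norm, div_self hn.ne']
  have h2 : ‖w * conj (sg w0)‖ = ‖w‖ := by
    rw [norm_mul, RCLike.norm_conj, h1, mul_one]
  have h3 : (w * conj (sg w0)).re = ‖w * conj (sg w0)‖ := by
    unfold G at h
    rw [h2]; linarith
  have h4 : (w * conj (sg w0)).im = 0 := by
    have h5 := Complex.sq_norm (w * conj (sg w0))
    rw [Complex.normSq_apply] at h5
    rw [← h3] at h5
    nlinarith
  have h6 : w * conj w0 = (‖w0‖ : ℂ) * (w * conj (sg w0)) := by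
    conv_lhs => rw [hs]
    rw [map_mul, Complex.conj_ofReal]; ring
  rw [h6, Complex.im_ofReal_mul, h4, mul_zero]

/-- The limit of the second difference quotient of the gap. -/
lemma G_tendsto {w0 β : ℂ} (hw0 : w0 ≠ 0) {lam s : ℕ → ℝ} {β' : ℕ → ℂ}
    (hl : Tendsto lam atTop (𝓝 1)) (hs : Tendsto s atTop (𝓝 0)) (hs0 : ∀ n, 0 < s n)
    (hβ : Tendsto β' atTop (𝓝 β)) :
    Tendsto (fun n => G (lam n * w0 + s n * β' n) w0 / s n ^ 2) atTop
      (𝓝 ((β * conj w0).im ^ 2 / (2 * ‖w0‖ ^ 3))) := by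
  have hn : 0 < ‖w0‖ := norm_pos_iff.mpr hw0
  have hn' : (‖w0‖ : ℂ) ≠ 0 := by exact_mod_cast hn.ne'
  set v : ℕ → ℂ := fun n => (lam n * w0 + s n * β' n) * conj (sg w0) with hv
  have hv2 : ∀ n, v n = ((lam n * ‖w0‖ : ℝ) : ℂ) + s n * (β' n * conj (sg w0)) := by
    intro n
    rw [hv]
    simp only
    rw [add_mul, mul_assoc, mul_conj_sg]
    push_cast
    ring
  have h1 : ‖sg w0‖ = 1 := by
    unfold sg
    rw [norm_div, Complex.norm_real, norm_norm, div_self hn.ne']
  have hnorm : ∀ n, ‖lam n * w0 + s n * β' n‖ = ‖v n‖ := by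
    intro n
    rw [hv]
    simp only
    rw [norm_mul, RCLike.norm_conj, h1, mul_one]
  have hvlim : Tendsto v atTop (𝓝 ((‖w0‖ : ℝ) : ℂ)) := by
    have h2 : Tendsto (fun n => ((lam n * ‖w0‖ : ℝ) : ℂ) + s n * (β' n * conj (sg w0))) atTop
        (𝓝 (((1 * ‖w0‖ : ℝ) : ℂ) + ((0 : ℝ) : ℂ) * (β * conj (sg w0)))) := by
      apply Tendsto.add
      · exact (Complex.continuous_ofReal.tendsto _).comp (hl.mul_const _)
      · exact ((Complex.continuous_ofReal.tendsto _).comp hs).mul (hβ.mul_const _)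
    simp only [one_mul, Complex.ofReal_zero, zero_mul, add_zero] at h2
    exact h2.congr (fun n => (hv2 n).symm)
  have hden : Tendsto (fun n => ‖v n‖ + (v n).re) atTop (𝓝 (2 * ‖w0‖)) := by
    have h3 := hvlim.norm.add ((Complex.continuous_re.tendsto _).comp hvlim)
    rw [Complex.norm_real, norm_norm, Complex.ofReal_re] at h3
    rw [two_mul]
    exact h3
  have hnum : Tendsto (fun n => (β' n * conj (sg w0)).im ^ 2) atTop
      (𝓝 ((β * conj (sg w0)).im ^ 2)) :=
    (((Complex.continuous_im.tendsto _).comp (hβ.mul_const _)).pow 2)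
  have hlim := hnum.div hden (by positivity)
  have htarget : (β * conj (sg w0)).im ^ 2 / (2 * ‖w0‖) =
      (β * conj w0).im ^ 2 / (2 * ‖w0‖ ^ 3) := by
    have h4 : β * conj (sg w0) = ((‖w0‖⁻¹ : ℝ) : ℂ) * (β * conj w0) := by
      unfold sg
      rw [map_div₀, Complex.conj_ofReal]
      push_cast
      field_simp
    rw [h4, Complex.im_ofReal_mul]
    field_simp
  rw [htarget] at hlim
  apply hlim.congr'
  have hev : ∀ᶠ n in atTop, 0 < ‖v n‖ + (v n).re :=
    hden.eventually_const_lt (by positivity)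
  filter_upwards [hev] with n hn2
  have him : (v n).im = s n * (β' n * conj (sg w0)).im := by
    rw [hv2, Complex.add_im, Complex.ofReal_im, Complex.im_ofReal_mul, zero_add]
  have h5 : ‖v n‖ ^ 2 = (v n).re ^ 2 + (v n).im ^ 2 := by
    rw [Complex.sq_norm, Complex.normSq_apply]; ring
  have h6 : G (lam n * w0 + s n * β' n) w0 = ‖v n‖ - (v n).re := by
    unfold G
    rw [hnorm]
  have h7 : (‖v n‖ - (v n).re) * (‖v n‖ + (v n).re) = s n ^ 2 * (β' n * conj (sg w0)).im ^ 2 := by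
    rw [him] at h5
    linear_combination h5
  have hsn := hs0 n
  rw [h6, eq_comm]
  show (‖v n‖ - (v n).re) / s n ^ 2 = (β' n * conj (sg w0)).im ^ 2 / (‖v n‖ + (v n).re)
  rw [div_eq_div_iff (by positivity) hn2.ne', h7]
  ring

end

end Pool.Agent.TNQ
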