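import Pool.Agent.TNQ.Main

/-!
# The dual `L¹` norm is not strictly plurisubharmonic: the general theorem, second part
-/

open scoped BigOperators Topology ENNReal ComplexConjugate
open Metric Set MeasureTheory Filter

namespace Pool.Agent.TNQ

noncomputable section

set_option linter.unusedSectionVars false

variable {Ω ι : Type*} [Fintype ι] [MeasurableSpace Ω] {m : Measure Ω} {b : ι → Ω → ℂ}
variable {γ : ℂ → Ω} {c : ℝ≥0∞}

lemma nrm_rsmul (t : ℝ) (q : EuclideanSpace ℂ ι) : nrm m b (t • q) = |t| * nrm m b q := by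
  have h : t • q = ((t : ℝ) : ℂ) • q := by
    ext i; simp
  rw [h, nrm_smul, Complex.norm_real, Real.norm_eq_abs]

lemma sg_aesm (hb : ∀ i, Integrable (b i) m) (q0 : EuclideanSpace ℂ ι) :
    AEStronglyMeasurable (fun x => conj (sg (comb b q0 x))) m := by
  apply AEMeasurable.aestronglyMeasurable
  exact (Complex.continuous_conj.measurable.comp sg_meas).comp_aemeasurable
    (comb_int hb q0).aestronglyMeasurable.aemeasurable

lemma mul_sg_int (hb : ∀ i, Integrable (b i) m) (q0 : EuclideanSpace ℂ ι) {f : Ω → ℂ}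
    (hf : Integrable f m) : Integrable (fun x => f x * conj (sg (comb b q0 x))) m := by
  apply hf.mul_bdd (c := 1) (sg_aesm hb q0)
  filter_upwards with x
  rw [RCLike.norm_conj]
  exact sg_norm_le _

/-- The norming functional of `q0`, in coordinates. -/
def nf (m : Measure Ω) (b : ι → Ω → ℂ) (q0 : EuclideanSpace ℂ ι) : EuclideanSpace ℂ ι :=
  WithLp.toLp 2 (fun i => ∫ x, b i x * conj (sg (comb b q0 x)) ∂m)

lemma nf_apply (hb : ∀ i, Integrable (b i) m) (q0 q : EuclideanSpace ℂ ι) :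
    ∑ i, nf m b q0 i * q i = ∫ x, comb b q x * conj (sg (comb b q0 x)) ∂m := by
  unfold nf comb
  simp only [Finset.sum_mul]
  rw [integral_finsetSum]
  · apply Finset.sum_congr rfl
    intro i _
    rw [mul_comm, ← integral_const_mul]
    congr 1
    funext x
    ring
  · intro i _
    have h1 := (mul_sg_int hb q0 (hb i)).const_mul (q i)
    refine h1.congr ?_
    filter_upwards with x
    simp only [comb]
    ring

/-- The gap. -/
def gap (m : Measure Ω) (b : ι → Ω → ℂ) (q0 q : EuclideanSpace ℂ ι) : ℝ :=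
  nrm m b q - (∑ i, nf m b q0 i * q i).re

lemma gap_eq (hb : ∀ i, Integrable (b i) m) (q0 q : EuclideanSpace ℂ ι) :
    gap m b q0 q = ∫ x, G (comb b q x) (comb b q0 x) ∂m := by
  unfold gap G nrm
  rw [nf_apply hb]
  have h1 := mul_sg_int hb q0 (comb_int hb q)
  have h2 : (∫ x, comb b q x * conj (sg (comb b q0 x)) ∂m).re =
      ∫ x, (comb b q x * conj (sg (comb b q0 x))).re ∂m := by
    have := integral_re h1
    simpa using this.symm
  rw [h2, ← integral_sub (comb_int hb q).norm]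
  exact h1.re

lemma G_int (hb : ∀ i, Integrable (b i) m) (q0 q : EuclideanSpace ℂ ι) :
    Integrable (fun x => G (comb b q x) (comb b q0 x)) m := by
  unfold G
  exact (comb_int hb q).norm.sub (mul_sg_int hb q0 (comb_int hb q)).re

lemma gap_nonneg (hb : ∀ i, Integrable (b i) m) (q0 q : EuclideanSpace ℂ ι) :
    0 ≤ gap m b q0 q := by
  rw [gap_eq hb]
  exact integral_nonneg (fun _ => G_nonneg _ _)

lemma gap_self (hb : ∀ i, Integrable (b i) m) (q0 : EuclideanSpace ℂ ι) :
    ∑ i, nf m b q0 i * q0 i = (nrm m b q0 : ℂ) := by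
  rw [nf_apply hb]
  simp only [mul_conj_sg]
  unfold nrm
  exact integral_ofReal

lemma gap_cont (hb : ∀ i, Integrable (b i) m) (q0 : EuclideanSpace ℂ ι) :
    Continuous (gap m b q0) := by
  unfold gap
  apply (nrm_cont hb).sub
  apply Complex.continuous_re.comp
  apply continuous_finsetSum
  intro i _
  exact continuous_const.mul (EuclideanSpace.proj (𝕜 := ℂ) i).continuous

lemma gap_ball (H : Hyp m b γ c) (q0 q : EuclideanSpace ℂ ι) :
    c * ∫⁻ z in ball (0 : ℂ) 1, ENNReal.ofReal (G (comb b q (γ z)) (comb b q0 (γ z))) ≤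
      ENNReal.ofReal (gap m b q0 q) := by
  have h1 := H.lint (f := fun x => ENNReal.ofReal (G (comb b q x) (comb b q0 x)))
    (G_int H.int q0 q).aestronglyMeasurable.aemeasurable.ennreal_ofReal
  refine h1.trans (le_of_eq ?_)
  rw [gap_eq H.int, ofReal_integral_eq_lintegral_ofReal (G_int H.int q0 q)]
  filter_upwards with x
  exact G_nonneg _ _

lemma comb_cont (x : Ω) : Continuous (fun q : EuclideanSpace ℂ ι => comb b q x) := by
  unfold comb
  apply continuous_finsetSum
  intro i _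
  exact (EuclideanSpace.proj (𝕜 := ℂ) i).continuous.mul continuous_const

/-- The central estimate. -/
lemma claimG (H : Hyp m b γ c) {q0 : EuclideanSpace ℂ ι} (hq0 : nrm m b q0 = 1)
    (h00 : comb b q0 (γ 0) = 0) (h01 : deriv (fun z => comb b q0 (γ z)) 0 = 0) (M : ℝ) :
    ∃ κ : ℝ, 0 < κ ∧ ∀ q : EuclideanSpace ℂ ι, nrm m b q = 1 →
      M * ‖comb b q (γ 0)‖ ^ 2 ≤ gap m b q0 q ∨ κ ≤ gap m b q0 q := by
  by_contra hcon
  push Not at hcon
  have hq00 : q0 ≠ 0 := by
    rintro rfl
    have : nrm m b (0 : EuclideanSpace ℂ ι) = 0 := by simp [nrm, comb]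
    rw [this] at hq0
    exact zero_ne_one hq0
  have hne : ∃ z ∈ ball (0 : ℂ) 1, comb b q0 (γ z) ≠ 0 := by
    by_contra hc
    push Not at hc
    exact hq00 (H.inj q0 hc)
  choose! q hq1 hq2 hq3 using fun n : ℕ => hcon (1 / ((n : ℝ) + 1)) (by positivity)
  -- compactness
  obtain ⟨a, ha, hlow⟩ := H.lower
  have hK : IsCompact {q : EuclideanSpace ℂ ι | nrm m b q = 1} := by
    apply Metric.isCompact_of_isClosed_isBounded
    · exact isClosed_eq (nrm_cont H.int) continuous_const
    · apply (isBounded_closedBall (x := (0 : EuclideanSpace ℂ ι)) (r := 1 / a)).subset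
      intro p hp
      rw [mem_closedBall_zero_iff, le_div_iff₀ ha, mul_comm]
      have : nrm m b p = 1 := hp
      rw [← this]
      exact hlow p
  obtain ⟨qs, hqs, φ, hφ, hlim⟩ := hK.tendsto_subseq (fun n => hq1 n)
  have hgap0 : gap m b q0 qs = 0 := by
    have h1 : Tendsto (fun n => gap m b q0 (q (φ n))) atTop (𝓝 (gap m b q0 qs)) :=
      ((gap_cont H.int q0).tendsto qs).comp hlim
    have h2 : Tendsto (fun n => gap m b q0 (q (φ n))) atTop (𝓝 0) := by
      apply squeeze_zero (fun n => gap_nonneg H.int q0 _) (fun n => (hq3 (φ n)).le)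
      exact tendsto_one_div_add_atTop_nhds_zero_nat.comp hφ.tendsto_atTop
    exact tendsto_nhds_unique h1 h2
  -- equality case
  have hG0 : ∀ᵐ z ∂(volume.restrict (ball (0 : ℂ) 1)),
      (comb b qs (γ z) * conj (comb b q0 (γ z))).im = 0 := by
    rw [gap_eq H.int, integral_eq_zero_iff_of_nonneg (fun _ => G_nonneg _ _)
      (G_int H.int q0 qs)] at hgap0
    have := H.ae_ball (p := fun x => G (comb b qs x) (comb b q0 x) = 0) (by
      filter_upwards [hgap0] with x hx
      simpa using hx)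
    filter_upwards [this] with z hz
    exact im_of_G_zero hz
  have hqs0 : qs = q0 := by
    obtain ⟨t, ht⟩ := real_mult (H.hol_comb qs) (H.hol_comb q0) hne hG0
    have h1 : qs - t • q0 = 0 := by
      apply H.inj
      intro z hz
      rw [comb_sub, comb_rsmul, ht z hz, sub_self]
    have h2 : qs = t • q0 := sub_eq_zero.mp h1
    have h3 : nrm m b qs = 1 := hqs
    rw [h2, nrm_rsmul, hq0, mul_one] at h3
    have h4 : ∑ i, nf m b q0 i * (t • q0) i = (t : ℂ) := by
      have h5 : ∑ i, nf m b q0 i * (t • q0) i = t * ∑ i, nf m b q0 i * q0 i := by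
        rw [Finset.mul_sum]
        apply Finset.sum_congr rfl
        intro i _
        simp
        ring
      rw [h5, gap_self H.int, hq0]
      simp
    unfold gap at hgap0
    rw [h2, h4, nrm_rsmul, hq0, mul_one, Complex.ofReal_re, h3] at hgap0
    have : t = 1 := by linarith
    rw [h2, this, one_smul]
  rw [hqs0] at hlim
  -- decomposition
  set N0 : ℝ := ‖q0‖ ^ 2 with hN0
  have hN0pos : 0 < N0 := by
    have := norm_pos_iff.mpr hq00
    positivity
  set lam : ℕ → ℝ := fun n => (inner ℂ q0 (q (φ n))).re / N0 with hlam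
  set e : ℕ → EuclideanSpace ℂ ι := fun n => q (φ n) - lam n • q0 with he
  have hinner0 : (inner ℂ q0 q0).re = N0 := by
    rw [inner_self_eq_norm_sq_to_K]
    norm_cast
  have hlam1 : Tendsto lam atTop (𝓝 1) := by
    have h1 : Tendsto (fun n => (inner ℂ q0 (q (φ n))).re / N0) atTop
        (𝓝 ((inner ℂ q0 q0).re / N0)) := by
      apply Tendsto.div_const
      exact (Complex.continuous_re.tendsto _).comp
        (((continuous_const.inner continuous_id).tendsto q0).comp hlim)
    rw [hinner0, div_self hN0pos.ne'] at h1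
    exact h1
  have he0 : Tendsto e atTop (𝓝 0) := by
    have h1 : Tendsto (fun n => q (φ n) - lam n • q0) atTop (𝓝 (q0 - (1 : ℝ) • q0)) :=
      hlim.sub (hlam1.smul_const q0)
    rw [one_smul, sub_self] at h1
    exact h1
  have heorth : ∀ n, (inner ℂ q0 (e n)).re = 0 := by
    intro n
    rw [he]
    simp only
    rw [inner_sub_right, inner_smul_right_eq_smul, Complex.sub_re, Complex.real_smul,
      Complex.re_ofReal_mul, hinner0, hlam]
    field_simp
    ring
  have hδe : ∀ n, comb b (q (φ n)) (γ 0) = comb b (e n) (γ 0) := by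
    intro n
    rw [he]
    simp only
    rw [comb_sub, comb_rsmul, h00]; simp
  have hene : ∀ n, e n ≠ 0 := by
    intro n h
    have h1 := hq2 (φ n)
    rw [hδe n, h] at h1
    have h2 := gap_nonneg H.int q0 (q (φ n))
    have h3 : comb b (0 : EuclideanSpace ℂ ι) (γ 0) = 0 := by simp [comb]
    rw [h3] at h1
    simp at h1
    linarith
  set s : ℕ → ℝ := fun n => ‖e n‖ with hs
  have hspos : ∀ n, 0 < s n := fun n => norm_pos_iff.mpr (hene n)
  have hs0 : Tendsto s atTop (𝓝 0) := by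
    have := he0.norm
    rwa [norm_zero] at this
  set eh : ℕ → EuclideanSpace ℂ ι := fun n => (s n)⁻¹ • e n with heh
  have hehs : ∀ n, eh n ∈ sphere (0 : EuclideanSpace ℂ ι) 1 := by
    intro n
    rw [mem_sphere_zero_iff_norm, heh]
    simp only
    rw [norm_smul, norm_inv, Real.norm_of_nonneg (hspos n).le]
    exact inv_mul_cancel₀ (hspos n).ne'
  obtain ⟨es, hes, ψ, hψ, hlim2⟩ := (isCompact_sphere (0 : EuclideanSpace ℂ ι) 1).tendsto_subseq hehs
  have hesn : ‖es‖ = 1 := by simpa using hes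
  have hesorth : (inner ℂ q0 es).re = 0 := by
    have h1 : Tendsto (fun n => (inner ℂ q0 (eh (ψ n))).re) atTop (𝓝 ((inner ℂ q0 es).re)) :=
      (Complex.continuous_re.tendsto _).comp
        (((continuous_const.inner continuous_id).tendsto es).comp hlim2)
    have h2 : ∀ n, (inner ℂ q0 (eh n)).re = 0 := by
      intro n
      rw [heh]
      simp only
      rw [inner_smul_right_eq_smul, Complex.real_smul, Complex.re_ofReal_mul, heorth n, mul_zero]
    simp only [h2] at h1
    exact tendsto_nhds_unique tendsto_const_nhds h1 |>.symm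
  -- the pointwise limit
  have hqdec : ∀ n (x : Ω), comb b (q (φ n)) x = lam n * comb b q0 x + s n * comb b (eh n) x := by
    intro n x
    have h1 : q (φ n) = lam n • q0 + s n • eh n := by
      rw [heh]
      simp only
      rw [smul_smul, mul_inv_cancel₀ (hspos n).ne', one_smul, he]
      simp
    rw [h1, comb_add, comb_rsmul, comb_rsmul]
  have hpt : ∀ z, comb b q0 (γ z) ≠ 0 → Tendsto (fun n =>
      G (comb b (q (φ (ψ n))) (γ z)) (comb b q0 (γ z)) / s (ψ n) ^ 2) atTop
      (𝓝 ((comb b es (γ z) * conj (comb b q0 (γ z))).im ^ 2 / (2 * ‖comb b q0 (γ z)‖ ^ 3))) := by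
    intro z hz
    have h1 := G_tendsto (β := comb b es (γ z)) hz (lam := fun n => lam (ψ n))
      (s := fun n => s (ψ n)) (β' := fun n => comb b (eh (ψ n)) (γ z))
      (hlam1.comp hψ.tendsto_atTop) (hs0.comp hψ.tendsto_atTop) (fun n => hspos _)
      (((comb_cont (b := b) (γ z)).tendsto es).comp hlim2)
    refine h1.congr (fun n => ?_)
    rw [hqdec]
  -- upper bound
  have hub : ∀ n, c * ∫⁻ z in ball (0 : ℂ) 1, ENNReal.ofReal
      (G (comb b (q (φ n)) (γ z)) (comb b q0 (γ z)) / s n ^ 2) ≤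
        ENNReal.ofReal (M * ‖comb b (eh n) (γ 0)‖ ^ 2) := by
    intro n
    have h1 : ∀ z, ENNReal.ofReal
        (G (comb b (q (φ n)) (γ z)) (comb b q0 (γ z)) / s n ^ 2) =
        ENNReal.ofReal ((s n ^ 2)⁻¹) *
          ENNReal.ofReal (G (comb b (q (φ n)) (γ z)) (comb b q0 (γ z))) := by
      intro z
      rw [← ENNReal.ofReal_mul (by positivity), div_eq_inv_mul]
    simp only [h1]
    rw [lintegral_const_mul' _ _ ENNReal.ofReal_ne_top, mul_left_comm]
    calc ENNReal.ofReal ((s n ^ 2)⁻¹) * (c * ∫⁻ z in ball (0 : ℂ) 1,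
          ENNReal.ofReal (G (comb b (q (φ n)) (γ z)) (comb b q0 (γ z))))
        ≤ ENNReal.ofReal ((s n ^ 2)⁻¹) * ENNReal.ofReal (gap m b q0 (q (φ n))) :=
          mul_le_mul_right (gap_ball H q0 _) _
      _ = ENNReal.ofReal ((s n ^ 2)⁻¹ * gap m b q0 (q (φ n))) :=
          (ENNReal.ofReal_mul (by positivity)).symm
      _ ≤ ENNReal.ofReal (M * ‖comb b (eh n) (γ 0)‖ ^ 2) := by
          apply ENNReal.ofReal_le_ofReal
          have h2 := (hq2 (φ n)).le
          have h3 : ‖comb b (q (φ n)) (γ 0)‖ = s n * ‖comb b (eh n) (γ 0)‖ := by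
            rw [hqdec, h00, mul_zero, zero_add, norm_mul, Complex.norm_real,
              Real.norm_of_nonneg (hspos n).le]
          rw [h3] at h2
          have h4 := hspos n
          rw [inv_mul_le_iff₀ (by positivity)]
          nlinarith
  -- Fatou
  have hfatou : c * ∫⁻ z in ball (0 : ℂ) 1, ENNReal.ofReal
      ((comb b es (γ z) * conj (comb b q0 (γ z))).im ^ 2 / (2 * ‖comb b q0 (γ z)‖ ^ 3)) ≤
        ENNReal.ofReal (M * ‖comb b es (γ 0)‖ ^ 2) := by
    have hmeas : ∀ n, AEMeasurable (fun z => ENNReal.ofReal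
        (G (comb b (q (φ (ψ n))) (γ z)) (comb b q0 (γ z)) / s (ψ n) ^ 2))
        (volume.restrict (ball (0 : ℂ) 1)) := by
      intro n
      apply AEMeasurable.ennreal_ofReal
      apply AEMeasurable.div_const
      have h1 : AEMeasurable (fun z => comb b (q (φ (ψ n))) (γ z))
          (volume.restrict (ball (0 : ℂ) 1)) :=
        (H.hol_comb _).continuousOn.aemeasurable measurableSet_ball
      have h2 : AEMeasurable (fun z => comb b q0 (γ z))
          (volume.restrict (ball (0 : ℂ) 1)) :=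
        (H.hol_comb _).continuousOn.aemeasurable measurableSet_ball
      unfold G
      apply AEMeasurable.sub h1.norm
      apply Complex.measurable_re.comp_aemeasurable
      exact h1.mul ((Complex.continuous_conj.measurable.comp sg_meas).comp_aemeasurable h2)
    have h1 : ∫⁻ z in ball (0 : ℂ) 1, ENNReal.ofReal
        ((comb b es (γ z) * conj (comb b q0 (γ z))).im ^ 2 / (2 * ‖comb b q0 (γ z)‖ ^ 3)) ≤
        ∫⁻ z in ball (0 : ℂ) 1, liminf (fun n => ENNReal.ofReal
          (G (comb b (q (φ (ψ n))) (γ z)) (comb b q0 (γ z)) / s (ψ n) ^ 2)) atTop := by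
      apply lintegral_mono
      intro z
      by_cases hz : comb b q0 (γ z) = 0
      · simp [hz]
      · exact ((ENNReal.continuous_ofReal.tendsto _).comp (hpt z hz)).liminf_eq.ge
    have h2 := lintegral_liminf_le' (u := atTop) hmeas
    have h3 : Tendsto (fun n => ENNReal.ofReal (M * ‖comb b (eh (ψ n)) (γ 0)‖ ^ 2)) atTop
        (𝓝 (ENNReal.ofReal (M * ‖comb b es (γ 0)‖ ^ 2))) := by
      apply (ENNReal.continuous_ofReal.tendsto _).comp
      apply Tendsto.const_mul
      apply Tendsto.pow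
      exact (((comb_cont (b := b) (γ 0)).tendsto es).comp hlim2).norm
    have h4 : c * liminf (fun n => ∫⁻ z in ball (0 : ℂ) 1, ENNReal.ofReal
          (G (comb b (q (φ (ψ n))) (γ z)) (comb b q0 (γ z)) / s (ψ n) ^ 2)) atTop ≤
        liminf (fun n => ENNReal.ofReal (M * ‖comb b (eh (ψ n)) (γ 0)‖ ^ 2)) atTop := by
      rw [← ENNReal.liminf_const_mul_of_ne_top H.ctop]
      exact liminf_le_liminf (Eventually.of_forall (fun n => hub (ψ n)))
    rw [h3.liminf_eq] at h4
    exact (mul_le_mul_right (h1.trans h2) c).trans h4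
  -- the integral without the factor
  have hfac : ∀ z, ENNReal.ofReal
      ((comb b es (γ z) * conj (comb b q0 (γ z))).im ^ 2 / (2 * ‖comb b q0 (γ z)‖ ^ 3)) =
      ENNReal.ofReal (1 / 2) * ENNReal.ofReal
        ((comb b es (γ z) * conj (comb b q0 (γ z))).im ^ 2 / ‖comb b q0 (γ z)‖ ^ 3) := by
    intro z
    rw [← ENNReal.ofReal_mul (by norm_num)]
    congr 1
    rw [div_mul_eq_div_div]
    ring
  simp only [hfac] at hfatou
  rw [lintegral_const_mul' _ _ ENNReal.ofReal_ne_top] at hfatou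
  have hhalf : ENNReal.ofReal (1 / 2) ≠ 0 := by
    rw [Ne, ENNReal.ofReal_eq_zero]; norm_num
  by_cases hδ : comb b es (γ 0) = 0
  · rw [hδ] at hfatou
    simp only [norm_zero, ne_eq, OfNat.ofNat_ne_zero, not_false_eq_true, zero_pow, mul_zero,
      ENNReal.ofReal_zero, nonpos_iff_eq_zero, mul_eq_zero] at hfatou
    have h0 : ∫⁻ z in ball (0 : ℂ) 1, ENNReal.ofReal
        ((comb b es (γ z) * conj (comb b q0 (γ z))).im ^ 2 / ‖comb b q0 (γ z)‖ ^ 3) = 0 := by
      rcases hfatou with h | h | h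
      · exact absurd h H.c0
      · exact absurd h hhalf
      · exact h
    have hmeas2 : AEMeasurable (fun z => ENNReal.ofReal
        ((comb b es (γ z) * conj (comb b q0 (γ z))).im ^ 2 / ‖comb b q0 (γ z)‖ ^ 3))
        (volume.restrict (ball (0 : ℂ) 1)) := by
      have h1 : AEMeasurable (fun z => comb b es (γ z))
          (volume.restrict (ball (0 : ℂ) 1)) :=
        (H.hol_comb _).continuousOn.aemeasurable measurableSet_ball
      have h2 : AEMeasurable (fun z => comb b q0 (γ z))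
          (volume.restrict (ball (0 : ℂ) 1)) :=
        (H.hol_comb _).continuousOn.aemeasurable measurableSet_ball
      apply AEMeasurable.ennreal_ofReal
      apply AEMeasurable.div
      · apply AEMeasurable.pow_const
        apply Complex.measurable_im.comp_aemeasurable
        exact h1.mul (Complex.continuous_conj.measurable.comp_aemeasurable h2)
      · exact h2.norm.pow_const 3
    rw [lintegral_eq_zero_iff' hmeas2] at h0
    have him : ∀ᵐ z ∂(volume.restrict (ball (0 : ℂ) 1)),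
        (comb b es (γ z) * conj (comb b q0 (γ z))).im = 0 := by
      filter_upwards [h0] with z hz
      by_cases hz0 : comb b q0 (γ z) = 0
      · simp [hz0]
      · have hzn : 0 < ‖comb b q0 (γ z)‖ := norm_pos_iff.mpr hz0
        simp only [Pi.zero_apply, ENNReal.ofReal_eq_zero] at hz
        by_contra hne2
        have : 0 < (comb b es (γ z) * conj (comb b q0 (γ z))).im ^ 2 / ‖comb b q0 (γ z)‖ ^ 3 := by
          have := sq_pos_of_ne_zero hne2
          positivity
        linarith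
    obtain ⟨t, ht⟩ := real_mult (H.hol_comb es) (H.hol_comb q0) hne him
    have h1 : es - t • q0 = 0 := by
      apply H.inj
      intro z hz
      rw [comb_sub, comb_rsmul, ht z hz, sub_self]
    have h2 : es = t • q0 := sub_eq_zero.mp h1
    rw [h2, inner_smul_right_eq_smul, Complex.real_smul, Complex.re_ofReal_mul, hinner0] at hesorth
    have h3 : t = 0 := by
      rcases mul_eq_zero.mp hesorth with h | h
      · exact h
      · exact absurd h hN0pos.ne'
    rw [h2, h3, zero_smul, norm_zero] at hesn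
    exact zero_ne_one hesn
  · have hdiv := diverge (H.hol_comb es) (H.hol_comb q0) hne h00 h01 hδ
    rw [hdiv, ENNReal.mul_top hhalf, ENNReal.mul_top H.c0] at hfatou
    exact absurd hfatou (by simp)

/-! ## Non-strictness -/

lemma bdd (H : Hyp m b γ c) (l : EuclideanSpace ℂ ι) :
    BddAbove {r : ℝ | ∃ q : EuclideanSpace ℂ ι, nrm m b q = 1 ∧ r = ‖∑ i, l i * q i‖} := by
  obtain ⟨a, ha, hlow⟩ := H.lower
  refine ⟨Fintype.card ι * ‖l‖ * (1 / a), ?_⟩
  rintro r ⟨q, hq, rfl⟩
  refine (pair_le l q).trans ?_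
  apply mul_le_mul_of_nonneg_left _ (by positivity)
  rw [le_div_iff₀ ha, mul_comm, ← hq]
  exact hlow q

lemma dnrm_cont (H : Hyp m b γ c) (hne : ∃ q : EuclideanSpace ℂ ι, nrm m b q = 1) :
    Continuous (dnrm m b) := by
  obtain ⟨a, ha, hlow⟩ := H.lower
  have hC : (0 : ℝ) ≤ Fintype.card ι * (1 / a) := by positivity
  apply LipschitzWith.continuous (K := ⟨Fintype.card ι * (1 / a), hC⟩)
  apply LipschitzWith.of_le_add_mul
  intro x y
  rw [dist_eq_norm]
  unfold dnrm
  obtain ⟨q1, hq1⟩ := hne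
  refine csSup_le ?_ ?_
  · exact ⟨_, q1, hq1, rfl⟩
  rintro r ⟨q, hq, rfl⟩
  have h1 : ∑ i, x i * q i = ∑ i, y i * q i + ∑ i, (x - y) i * q i := by
    rw [← Finset.sum_add_distrib]
    apply Finset.sum_congr rfl
    intro i _
    simp
    ring
  rw [h1]
  refine (norm_add_le _ _).trans (add_le_add ?_ ?_)
  · exact le_csSup (bdd H y) ⟨q, hq, rfl⟩
  · refine (pair_le (x - y) q).trans ?_
    show _ ≤ (Fintype.card ι * (1 / a)) * ‖x - y‖
    have h2 : ‖q‖ ≤ 1 / a := by
      rw [le_div_iff₀ ha, mul_comm, ← hq]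
      exact hlow q
    calc (Fintype.card ι : ℝ) * ‖x - y‖ * ‖q‖ ≤ Fintype.card ι * ‖x - y‖ * (1 / a) :=
          mul_le_mul_of_nonneg_left h2 (by positivity)
      _ = _ := by ring

/-- The point evaluation, in coordinates. -/
def ev (b : ι → Ω → ℂ) (x : Ω) : EuclideanSpace ℂ ι := WithLp.toLp 2 (fun i => b i x)

lemma ev_apply (x : Ω) (q : EuclideanSpace ℂ ι) : ∑ i, ev b x i * q i = comb b q x := by
  unfold ev comb
  apply Finset.sum_congr rfl
  intro i _
  simp [mul_comm]

/-- The upper bound of the dual norm along the direction of the point evaluation. -/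
lemma dnrm_upper (H : Hyp m b γ c) {q0 : EuclideanSpace ℂ ι} (hq0 : nrm m b q0 = 1)
    (h00 : comb b q0 (γ 0) = 0) (h01 : deriv (fun z => comb b q0 (γ z)) 0 = 0) (M : ℝ)
    (hM : 0 < M) :
    ∃ r : ℝ, 0 < r ∧ ∀ ζ : ℂ, ‖ζ‖ ≤ r →
      dnrm m b (nf m b q0 + ζ • ev b (γ 0)) ≤ 1 + ‖ζ‖ ^ 2 / M := by
  obtain ⟨κ, hκ, hG⟩ := claimG H hq0 h00 h01 M
  obtain ⟨a, ha, hlow⟩ := H.lower
  set D : ℝ := Fintype.card ι * ‖ev b (γ 0)‖ * (1 / a) with hD
  have hDnn : 0 ≤ D := by positivity
  have hDb : ∀ q : EuclideanSpace ℂ ι, nrm m b q = 1 → ‖comb b q (γ 0)‖ ≤ D := by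
    intro q hq
    rw [← ev_apply]
    refine (pair_le _ q).trans ?_
    apply mul_le_mul_of_nonneg_left _ (by positivity)
    rw [le_div_iff₀ ha, mul_comm, ← hq]
    exact hlow q
  refine ⟨κ / (D + 1), by positivity, ?_⟩
  intro ζ hζ
  unfold dnrm
  refine csSup_le ?_ ?_
  · exact ⟨_, q0, hq0, rfl⟩
  rintro r ⟨q, hq, rfl⟩
  have hlin : ∀ p : EuclideanSpace ℂ ι, ∑ i, (nf m b q0 + ζ • ev b (γ 0)) i * p i =
      ∑ i, nf m b q0 i * p i + ζ * comb b p (γ 0) := by
    intro p
    rw [← ev_apply, Finset.mul_sum, ← Finset.sum_add_distrib]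
    apply Finset.sum_congr rfl
    intro i _
    simp
    ring
  -- rotate
  set w : ℂ := ∑ i, (nf m b q0 + ζ • ev b (γ 0)) i * q i with hw
  obtain ⟨α, hα, hαw⟩ : ∃ α : ℂ, ‖α‖ = 1 ∧ α * w = ‖w‖ := by
    by_cases hw0 : w = 0
    · exact ⟨1, by simp, by simp [hw0]⟩
    · have hn : ‖w‖ ≠ 0 := (norm_pos_iff.mpr hw0).ne'
      have hn' : (‖w‖ : ℂ) ≠ 0 := by exact_mod_cast hn
      refine ⟨conj w / ‖w‖, ?_, ?_⟩
      · rw [norm_div, RCLike.norm_conj, Complex.norm_real, norm_norm, div_self hn]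
      · rw [div_mul_eq_mul_div, mul_comm (conj w) w, Complex.mul_conj, Complex.normSq_eq_norm_sq]
        push_cast
        field_simp
  have hq' : nrm m b (α • q) = 1 := by rw [nrm_smul, hα, one_mul, hq]
  have h1 : ∑ i, (nf m b q0 + ζ • ev b (γ 0)) i * (α • q) i = ‖w‖ := by
    rw [← hαw, hw, Finset.mul_sum]
    apply Finset.sum_congr rfl
    intro i _
    simp
    ring
  rw [hlin] at h1
  have h2 : ‖w‖ = (∑ i, nf m b q0 i * (α • q) i).re + (ζ * comb b (α • q) (γ 0)).re := by
    rw [← Complex.add_re, h1, Complex.ofReal_re]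
  have h3 : (ζ * comb b (α • q) (γ 0)).re ≤ ‖ζ‖ * ‖comb b (α • q) (γ 0)‖ := by
    rw [← norm_mul]; exact Complex.re_le_norm _
  have h4 : (∑ i, nf m b q0 i * (α • q) i).re = 1 - gap m b q0 (α • q) := by
    unfold gap; rw [hq']; ring
  set y := ‖comb b (α • q) (γ 0)‖ with hy
  have hynn : 0 ≤ y := norm_nonneg _
  have hζnn : 0 ≤ ‖ζ‖ := norm_nonneg _
  rcases hG (α • q) hq' with h5 | h5
  · have h6 : ‖w‖ ≤ 1 - M * y ^ 2 + ‖ζ‖ * y := by
      rw [h2, h4]; linarith
    have h7 : ‖ζ‖ * y ≤ M * y ^ 2 + ‖ζ‖ ^ 2 / M := by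
      have h8 : 0 ≤ (M * y - ‖ζ‖ / 2) ^ 2 / M := by positivity
      have h9 : (M * y - ‖ζ‖ / 2) ^ 2 / M = M * y ^ 2 - ‖ζ‖ * y + ‖ζ‖ ^ 2 / (4 * M) := by
        field_simp
        ring
      have h10 : ‖ζ‖ ^ 2 / (4 * M) ≤ ‖ζ‖ ^ 2 / M := by
        apply div_le_div_of_nonneg_left (by positivity) hM
        linarith
      linarith
    linarith
  · have h6 : ‖w‖ ≤ 1 - κ + ‖ζ‖ * y := by
      rw [h2, h4]; linarith
    have h7 : ‖ζ‖ * y ≤ κ := by
      have h8 : y ≤ D := hDb _ hq'
      calc ‖ζ‖ * y ≤ κ / (D + 1) * D := mul_le_mul hζ h8 hynn (by positivity)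
        _ ≤ κ := by
          rw [div_mul_eq_mul_div, div_le_iff₀ (by positivity)]
          nlinarith
    have h8 : 0 ≤ ‖ζ‖ ^ 2 / M := by positivity
    linarith

/-- The mean of `‖x + t e^{iθ} y‖ ^ 2`. -/
lemma mean_sq (x y : EuclideanSpace ℂ ι) (t : ℝ) :
    ∫ θ in (0 : ℝ)..(2 * Real.pi), ‖x + ((t : ℂ) * Complex.exp (θ * Complex.I)) • y‖ ^ 2 =
      2 * Real.pi * (‖x‖ ^ 2 + t ^ 2 * ‖y‖ ^ 2) := by
  have h1 : ∀ θ : ℝ, ‖x + ((t : ℂ) * Complex.exp (θ * Complex.I)) • y‖ ^ 2 =
      (‖x‖ ^ 2 + t ^ 2 * ‖y‖ ^ 2) + (2 * t * (inner ℂ x y).re) * Real.cos θ -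
        (2 * t * (inner ℂ x y).im) * Real.sin θ := by
    intro θ
    rw [@norm_add_sq ℂ]
    rw [inner_smul_right]
    have h2 : ‖((t : ℂ) * Complex.exp (θ * Complex.I)) • y‖ ^ 2 = t ^ 2 * ‖y‖ ^ 2 := by
      rw [norm_smul, norm_mul, Complex.norm_exp_ofReal_mul_I, mul_one, Complex.norm_real, mul_pow,
        Real.norm_eq_abs, sq_abs]
    have h3 : RCLike.re (((t : ℂ) * Complex.exp (θ * Complex.I)) * inner ℂ x y) =
        t * (Real.cos θ * (inner ℂ x y).re - Real.sin θ * (inner ℂ x y).im) := by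
      show (((t : ℂ) * Complex.exp (θ * Complex.I)) * inner ℂ x y).re = _
      rw [mul_assoc, Complex.re_ofReal_mul, Complex.mul_re, Complex.exp_ofReal_mul_I_re,
        Complex.exp_ofReal_mul_I_im]
    rw [h2, h3]
    ring
  simp only [h1]
  rw [intervalIntegral.integral_sub, intervalIntegral.integral_add]
  · rw [intervalIntegral.integral_const, intervalIntegral.integral_const_mul,
      intervalIntegral.integral_const_mul, integral_cos, integral_sin]
    simp
  · exact intervalIntegrable_const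
  · exact (Real.continuous_cos.intervalIntegrable _ _).const_mul _
  · exact intervalIntegrable_const.add ((Real.continuous_cos.intervalIntegrable _ _).const_mul _)
  · exact (Real.continuous_sin.intervalIntegrable _ _).const_mul _

/-- The mean of a holomorphic function over the unit circle. -/
lemma mean_hol {k : ℂ → ℂ} {R : ℝ} (hR : 1 < R) (hk : DifferentiableOn ℂ k (ball 0 R)) :
    ∫ θ in (0 : ℝ)..(2 * Real.pi), k (Complex.exp (θ * Complex.I)) = 2 * Real.pi * k 0 := by
  have h1 : DiffContOnCl ℂ k (ball 0 |(1 : ℝ)|) := by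
    rw [abs_one]
    apply DifferentiableOn.diffContOnCl
    apply hk.mono
    rw [closure_ball (0 : ℂ) one_ne_zero]
    exact closedBall_subset_ball hR
  have h2 := h1.circleAverage
  rw [Real.circleAverage_def] at h2
  simp only [circleMap, zero_add, Complex.ofReal_one, one_mul] at h2
  have hpi : (2 * Real.pi : ℝ) ≠ 0 := by positivity
  have h3 : (∫ θ in (0 : ℝ)..(2 * Real.pi), k (Complex.exp (θ * Complex.I))) =
      (2 * Real.pi : ℝ) • ((2 * Real.pi)⁻¹ • ∫ θ in (0 : ℝ)..(2 * Real.pi),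
        k (Complex.exp (θ * Complex.I))) := by
    rw [smul_smul, mul_inv_cancel₀ hpi, one_smul]
  rw [h3, h2, Complex.real_smul]
  push_cast
  ring

/-- The first two terms of the Parseval formula. -/
lemma mean_lower {η : ℂ → EuclideanSpace ℂ ι} {R : ℝ} (hR : 1 < R)
    (hη : DifferentiableOn ℂ η (ball 0 R)) :
    2 * Real.pi * (‖η 0‖ ^ 2 + ‖deriv η 0‖ ^ 2) ≤
      ∫ θ in (0 : ℝ)..(2 * Real.pi), ‖η (Complex.exp (θ * Complex.I))‖ ^ 2 := by
  set a := η 0 with ha
  set b := deriv η 0 with hb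
  set ψ : ℂ → EuclideanSpace ℂ ι := fun z => η z - a - z • b with hψ
  have h0mem : (0 : ℂ) ∈ ball (0 : ℂ) R := mem_ball_self (by linarith)
  have hψd : DifferentiableOn ℂ ψ (ball 0 R) :=
    (hη.sub_const a).sub (differentiableOn_id.smul_const b)
  have hψ0 : ψ 0 = 0 := by simp [hψ, ha]
  have hdψ : deriv ψ 0 = 0 := by
    have h1 : HasDerivAt η b 0 := (hη.differentiableAt (isOpen_ball.mem_nhds h0mem)).hasDerivAt
    have h2 : HasDerivAt ψ (b - (1 : ℂ) • b) 0 :=
      (h1.sub_const a).sub ((hasDerivAt_id' (0 : ℂ)).smul_const b)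
    rw [h2.deriv, one_smul, sub_self]
  set χ : ℂ → EuclideanSpace ℂ ι := dslope ψ 0 with hχ
  have hχd : DifferentiableOn ℂ χ (ball 0 R) :=
    (Complex.differentiableOn_dslope (isOpen_ball.mem_nhds h0mem)).mpr hψd
  have hχ0 : χ 0 = 0 := by rw [hχ, dslope_same, hdψ]
  have hχz : ∀ z : ℂ, z ≠ 0 → z • χ z = ψ z := by
    intro z hz
    rw [hχ, dslope_of_ne _ hz, slope_def_module, hψ0, sub_zero, sub_zero, smul_smul,
      mul_inv_cancel₀ hz, one_smul]
  set k : ℂ → ℂ := fun z => inner ℂ a (ψ z) + inner ℂ b (χ z) with hk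
  have hkd : DifferentiableOn ℂ k (ball 0 R) := by
    apply DifferentiableOn.add
    · exact (innerSL ℂ a).differentiable.comp_differentiableOn hψd
    · exact (innerSL ℂ b).differentiable.comp_differentiableOn hχd
  have hk0 : k 0 = 0 := by simp [hk, hψ0, hχ0]
  have hmean := mean_hol hR hkd
  rw [hk0, mul_zero] at hmean
  have hexp : ∀ θ : ℝ, Complex.exp (θ * Complex.I) ∈ ball (0 : ℂ) R := by
    intro θ
    rw [mem_ball_zero_iff, Complex.norm_exp_ofReal_mul_I]
    exact hR
  have hcexp : Continuous (fun θ : ℝ => Complex.exp (θ * Complex.I)) := by fun_prop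
  have hηc : Continuous (fun θ : ℝ => η (Complex.exp (θ * Complex.I))) :=
    hη.continuousOn.comp_continuous hcexp hexp
  have hkc : Continuous (fun θ : ℝ => k (Complex.exp (θ * Complex.I))) :=
    hkd.continuousOn.comp_continuous hcexp hexp
  have hpt : ∀ θ : ℝ, ‖a + ((1 : ℝ) * Complex.exp (θ * Complex.I) : ℂ) • b‖ ^ 2 +
      2 * (k (Complex.exp (θ * Complex.I))).re ≤ ‖η (Complex.exp (θ * Complex.I))‖ ^ 2 := by
    intro θ
    set z := Complex.exp (θ * Complex.I) with hz
    have hzn : ‖z‖ = 1 := Complex.norm_exp_ofReal_mul_I θ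
    have hz0 : z ≠ 0 := by
      intro h; rw [h] at hzn; simp at hzn
    have h1 : η z = (a + z • b) + ψ z := by
      simp only [hψ]; abel
    have h2 : inner ℂ (z • b) (ψ z) = inner ℂ b (χ z) := by
      rw [← hχz z hz0, inner_smul_left, inner_smul_right, ← mul_assoc]
      have : conj z * z = 1 := by
        rw [mul_comm, Complex.mul_conj, Complex.normSq_eq_norm_sq, hzn]; simp
      rw [this, one_mul]
    rw [Complex.ofReal_one, one_mul, h1, @norm_add_sq ℂ _ _ _ _ (a + z • b) (ψ z)]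
    have h3 : RCLike.re (inner ℂ (a + z • b) (ψ z)) = (k z).re := by
      rw [inner_add_left, h2]; rfl
    rw [h3]
    have := sq_nonneg ‖ψ z‖
    linarith
  have hI : ∫ θ in (0 : ℝ)..(2 * Real.pi), (‖a + ((1 : ℝ) * Complex.exp (θ * Complex.I) : ℂ) • b‖ ^ 2 +
      2 * (k (Complex.exp (θ * Complex.I))).re) ≤
      ∫ θ in (0 : ℝ)..(2 * Real.pi), ‖η (Complex.exp (θ * Complex.I))‖ ^ 2 := by
    apply intervalIntegral.integral_mono_on (by positivity)
    · apply Continuous.intervalIntegrable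
      have : Continuous (fun θ : ℝ => (k (Complex.exp (θ * Complex.I))).re) :=
        Complex.continuous_re.comp hkc
      fun_prop
    · exact (hηc.norm.pow 2).intervalIntegrable _ _
    · intro θ _
      exact hpt θ
  have hre : ∫ θ in (0 : ℝ)..(2 * Real.pi), (k (Complex.exp (θ * Complex.I))).re = 0 := by
    have h1 := intervalIntegral.intervalIntegral_re (𝕜 := ℂ) (μ := volume) (a := 0) (b := 2 * Real.pi)
      (hkc.intervalIntegrable _ _)
    rw [hmean] at h1
    simpa using h1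
  rw [intervalIntegral.integral_add, intervalIntegral.integral_const_mul, hre, mul_zero, add_zero,
    mean_sq] at hI
  · simpa using hI
  · apply Continuous.intervalIntegrable; fun_prop
  · exact ((Complex.continuous_re.comp hkc).intervalIntegrable _ _).const_mul _

/-- The general theorem: the dual norm is not strictly plurisubharmonic outside the origin. -/
theorem not_strict (H : Hyp m b γ c) {q0 q1 : EuclideanSpace ℂ ι} (hq0 : q0 ≠ 0)
    (h00 : comb b q0 (γ 0) = 0) (h01 : deriv (fun z => comb b q0 (γ z)) 0 = 0)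
    (hq1 : comb b q1 (γ 0) ≠ 0) : ¬ StrictPshOn (dnrm m b) {l | l ≠ 0} := by
  intro hS
  -- normalise
  have hn0 : 0 < nrm m b q0 := by
    rcases (nrm_nonneg (m := m) (b := b) q0).eq_or_lt with h | h
    · exact absurd (H.definite h.symm) hq0
    · exact h
  set p0 : EuclideanSpace ℂ ι := ((nrm m b q0)⁻¹ : ℝ) • q0 with hp0
  have hp1 : nrm m b p0 = 1 := by
    rw [hp0, nrm_rsmul, abs_inv, abs_of_pos hn0, inv_mul_cancel₀ hn0.ne']
  have hp00 : comb b p0 (γ 0) = 0 := by rw [hp0, comb_rsmul, h00, mul_zero]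
  have hp01 : deriv (fun z => comb b p0 (γ z)) 0 = 0 := by
    have : (fun z => comb b p0 (γ z)) = fun z => (((nrm m b q0)⁻¹ : ℝ) : ℂ) * comb b q0 (γ z) := by
      funext z; rw [hp0, comb_rsmul]
    rw [this, deriv_const_mul_field, h01, mul_zero]
  set l0 := nf m b p0 with hl0
  set dl := ev b (γ 0) with hdl
  have hval : 1 ≤ dnrm m b l0 := by
    unfold dnrm
    apply le_csSup (bdd H l0)
    refine ⟨p0, hp1, ?_⟩
    rw [hl0, gap_self H.int, hp1]
    simp
  have hl0ne : l0 ≠ 0 := by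
    intro h
    have h1 := gap_self H.int p0
    rw [← hl0, h, hp1] at h1
    simp at h1
  have hdlne : dl ≠ 0 := by
    intro h
    apply hq1
    rw [← ev_apply, ← hdl, h]
    simp
  have hdn : 0 < ‖dl‖ := norm_pos_iff.mpr hdlne
  obtain ⟨ε, U, w, hε, hU, hlU, -, hwd, -, hwi, -, hpsh⟩ := hS l0 hl0ne
  set D : ℝ := ‖fderiv ℂ w l0 dl‖ with hD
  have hDpos : 0 < D := by
    apply norm_pos_iff.mpr
    intro h
    apply hdlne
    apply hwi l0 hlU
    rw [h, map_zero]
  obtain ⟨ρ, hρ, hball⟩ := Metric.isOpen_iff.mp hU l0 hlU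
  obtain ⟨r, hr, hup⟩ := dnrm_upper H hp1 hp00 hp01 (2 / (ε * D ^ 2)) (by positivity)
  set t : ℝ := min r (ρ / (2 * ‖dl‖)) with ht
  have htpos : 0 < t := by positivity
  have htr : t ≤ r := min_le_left _ _
  have htρ : t * (2 * ‖dl‖) ≤ ρ := by
    have := min_le_right r (ρ / (2 * ‖dl‖))
    rwa [← ht, le_div_iff₀ (by positivity)] at this
  have hmaps : MapsTo (fun ζ : ℂ => l0 + ((t : ℂ) * ζ) • dl) (ball 0 2) U := by
    intro ζ hζ
    apply hball
    rw [mem_ball_zero_iff] at hζ
    rw [mem_ball, dist_eq_norm]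
    have : l0 + ((t : ℂ) * ζ) • dl - l0 = ((t : ℂ) * ζ) • dl := by abel
    rw [this, norm_smul, norm_mul, Complex.norm_real, Real.norm_of_nonneg htpos.le]
    calc t * ‖ζ‖ * ‖dl‖ < t * 2 * ‖dl‖ := by gcongr
      _ ≤ ρ := by linarith
  have hγd : Differentiable ℂ (fun ζ : ℂ => l0 + ((t : ℂ) * ζ) • dl) :=
    (differentiable_const _).add (((differentiable_const _).mul differentiable_id).smul_const _)
  have hγ := hpsh 2 (fun ζ => l0 + ((t : ℂ) * ζ) • dl) (by norm_num) hγd.differentiableOn hmaps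
  have hηd : DifferentiableOn ℂ (fun ζ : ℂ => w (l0 + ((t : ℂ) * ζ) • dl)) (ball 0 2) :=
    hwd.comp hγd.differentiableOn hmaps
  have hmean := mean_lower (by norm_num) hηd
  have hderiv : deriv (fun ζ : ℂ => w (l0 + ((t : ℂ) * ζ) • dl)) 0 =
      (t : ℂ) • fderiv ℂ w l0 dl := by
    have h1 : HasDerivAt (fun ζ : ℂ => l0 + ((t : ℂ) * ζ) • dl) ((t : ℂ) • dl) 0 := by
      have h2 := ((hasDerivAt_id' (0 : ℂ)).const_mul (t : ℂ)).smul_const dl
      have h3 := h2.const_add l0
      simpa using h3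
    have h4 : HasFDerivAt w (fderiv ℂ w l0) (l0 + ((t : ℂ) * 0) • dl) := by
      rw [mul_zero, zero_smul, add_zero]
      exact (hwd.differentiableAt (hU.mem_nhds hlU)).hasFDerivAt
    have h5 := h4.comp_hasDerivAt (0 : ℂ) h1
    rw [map_smul] at h5
    exact h5.deriv
  rw [hderiv] at hmean
  simp only [mul_zero, zero_smul, add_zero] at hγ hmean
  have hnd : ‖(t : ℂ) • fderiv ℂ w l0 dl‖ ^ 2 = t ^ 2 * D ^ 2 := by
    rw [norm_smul, Complex.norm_real, Real.norm_of_nonneg htpos.le, mul_pow]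
  rw [hnd] at hmean
  have hcd := dnrm_cont H ⟨p0, hp1⟩
  have hcf : Continuous (fun θ : ℝ => l0 + ((t : ℂ) * Complex.exp (θ * Complex.I)) • dl) := by
    fun_prop
  have hexp : ∀ θ : ℝ, Complex.exp (θ * Complex.I) ∈ ball (0 : ℂ) 2 := by
    intro θ
    rw [mem_ball_zero_iff, Complex.norm_exp_ofReal_mul_I]
    norm_num
  have hηc : Continuous (fun θ : ℝ => w (l0 + ((t : ℂ) * Complex.exp (θ * Complex.I)) • dl)) :=
    hηd.continuousOn.comp_continuous (by fun_prop) hexp
  have hint1 : IntervalIntegrable (fun θ : ℝ =>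
      dnrm m b (l0 + ((t : ℂ) * Complex.exp (θ * Complex.I)) • dl)) volume 0 (2 * Real.pi) :=
    (hcd.comp hcf).intervalIntegrable _ _
  have hint2 : IntervalIntegrable (fun θ : ℝ =>
      ε * ‖w (l0 + ((t : ℂ) * Complex.exp (θ * Complex.I)) • dl)‖ ^ 2) volume 0 (2 * Real.pi) :=
    ((hηc.norm.pow 2).const_mul ε).intervalIntegrable _ _
  rw [intervalIntegral.integral_sub hint1 hint2, intervalIntegral.integral_const_mul] at hγ
  have hI : ∫ θ in (0 : ℝ)..(2 * Real.pi),
      dnrm m b (l0 + ((t : ℂ) * Complex.exp (θ * Complex.I)) • dl) ≤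
      2 * Real.pi * (1 + t ^ 2 / (2 / (ε * D ^ 2))) := by
    have h1 : ∫ θ in (0 : ℝ)..(2 * Real.pi),
        dnrm m b (l0 + ((t : ℂ) * Complex.exp (θ * Complex.I)) • dl) ≤
        ∫ _ in (0 : ℝ)..(2 * Real.pi), (1 + t ^ 2 / (2 / (ε * D ^ 2))) := by
      apply intervalIntegral.integral_mono_on (by positivity) hint1 intervalIntegrable_const
      intro θ _
      have hz : ‖(t : ℂ) * Complex.exp (θ * Complex.I)‖ = t := by
        rw [norm_mul, Complex.norm_exp_ofReal_mul_I, mul_one, Complex.norm_real,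
          Real.norm_of_nonneg htpos.le]
      have h2 := hup ((t : ℂ) * Complex.exp (θ * Complex.I)) (by rw [hz]; exact htr)
      rw [hz] at h2
      exact h2
    rw [intervalIntegral.integral_const] at h1
    simpa using h1
  have hpi := Real.pi_pos
  have hγ2 : dnrm m b l0 - ε * ‖w l0‖ ^ 2 ≤
      (1 + t ^ 2 / (2 / (ε * D ^ 2))) - ε * (‖w l0‖ ^ 2 + t ^ 2 * D ^ 2) := by
    refine hγ.trans ?_
    rw [inv_mul_le_iff₀ (by positivity)]
    calc _ ≤ 2 * Real.pi * (1 + t ^ 2 / (2 / (ε * D ^ 2))) -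
          ε * (2 * Real.pi * (‖w l0‖ ^ 2 + t ^ 2 * D ^ 2)) :=
          sub_le_sub hI (mul_le_mul_of_nonneg_left hmean hε.le)
      _ = _ := by ring
  have hfin : t ^ 2 / (2 / (ε * D ^ 2)) = ε * (t ^ 2 * D ^ 2) / 2 := by
    field_simp
  rw [hfin] at hγ2
  have hpos : 0 < ε * (t ^ 2 * D ^ 2) := by positivity
  nlinarith

end

end Pool.Agent.TNQ
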