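import Pool.Agent.TNQ.SurfDefs

/-!
# Compact Riemann surfaces: the area formula
-/

open scoped BigOperators Topology ENNReal Manifold ContDiff
open Metric Set MeasureTheory Filter

namespace Pool.Agent.TNQ

noncomputable section

section

variable {X : Type*} [TopologicalSpace X] [ChartedSpace ℂ X] [IsManifold 𝓘(ℂ) ω X]

/-- The change of coordinates from `e` to `e'`. -/
def tr (e e' : atlas ℂ X) (z : ℂ) : ℂ := e'.1 (e.1.symm z)

/-- The domain of the change of coordinates. -/
def trd (e e' : atlas ℂ X) : Set ℂ := e.1.target ∩ e.1.symm ⁻¹' e'.1.source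

omit [IsManifold 𝓘(ℂ) ω X] in
lemma trd_open (e e' : atlas ℂ X) : IsOpen (trd e e') :=
  e.1.isOpen_inter_preimage_symm e'.1.open_source

lemma tr_contDiff (e e' : atlas ℂ X) : ContDiffOn ℂ ω (tr e e') (trd e e') := by
  have h := (contDiffGroupoid ω 𝓘(ℂ)).compatible e.2 e'.2
  have h1 := contMDiffOn_of_mem_contDiffGroupoid h
  rw [contMDiffOn_iff_contDiffOn] at h1
  exact h1

lemma tr_diffAt (e e' : atlas ℂ X) {z : ℂ} (hz : z ∈ trd e e') :
    DifferentiableAt ℂ (tr e e') z :=
  ((tr_contDiff e e').differentiableOn (by simp)).differentiableAt ((trd_open e e').mem_nhds hz)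

omit [IsManifold 𝓘(ℂ) ω X] in
lemma tr_inj (e e' : atlas ℂ X) : InjOn (tr e e') (trd e e') := by
  intro z hz w hw h
  have h1 := e'.1.injOn hz.2 hw.2 h
  exact e.1.symm.injOn (by simpa using hz.1) (by simpa using hw.1) h1

omit [IsManifold 𝓘(ℂ) ω X] in
lemma tr_image (e e' : atlas ℂ X) (B : Set X) (hB : B ⊆ e.1.source ∩ e'.1.source) :
    tr e e' '' (e.1.target ∩ e.1.symm ⁻¹' B) = e'.1.target ∩ e'.1.symm ⁻¹' B := by
  ext w
  constructor
  · rintro ⟨z, ⟨hz, hz'⟩, rfl⟩
    have h1 := (hB hz').2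
    refine ⟨e'.1.map_source h1, ?_⟩
    show e'.1.symm (e'.1 (e.1.symm z)) ∈ B
    rw [e'.1.left_inv h1]
    exact hz'
  · rintro ⟨hw, hw'⟩
    have h1 := (hB hw').1
    refine ⟨e.1 (e'.1.symm w), ⟨e.1.map_source h1, ?_⟩, ?_⟩
    · show e.1.symm (e.1 (e'.1.symm w)) ∈ B
      rw [e.1.left_inv h1]
      exact hw'
    · show e'.1 (e.1.symm (e.1 (e'.1.symm w))) = w
      rw [e.1.left_inv h1, e'.1.right_inv hw]

lemma det_mul (a : ℂ) :
    ((ContinuousLinearMap.smulRight (1 : ℂ →L[ℂ] ℂ) a).restrictScalars ℝ).det = ‖a‖ ^ 2 := by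
  have h3 := LinearMap.det_restrictScalars (R := ℝ) (S := ℂ)
    (f := ((ContinuousLinearMap.smulRight (1 : ℂ →L[ℂ] ℂ) a : ℂ →L[ℂ] ℂ) : ℂ →ₗ[ℂ] ℂ))
  have h4 : LinearMap.det ((ContinuousLinearMap.smulRight (1 : ℂ →L[ℂ] ℂ) a : ℂ →L[ℂ] ℂ) :
      ℂ →ₗ[ℂ] ℂ) = a := by
    rw [LinearMap.det_ring]
    simp
  rw [h4, Algebra.norm_complex_apply, Complex.normSq_eq_norm_sq] at h3
  exact h3

omit [IsManifold 𝓘(ℂ) ω X] in
lemma meas_pre [MeasurableSpace X] [BorelSpace X] (e : atlas ℂ X) {B : Set X}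
    (hB : MeasurableSet B) : MeasurableSet (e.1.target ∩ e.1.symm ⁻¹' B) := by
  have h : ContinuousOn e.1.symm e.1.target := e.1.continuousOn_symm
  have h1 : Measurable (e.1.target.restrict e.1.symm) :=
    (continuousOn_iff_continuous_restrict.1 h).measurable
  have h2 := h1 hB
  have h3 : e.1.target ∩ e.1.symm ⁻¹' B =
      ((↑) : e.1.target → ℂ) '' (e.1.target.restrict e.1.symm ⁻¹' B) := by
    ext z
    constructor
    · rintro ⟨h1, h2⟩
      exact ⟨⟨z, h1⟩, h2, rfl⟩
    · rintro ⟨⟨w, hw⟩, h2, rfl⟩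
      exact ⟨hw, h2⟩
  rw [h3]
  exact (MeasurableEmbedding.subtype_coe e.1.open_target.measurableSet).measurableSet_image.2 h2

omit [IsManifold 𝓘(ℂ) ω X] in
lemma chartArea_apply [MeasurableSpace X] [BorelSpace X] (q : QD X) (e : atlas ℂ X) {B : Set X}
    (hB : MeasurableSet B) :
    chartArea q e B = ∫⁻ z in e.1.target ∩ e.1.symm ⁻¹' B, ‖q.1 e z‖ₑ := by
  unfold chartArea
  rw [Measure.map_apply_of_aemeasurable _ hB, withDensity_apply',
    Measure.restrict_restrict' e.1.open_target.measurableSet, inter_comm]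
  have h : AEMeasurable e.1.symm (volume.restrict e.1.target) :=
    e.1.continuousOn_symm.aemeasurable e.1.open_target.measurableSet
  exact h.mono_ac (withDensity_absolutelyContinuous _ _)

lemma chartArea_eq [MeasurableSpace X] [BorelSpace X] (q : QD X) (e e' : atlas ℂ X) {B : Set X}
    (hB : MeasurableSet B) (hB' : B ⊆ e.1.source ∩ e'.1.source) :
    chartArea q e B = chartArea q e' B := by
  rw [chartArea_apply q e hB, chartArea_apply q e' hB, ← tr_image e e' B hB']
  have hsub : e.1.target ∩ e.1.symm ⁻¹' B ⊆ trd e e' := fun z hz => ⟨hz.1, (hB' hz.2).2⟩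
  rw [lintegral_image_eq_lintegral_abs_det_fderiv_mul volume (meas_pre e hB)
    (f' := fun z => (ContinuousLinearMap.smulRight (1 : ℂ →L[ℂ] ℂ)
      (deriv (tr e e') z)).restrictScalars ℝ)
    (fun z hz => ?_) ((tr_inj e e').mono hsub)]
  · refine setLIntegral_congr_fun (meas_pre e hB) fun z hz => ?_
    have h1 := (q.2 e).2.2 e' z hz.1 (hB' hz.2).2
    show ‖q.1 e z‖ₑ = _
    rw [h1, det_mul, abs_of_nonneg (by positivity), enorm_mul, mul_comm]
    congr 1
    rw [enorm_pow, ← ofReal_norm_eq_enorm, ← ENNReal.ofReal_pow (norm_nonneg _)]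
    rfl
  · exact ((tr_diffAt e e' (hsub hz)).hasDerivAt.hasFDerivAt.restrictScalars ℝ).hasFDerivWithinAt

omit [IsManifold 𝓘(ℂ) ω X] in
lemma chartArea_source [MeasurableSpace X] [BorelSpace X] (q : QD X) (e : atlas ℂ X)
    {B : Set X} (hB : MeasurableSet B) :
    chartArea q e B = chartArea q e (B ∩ e.1.source) := by
  rw [chartArea_apply q e hB, chartArea_apply q e (hB.inter e.1.open_source.measurableSet)]
  congr 2
  ext z
  constructor
  · rintro ⟨h1, h2⟩
    exact ⟨h1, h2, e.1.map_target h1⟩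
  · rintro ⟨h1, h2, -⟩
    exact ⟨h1, h2⟩

end

/-- The area formula for a finite partition into pieces contained in the domains of charts. -/
lemma area_univ {X : Type*} [TopologicalSpace X] [ChartedSpace ℂ X] [IsManifold 𝓘(ℂ) ω X]
    [MeasurableSpace X] [BorelSpace X] (q : QD X) (N : ℕ) (D : ℕ → Set X) (e : ℕ → atlas ℂ X)
    (hD : ∀ n, MeasurableSet (D n)) (hDe : ∀ n, D n ⊆ (e n).1.source)
    (hdisj : Pairwise (Function.onFun Disjoint D)) (hcov : ⋃ n ∈ Finset.range N, D n = univ) :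
    area q univ = ∑ n ∈ Finset.range N,
      ∫⁻ z in (e n).1.target ∩ (e n).1.symm ⁻¹' D n, ‖q.1 (e n) z‖ₑ := by
  have hsplit : ∀ (μ : Measure X) {A : Set X}, MeasurableSet A →
      μ A = ∑ n ∈ Finset.range N, μ (A ∩ D n) := by
    intro μ A hA
    rw [← measure_biUnion_finset]
    · rw [← inter_iUnion₂, hcov, inter_univ]
    · intro i _ j _ hij
      exact (hdisj hij).mono inter_subset_right inter_subset_right
    · intro n _
      exact hA.inter (hD n)
  apply le_antisymm
  · have h1 : area q ≤ ∑ n ∈ Finset.range N, (chartArea q (e n)).restrict (D n) := by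
      apply iSup_le
      intro e'
      rw [Measure.le_iff]
      intro A hA
      rw [hsplit _ hA, Measure.finsetSum_apply]
      refine Finset.sum_le_sum fun n _ => ?_
      rw [Measure.restrict_apply hA, chartArea_source q e' (hA.inter (hD n)),
        chartArea_eq q e' (e n)
          ((hA.inter (hD n)).inter e'.1.open_source.measurableSet)
          (fun x hx => ⟨hx.2, hDe n hx.1.2⟩)]
      exact measure_mono inter_subset_left
    refine (h1 univ).trans ?_
    rw [Measure.finsetSum_apply]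
    refine Finset.sum_le_sum fun n _ => ?_
    rw [Measure.restrict_apply MeasurableSet.univ, univ_inter, chartArea_apply q (e n) (hD n)]
  · rw [hsplit (area q) MeasurableSet.univ]
    refine Finset.sum_le_sum fun n _ => ?_
    rw [univ_inter, ← chartArea_apply q (e n) (hD n)]
    exact (le_iSup (chartArea q) (e n)) (D n)

end

end Pool.Agent.TNQ
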