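import Mathlib

/-!
# The Teichmüller norm on a fibre of the tangent bundle: definitions for the final statement
-/

open scoped BigOperators Topology ENNReal Manifold ContDiff
open Metric Set MeasureTheory Filter

namespace Pool.Agent.TNQ

noncomputable section

/-! ## Quadratic differentials -/

/-- The space `Q(X)` of holomorphic quadratic differentials of a Riemann surface `X`. A quadratic
differential is a family of functions `q e`, one for each chart `e` of the atlas (`q` is
`q e (z) dz ^ 2` in the coordinate `z` of the chart), holomorphic on the image of the chart (and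
put equal to `0` outside the image), such that `q e (z) = q e' (T z) * (T' z) ^ 2` for every change
of coordinates `T = e' ∘ e⁻¹`. -/
def QD (X : Type*) [TopologicalSpace X] [ChartedSpace ℂ X] :
    Submodule ℂ (atlas ℂ X → ℂ → ℂ) where
  carrier := {q | ∀ e : atlas ℂ X, DifferentiableOn ℂ (q e) e.1.target ∧
    (∀ z, z ∉ e.1.target → q e z = 0) ∧
    ∀ e' : atlas ℂ X, ∀ z ∈ e.1.target, e.1.symm z ∈ e'.1.source →
      q e z = q e' (e'.1 (e.1.symm z)) * deriv (fun w => e'.1 (e.1.symm w)) z ^ 2}
  add_mem' := by
    intro p q hp hq e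
    refine ⟨(hp e).1.add (hq e).1, fun z hz => ?_, fun e' z hz hz' => ?_⟩
    · simp [(hp e).2.1 z hz, (hq e).2.1 z hz]
    · simp only [Pi.add_apply]
      rw [(hp e).2.2 e' z hz hz', (hq e).2.2 e' z hz hz']
      ring
  zero_mem' := by
    intro e
    refine ⟨differentiableOn_const _, fun z hz => rfl, fun e' z hz hz' => ?_⟩
    simp
  smul_mem' := by
    intro a p hp e
    refine ⟨(hp e).1.const_smul a, fun z hz => ?_, fun e' z hz hz' => ?_⟩
    · simp [(hp e).2.1 z hz]
    · simp only [Pi.smul_apply, smul_eq_mul]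
      rw [(hp e).2.2 e' z hz hz']
      ring

/-- The complex vector space `Q(X)` of the holomorphic quadratic differentials of `X`. -/
def QSp (X : Type*) [TopologicalSpace X] [ChartedSpace ℂ X] : Type _ := QD X

instance (X : Type*) [TopologicalSpace X] [ChartedSpace ℂ X] : AddCommGroup (QSp X) :=
  (QD X).addCommGroup

instance (X : Type*) [TopologicalSpace X] [ChartedSpace ℂ X] : Module ℂ (QSp X) :=
  (QD X).module

/-- The family of functions `q e (z)`, where `q = q e (z) dz ^ 2` in the chart `e`. -/
def QSp.fn {X : Type*} [TopologicalSpace X] [ChartedSpace ℂ X] (q : QSp X) :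
    atlas ℂ X → ℂ → ℂ := q.1

/-! ## The Teichmüller norm -/

/-- The area measure `|f e (z)| dx dy` in the chart `e`, as a measure on `X`. -/
def areaIn {X : Type*} [TopologicalSpace X] [ChartedSpace ℂ X] [MeasurableSpace X]
    (f : atlas ℂ X → ℂ → ℂ) (e : atlas ℂ X) : Measure X :=
  ((volume.restrict e.1.target).withDensity (fun z => ‖f e z‖ₑ)).map e.1.symm

/-- The norm `∫_X |q|`: the total mass of the area measure `|q|` on `X`, the smallest measure which
is at least the measure `|q|` of every chart (these agree on the intersections of the charts). -/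
def qn {X : Type*} [TopologicalSpace X] [ChartedSpace ℂ X] [MeasurableSpace X] (q : QSp X) : ℝ :=
  ((⨆ e, areaIn q.fn e) univ).toReal

/-- The norm dual to `n`: `F(l) = sup {|l q| : n(q) = 1}`. -/
def dualN {Q : Type*} [AddCommGroup Q] [Module ℂ Q] (n : Q → ℝ) (l : Q →ₗ[ℂ] ℂ) : ℝ :=
  sSup {r : ℝ | ∃ q, n q = 1 ∧ r = ‖l q‖}

/-- The vector space `V`, identified by `φ` with the dual `Q^*` of `Q`, is mapped by `j` to the
complex manifold `M`, modelled on `E`, holomorphically and, outside the origin, immersively; the
function `u` on `M` restricts on it to the norm dual to `n`; the set `O` contains the images of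
all nonzero vectors. -/
structure FibreIn {Q V E M : Type*} [AddCommGroup Q] [Module ℂ Q] [NormedAddCommGroup V]
    [NormedSpace ℂ V] [NormedAddCommGroup E] [NormedSpace ℂ E] [TopologicalSpace M]
    [ChartedSpace E M] (n : Q → ℝ) (φ : V ≃ₗ[ℂ] (Q →ₗ[ℂ] ℂ)) (j : V → M) (u : M → ℝ)
    (O : Set M) : Prop where
  hol : MDifferentiable 𝓘(ℂ, V) 𝓘(ℂ, E) j
  imm : ∀ l, l ≠ 0 → Function.Injective (mfderiv 𝓘(ℂ, V) 𝓘(ℂ, E) j l)
  res : ∀ l, u (j l) = dualN n (φ l)
  sub : ∀ l, l ≠ 0 → j l ∈ O

/-! ## Plurisubharmonic functions on complex manifolds -/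

/-- A real function `u` on a complex manifold `M` is plurisubharmonic on the open set `O`: it is
upper semicontinuous, and its restriction to every holomorphic disc in `O` is subharmonic. All
subdiscs being obtained by reparametrisation, this means: for every holomorphic map from a
neighbourhood of the closed unit disc to `O`, `u` is integrable on the boundary circle and its
value at the centre is at most its mean over the boundary circle. -/
def MPshOn {E M : Type*} [NormedAddCommGroup E] [NormedSpace ℂ E] [TopologicalSpace M]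
    [ChartedSpace E M] (u : M → ℝ) (O : Set M) : Prop :=
  UpperSemicontinuousOn u O ∧
    ∀ (R : ℝ) (γ : ℂ → M), 1 < R → MDifferentiableOn 𝓘(ℂ) 𝓘(ℂ, E) γ (ball 0 R) →
      MapsTo γ (ball 0 R) O →
      IntervalIntegrable (fun θ : ℝ => u (γ (Complex.exp (θ * Complex.I)))) volume
        0 (2 * Real.pi) ∧
      u (γ 0) ≤ (2 * Real.pi)⁻¹ *
        ∫ θ in (0 : ℝ)..(2 * Real.pi), u (γ (Complex.exp (θ * Complex.I)))

/-- `u` is strictly plurisubharmonic on the open subset `O` of the complex manifold `M`, modelled
on `E`: near each point, in a local chart `w`, `u - ε |w| ^ 2` is plurisubharmonic for some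
`ε > 0`. -/
def StrictPsh {E M : Type*} [NormedAddCommGroup E] [InnerProductSpace ℂ E] [TopologicalSpace M]
    [ChartedSpace E M] (u : M → ℝ) (O : Set M) : Prop :=
  ∀ a ∈ O, ∃ w ∈ IsManifold.maximalAtlas 𝓘(ℂ, E) ω M, a ∈ w.source ∧
    ∃ ε : ℝ, 0 < ε ∧ ∃ U : Set M, IsOpen U ∧ a ∈ U ∧ U ⊆ w.source ∧ U ⊆ O ∧
      MPshOn (E := E) (fun x => u x - ε * ‖w x‖ ^ 2) U

end

end Pool.Agent.TNQ
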