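import Pool.Agent.TNQ.Defs
import Pool.Agent.TNQ.SurfDefs2

/-!
# Compact Riemann surfaces: auxiliary definitions
-/

open scoped BigOperators Topology ENNReal Manifold ContDiff
open Metric Set MeasureTheory Filter

namespace Pool.Agent.TNQ

noncomputable section

variable {X : Type*} [TopologicalSpace X] [ChartedSpace ℂ X] [MeasurableSpace X]

/-- The area measure `|q| = |q e (z)| dx dy` in the chart `e`, as a measure on `X`. -/
def chartArea (q : QD X) (e : atlas ℂ X) : Measure X :=
  ((volume.restrict e.1.target).withDensity (fun z => ‖q.1 e z‖ₑ)).map e.1.symm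

/-- The area measure `|q|` on `X`: the smallest measure which is at least the measure `|q|` of
every chart (these measures agree on the intersections of the charts). -/
def area (q : QD X) : Measure X := ⨆ e, chartArea q e

/-- The norm `n(q) = ∫_X |q|`. -/
def qnorm (q : QD X) : ℝ := (area q univ).toReal

/-- The Teichmüller norm on the tangent space `T_X T_g = Q(X)^*`: the dual norm
`F(ℓ) = sup {|ℓ q| : n(q) = 1}`. -/
def tnorm (l : QD X →ₗ[ℂ] ℂ) : ℝ := sSup {r : ℝ | ∃ q : QD X, qnorm q = 1 ∧ r = ‖l q‖}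

/-- The Teichmüller norm on `T_X T_g = Q(X)^* = ℂ ^ k`, in the coordinates of the basis dual to the
basis `b` of `Q(X)`. -/
def tn {X : Type*} [TopologicalSpace X] [ChartedSpace ℂ X] [MeasurableSpace X] {k : ℕ}
    (b : Module.Basis (Fin k) ℂ (QD X)) (l : EuclideanSpace ℂ (Fin k)) : ℝ :=
  tnorm (∑ i, l i • b.coord i)

/-- `u` is strictly plurisubharmonic on the open subset `O` of the complex manifold `M` of
dimension `N`: near each point, in a local chart `w`, `u - ε |w| ^ 2` is plurisubharmonic for some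
`ε > 0`. -/
def MStrictPshOn {N : ℕ} {M : Type*} [TopologicalSpace M]
    [ChartedSpace (EuclideanSpace ℂ (Fin N)) M] (u : M → ℝ) (O : Set M) : Prop :=
  ∀ a ∈ O, ∃ w ∈ IsManifold.maximalAtlas 𝓘(ℂ, EuclideanSpace ℂ (Fin N)) ω M, a ∈ w.source ∧
    ∃ ε : ℝ, 0 < ε ∧ ∃ U : Set M, IsOpen U ∧ a ∈ U ∧ U ⊆ w.source ∧ U ⊆ O ∧
      MPshOn (E := EuclideanSpace ℂ (Fin N)) (fun x => u x - ε * ‖w x‖ ^ 2) U

end

end Pool.Agent.TNQ
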