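import Pool.Agent.TNQ.SurfIdent

/-!
# Compact Riemann surfaces: the flat direction of the Teichmüller norm
-/

open scoped BigOperators Topology ENNReal Manifold ContDiff
open Metric Set MeasureTheory Filter

namespace Pool.Agent.TNQ

noncomputable section

/-- A finite covering whose first member is a compact neighbourhood of `x`. -/
lemma exists_cov {X : Type*} [TopologicalSpace X] [T2Space X] [CompactSpace X] [ChartedSpace ℂ X]
    (x : X) : ∃ C : Cov X, (C.e 0).1 = chartAt ℂ x ∧ x ∈ interior (C.K 0) := by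
  classical
  have h1 : ∀ y : X, ∃ K : Set X, IsCompact K ∧ y ∈ interior K ∧ K ⊆ (chartAt ℂ y).source :=
    fun y => exists_compact_subset (chartAt ℂ y).open_source (mem_chart_source ℂ y)
  choose K hK hy hsub using h1
  obtain ⟨t, ht⟩ := isCompact_univ.elim_finite_subcover (fun y : X => interior (K y))
    (fun y => isOpen_interior) (fun y _ => mem_iUnion.2 ⟨y, hy y⟩)
  set f : ℕ → X := fun n => (x :: t.toList).getD n x with hf
  refine ⟨⟨t.toList.length + 1, fun n => ⟨chartAt ℂ (f n), chart_mem_atlas ℂ (f n)⟩,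
    fun n => K (f n), Nat.succ_pos _, fun n => hK _, fun n => hsub _, ?_⟩, rfl, hy x⟩
  intro y
  have h2 := ht (mem_univ y)
  simp only [mem_iUnion] at h2
  obtain ⟨a, ha, hya⟩ := h2
  obtain ⟨n, hn, hna⟩ := List.getElem_of_mem (Finset.mem_toList.2 ha)
  refine ⟨n + 1, by omega, ?_⟩
  have : f (n + 1) = a := by
    show (x :: t.toList).getD (n + 1) x = a
    rw [List.getD_cons_succ, List.getD_eq_getElem _ _ hn, hna]
  show y ∈ K (f (n + 1))
  rw [this]
  exact interior_subset hya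

section

variable {X : Type*} [TopologicalSpace X] [T2Space X] [CompactSpace X] [ConnectedSpace X]
  [ChartedSpace ℂ X] [IsManifold 𝓘(ℂ) ω X] [MeasurableSpace X] [BorelSpace X] {k : ℕ}

omit [T2Space X] [CompactSpace X] [ConnectedSpace X] [IsManifold 𝓘(ℂ) ω X] [MeasurableSpace X]
  [BorelSpace X] in
lemma comb_fn (C : Cov X) (b : Module.Basis (Fin k) ℂ (QD X)) (q : EuclideanSpace ℂ (Fin k))
    (x : ℕ × ℂ) : comb (fun i => C.fn (b i)) q x = C.fn (∑ i, q i • b i) x := by
  unfold comb Cov.fn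
  rw [Submodule.coe_sum, Finset.sum_apply, Finset.sum_apply]
  rfl

omit [CompactSpace X] [ConnectedSpace X] in
lemma tn_eq (C : Cov X) (b : Module.Basis (Fin k) ℂ (QD X)) (l : EuclideanSpace ℂ (Fin k)) :
    tn b l = dnrm C.m (fun i => C.fn (b i)) l := by
  unfold tn tnorm dnrm
  congr 1
  ext r
  constructor
  · rintro ⟨q, hq, rfl⟩
    refine ⟨(WithLp.equiv 2 (Fin k → ℂ)).symm (b.equivFun q), ?_, ?_⟩
    · rw [← hq, C.qnorm_eq]
      unfold nrm
      congr 1
      ext x
      rw [comb_fn]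
      congr 2
      show ∑ i, b.equivFun q i • b i = q
      exact b.sum_equivFun q
    · rw [LinearMap.sum_apply]
      congr 1
  · rintro ⟨q, hq, rfl⟩
    refine ⟨∑ i, q i • b i, ?_, ?_⟩
    · rw [← hq, C.qnorm_eq]
      unfold nrm
      congr 1
      ext x
      rw [comb_fn]
    · rw [LinearMap.sum_apply]
      congr 1
      refine Finset.sum_congr rfl fun i _ => ?_
      rw [LinearMap.smul_apply, smul_eq_mul]
      congr 1
      rw [Module.Basis.coord_apply, Module.Basis.repr_sum_self]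

/-- The disc. -/
def gm (p : ℂ) (ρ : ℝ) (z : ℂ) : ℕ × ℂ := (0, p + ρ * z)

omit [MeasurableSpace X] [BorelSpace X] in
lemma exists_hyp (b : Module.Basis (Fin k) ℂ (QD X)) (x : X) :
    ∃ (C : Cov X) (ρ : ℝ) (c : ℝ≥0∞), (C.e 0).1 = chartAt ℂ x ∧
      Hyp C.m (fun i => C.fn (b i)) (gm ((C.e 0).1 x) ρ) c := by
  obtain ⟨C, hC, hx⟩ := exists_cov x
  have hxs : x ∈ (C.e 0).1.source := C.sub 0 (interior_subset hx)
  have hopen : IsOpen ((C.e 0).1.target ∩ (C.e 0).1.symm ⁻¹' interior (C.K 0)) :=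
    (C.e 0).1.isOpen_inter_preimage_symm isOpen_interior
  set p := (C.e 0).1 x with hp
  have hmem : p ∈ (C.e 0).1.target ∩ (C.e 0).1.symm ⁻¹' interior (C.K 0) := by
    refine ⟨(C.e 0).1.map_source hxs, ?_⟩
    show (C.e 0).1.symm ((C.e 0).1 x) ∈ interior (C.K 0)
    rw [(C.e 0).1.left_inv hxs]
    exact hx
  obtain ⟨ρ, hρ, hball⟩ := Metric.isOpen_iff.1 hopen p hmem
  have hA : ball p ρ ⊆ C.A 0 := by
    intro z hz
    refine ⟨(hball hz).1, interior_subset (hball hz).2, ?_⟩
    simp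
  have hmaps : ∀ z ∈ ball (0 : ℂ) 1, p + ρ * z ∈ ball p ρ := by
    intro z hz
    rw [mem_ball_zero_iff] at hz
    rw [mem_ball, dist_eq_norm, add_sub_cancel_left, norm_mul, Complex.norm_real,
      Real.norm_of_nonneg hρ.le]
    exact mul_lt_of_lt_one_right hρ hz
  refine ⟨C, ρ, ENNReal.ofReal (ρ ^ 2), hC, ?_⟩
  refine ⟨fun i => C.fn_int (b i), ?_, ?_, ENNReal.ofReal_ne_top, ?_, ?_, ?_⟩
  · unfold gm
    fun_prop
  · rw [Ne, ENNReal.ofReal_eq_zero, not_le]
    positivity
  · rw [Measure.le_iff]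
    intro B hB
    have hmg : Measurable (gm p ρ) := by unfold gm; fun_prop
    rw [Measure.smul_apply, smul_eq_mul, Measure.map_apply hmg hB,
      Measure.restrict_apply (hmg hB)]
    have h1 : (volume.restrict (C.A 0)).map (fun z => ((0 : ℕ), z)) B ≤ C.m B := by
      unfold Cov.m
      rw [Measure.finsetSum_apply]
      exact Finset.single_le_sum
        (f := fun n => (volume.restrict (C.A n)).map (fun z : ℂ => (n, z)) B)
        (fun _ _ => bot_le) (Finset.mem_range.2 C.pos)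
    refine le_trans ?_ h1
    rw [(Cov.emb 0).map_apply, Measure.restrict_apply ((Cov.emb 0).measurable hB)]
    have h2 : gm p ρ ⁻¹' B ∩ ball 0 1 ⊆
        (fun z : ℂ => ρ • z) ⁻¹' ((fun w : ℂ => p + w) ⁻¹'
          ((fun z : ℂ => ((0 : ℕ), z)) ⁻¹' B ∩ C.A 0)) := by
      rintro z ⟨hz, hz'⟩
      have h3 : p + ρ • z = p + ρ * z := by rw [Complex.real_smul]
      show p + ρ • z ∈ (fun z : ℂ => ((0 : ℕ), z)) ⁻¹' B ∩ C.A 0
      rw [h3]
      exact ⟨hz, hA (hmaps z hz')⟩
    have h4 := measure_mono (μ := (volume : Measure ℂ)) h2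
    rw [Measure.addHaar_preimage_smul _ hρ.ne', measure_preimage_add,
      Complex.finrank_real_complex] at h4
    calc ENNReal.ofReal (ρ ^ 2) * volume (gm p ρ ⁻¹' B ∩ ball 0 1)
        ≤ ENNReal.ofReal (ρ ^ 2) * (ENNReal.ofReal |(ρ ^ 2)⁻¹| *
          volume ((fun z : ℂ => ((0 : ℕ), z)) ⁻¹' B ∩ C.A 0)) := by gcongr
      _ = volume ((fun z : ℂ => ((0 : ℕ), z)) ⁻¹' B ∩ C.A 0) := by
        rw [← mul_assoc, ← ENNReal.ofReal_mul (by positivity), abs_of_pos (by positivity),
          mul_inv_cancel₀ (by positivity), ENNReal.ofReal_one, one_mul]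
  · intro i
    have h1 : DifferentiableOn ℂ ((b i).1 (C.e 0)) (C.e 0).1.target := ((b i).2 (C.e 0)).1
    refine h1.comp (g := (b i).1 (C.e 0)) (f := fun z : ℂ => p + ρ * z) ?_ ?_
    · fun_prop
    · intro z hz
      exact (hA (hmaps z hz)).1
  · intro q hq
    have h1 : ∑ i, q i • b i = 0 := by
      apply ident _ (C.e 0) hmem.1
      filter_upwards [ball_mem_nhds p hρ] with z hz
      have h2 : (z - p) / ρ ∈ ball (0 : ℂ) 1 := by
        rw [mem_ball_zero_iff, norm_div, Complex.norm_real, Real.norm_of_nonneg hρ.le,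
          div_lt_one hρ]
        rwa [mem_ball, dist_eq_norm] at hz
      have h3 := hq _ h2
      rw [comb_fn] at h3
      have h4 : gm p ρ ((z - p) / ρ) = (0, z) := by
        unfold gm
        have : (ρ : ℂ) ≠ 0 := by exact_mod_cast hρ.ne'
        congr 1
        field_simp
        ring
      rw [h4] at h3
      exact h3
    have h5 := Fintype.linearIndependent_iff.1 b.linearIndependent (fun i => q i) h1
    ext i
    exact h5 i

/-- The flat direction: the Teichmüller norm of a compact Riemann surface with at least three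
linearly independent quadratic differentials is flat to second order in some complex direction
at some nonzero point. -/
theorem flat (b : Module.Basis (Fin k) ℂ (QD X)) (hk : 3 ≤ k) :
    ∃ l0 d : EuclideanSpace ℂ (Fin k), l0 ≠ 0 ∧ d ≠ 0 ∧ 1 ≤ tn b l0 ∧ Continuous (tn b) ∧
      ∀ M : ℝ, 0 < M → ∃ r : ℝ, 0 < r ∧ ∀ ζ : ℂ, ‖ζ‖ ≤ r →
        tn b (l0 + ζ • d) ≤ 1 + ‖ζ‖ ^ 2 / M := by
  have hb0 : b ⟨0, by omega⟩ ≠ 0 := b.ne_zero _
  obtain ⟨x, e, he, hne⟩ := exists_ne _ hb0
  obtain ⟨C, ρ, c, hC, H⟩ := exists_hyp b x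
  have hee : C.e 0 = e := Subtype.ext (hC.trans he.symm)
  -- the two linear conditions
  set α : Fin k → ℂ := fun i => C.fn (b i) (gm ((C.e 0).1 x) ρ 0) with hα
  set β : Fin k → ℂ := fun i => deriv (fun z => C.fn (b i) (gm ((C.e 0).1 x) ρ z)) 0 with hβ
  let L : EuclideanSpace ℂ (Fin k) →ₗ[ℂ] (Fin 2 → ℂ) :=
    { toFun := fun q => ![∑ i, q i * α i, ∑ i, q i * β i]
      map_add' := by
        intro p q
        ext j
        fin_cases j <;> simp [add_mul, Finset.sum_add_distrib]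
      map_smul' := by
        intro a q
        ext j
        fin_cases j <;> simp [Finset.mul_sum, mul_assoc] }
  have hker : LinearMap.ker L ≠ ⊥ := by
    apply LinearMap.ker_ne_bot_of_finrank_lt
    simp
    omega
  obtain ⟨q0, hq0, hq0ne⟩ := (Submodule.ne_bot_iff _).1 hker
  have hL : L q0 = 0 := hq0
  have h00 : comb (fun i => C.fn (b i)) q0 (gm ((C.e 0).1 x) ρ 0) = 0 := by
    have := congrFun hL 0
    exact this
  have h01 : deriv (fun z => comb (fun i => C.fn (b i)) q0 (gm ((C.e 0).1 x) ρ z)) 0 = 0 := by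
    have h1 := congrFun hL 1
    have h2 : ∑ i, q0 i * β i = 0 := h1
    refine Eq.trans ?_ h2
    unfold comb
    rw [deriv_fun_sum]
    · refine Finset.sum_congr rfl fun i _ => ?_
      rw [deriv_const_mul_field]
    · intro i _
      exact ((H.hol i).differentiableAt
        (isOpen_ball.mem_nhds (mem_ball_self one_pos))).const_mul _
  set bb : Fin k → ℕ × ℂ → ℂ := fun i => C.fn (b i) with hbb
  set γ := gm ((C.e 0).1 x) ρ with hγ
  have hn0 : 0 < nrm C.m bb q0 := by
    rcases (nrm_nonneg (m := C.m) (b := bb) q0).eq_or_lt with h | h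
    · exact absurd (H.definite h.symm) hq0ne
    · exact h
  set p0 : EuclideanSpace ℂ (Fin k) := ((nrm C.m bb q0)⁻¹ : ℝ) • q0 with hp0
  have hp1 : nrm C.m bb p0 = 1 := by
    rw [hp0, nrm_rsmul, abs_inv, abs_of_pos hn0, inv_mul_cancel₀ hn0.ne']
  have hp00 : comb bb p0 (γ 0) = 0 := by rw [hp0, comb_rsmul, h00, mul_zero]
  have hp01 : deriv (fun z => comb bb p0 (γ z)) 0 = 0 := by
    have : (fun z => comb bb p0 (γ z)) =
        fun z => (((nrm C.m bb q0)⁻¹ : ℝ) : ℂ) * comb bb q0 (γ z) := by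
      funext z; rw [hp0, comb_rsmul]
    rw [this, deriv_const_mul_field, h01, mul_zero]
  have hval : 1 ≤ dnrm C.m bb (nf C.m bb p0) := by
    unfold dnrm
    apply le_csSup (bdd H _)
    refine ⟨p0, hp1, ?_⟩
    rw [gap_self H.int, hp1]
    simp
  refine ⟨nf C.m bb p0, ev bb (γ 0), ?_, ?_, ?_, ?_, ?_⟩
  · intro h
    have h1 := gap_self H.int p0
    rw [h, hp1] at h1
    simp at h1
  · intro h
    apply hne
    have h1 := congrArg (fun l : EuclideanSpace ℂ (Fin k) => l ⟨0, by omega⟩) h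
    have h2 : bb ⟨0, by omega⟩ (γ 0) = 0 := h1
    have h3 : bb ⟨0, by omega⟩ (γ 0) = (b ⟨0, by omega⟩).1 e (e.1 x) := by
      rw [hbb, hγ, ← hee]
      unfold gm Cov.fn
      simp
    rw [← h3]
    exact h2
  · rw [tn_eq C b]
    exact hval
  · rw [show tn b = dnrm C.m bb from funext fun l => tn_eq C b l]
    exact dnrm_cont H ⟨p0, hp1⟩
  · intro M hM
    obtain ⟨r, hr, h⟩ := dnrm_upper H hp1 hp00 hp01 M hM
    refine ⟨r, hr, fun ζ hζ => ?_⟩
    rw [tn_eq C b]
    exact h ζ hζ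

end

end

end Pool.Agent.TNQ
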