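import Pool.Agent.TNQ.SurfArea
import Pool.Agent.TNQ.Main2

/-!
# Compact Riemann surfaces: the identity theorem and the model as an `L¹` space
-/

open scoped BigOperators Topology ENNReal Manifold ContDiff
open Metric Set MeasureTheory Filter

namespace Pool.Agent.TNQ

noncomputable section

section

variable {X : Type*} [TopologicalSpace X] [ChartedSpace ℂ X] [IsManifold 𝓘(ℂ) ω X]

lemma ev_indep (q : QD X) (e e' : atlas ℂ X) {x : X} (hx : x ∈ e.1.source)
    (hx' : x ∈ e'.1.source) (h : ∀ᶠ z in 𝓝 (e.1 x), q.1 e z = 0) :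
    ∀ᶠ z in 𝓝 (e'.1 x), q.1 e' z = 0 := by
  have hmem : e'.1 x ∈ trd e' e := by
    refine ⟨e'.1.map_source hx', ?_⟩
    show e'.1.symm (e'.1 x) ∈ e.1.source
    rw [e'.1.left_inv hx']
    exact hx
  have hc : ContinuousAt (tr e' e) (e'.1 x) := (tr_diffAt e' e hmem).continuousAt
  have hval : tr e' e (e'.1 x) = e.1 x := by
    show e.1 (e'.1.symm (e'.1 x)) = e.1 x
    rw [e'.1.left_inv hx']
  have h1 : ∀ᶠ z in 𝓝 (e'.1 x), q.1 e (tr e' e z) = 0 := by
    have h' : ∀ᶠ w in 𝓝 (tr e' e (e'.1 x)), q.1 e w = 0 := by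
      rw [hval]
      exact h
    exact hc.tendsto.eventually h'
  filter_upwards [h1, (trd_open e' e).mem_nhds hmem] with z hz hz'
  rw [(q.2 e').2.2 e z hz'.1 hz'.2]
  have : q.1 e (e.1 (e'.1.symm z)) = 0 := hz
  rw [this, zero_mul]

/-- The identity theorem. -/
lemma ident [ConnectedSpace X] (q : QD X) (e : atlas ℂ X) {z₀ : ℂ} (hz₀ : z₀ ∈ e.1.target)
    (h : ∀ᶠ z in 𝓝 z₀, q.1 e z = 0) : q = 0 := by
  set S : Set X := {x | ∃ e : atlas ℂ X, x ∈ e.1.source ∧ ∀ᶠ z in 𝓝 (e.1 x), q.1 e z = 0} with hS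
  have hopen : IsOpen S := by
    rw [isOpen_iff_mem_nhds]
    rintro x ⟨e, hx, hex⟩
    have h1 : ∀ᶠ y in 𝓝 x, ∀ᶠ z in 𝓝 (e.1 y), q.1 e z = 0 :=
      (e.1.continuousAt hx).eventually (eventually_eventually_nhds.2 hex)
    filter_upwards [h1, e.1.open_source.mem_nhds hx] with y hy hy'
    exact ⟨e, hy', hy⟩
  have hclosed : IsClosed S := by
    rw [← closure_subset_iff_isClosed]
    intro x hx
    set e : atlas ℂ X := ⟨chartAt ℂ x, chart_mem_atlas ℂ x⟩ with he
    have hxe : x ∈ e.1.source := mem_chart_source ℂ x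
    obtain ⟨r, hr, hball⟩ := Metric.isOpen_iff.1 e.1.open_target (e.1 x) (e.1.map_source hxe)
    have hV : e.1.source ∩ e.1 ⁻¹' ball (e.1 x) r ∈ 𝓝 x :=
      (e.1.isOpen_inter_preimage isOpen_ball).mem_nhds ⟨hxe, mem_ball_self hr⟩
    obtain ⟨y, hyV, e', hy, hy'⟩ := mem_closure_iff_nhds.1 hx _ hV
    have h1 := ev_indep q e' e hy hyV.1 hy'
    have han : AnalyticOnNhd ℂ (q.1 e) (ball (e.1 x) r) :=
      ((q.2 e).1.mono hball).analyticOnNhd isOpen_ball
    have h2 := han.eqOn_zero_of_preconnected_of_eventuallyEq_zero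
      (convex_ball _ _).isPreconnected hyV.2 h1
    refine ⟨e, hxe, ?_⟩
    filter_upwards [ball_mem_nhds (e.1 x) hr] with z hz
    exact h2 hz
  have hne : S.Nonempty := by
    refine ⟨e.1.symm z₀, e, e.1.map_target hz₀, ?_⟩
    rw [e.1.right_inv hz₀]
    exact h
  have huniv : S = univ := IsClopen.eq_univ ⟨hclosed, hopen⟩ hne
  apply Subtype.ext
  funext e z
  by_cases hz : z ∈ e.1.target
  · obtain ⟨e', hx, hx'⟩ : e.1.symm z ∈ S := huniv ▸ mem_univ _
    have h1 := ev_indep q e' e hx (e.1.map_target hz) hx'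
    rw [e.1.right_inv hz] at h1
    exact h1.self_of_nhds
  · rw [(q.2 e).2.1 z hz]
    rfl

omit [IsManifold 𝓘(ℂ) ω X] in
lemma exists_ne (q : QD X) (hq : q ≠ 0) : ∃ x : X, ∃ e : atlas ℂ X, e.1 = chartAt ℂ x ∧
    q.1 e (e.1 x) ≠ 0 := by
  by_contra hcon
  push Not at hcon
  apply hq
  apply Subtype.ext
  funext e z
  by_cases hz : z ∈ e.1.target
  · set x := e.1.symm z with hx
    have h1 := hcon x ⟨chartAt ℂ x, chart_mem_atlas ℂ x⟩ rfl
    rw [(q.2 e).2.2 ⟨chartAt ℂ x, chart_mem_atlas ℂ x⟩ z hz (mem_chart_source ℂ x)]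
    have h2 : q.1 ⟨chartAt ℂ x, chart_mem_atlas ℂ x⟩ ((chartAt ℂ x) (e.1.symm z)) = 0 := h1
    show q.1 ⟨chartAt ℂ x, chart_mem_atlas ℂ x⟩ ((chartAt ℂ x) (e.1.symm z)) * _ = 0
    rw [h2, zero_mul]
  · rw [(q.2 e).2.1 z hz]
    rfl

end

/-! ## The model -/

/-- The data of a finite covering by compact subsets of charts. -/
structure Cov (X : Type*) [TopologicalSpace X] [ChartedSpace ℂ X] where
  N : ℕ
  e : ℕ → atlas ℂ X
  K : ℕ → Set X
  pos : 0 < N
  comp : ∀ n, IsCompact (K n)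
  sub : ∀ n, K n ⊆ (e n).1.source
  cov : ∀ x, ∃ n < N, x ∈ K n

namespace Cov

variable {X : Type*} [TopologicalSpace X] [ChartedSpace ℂ X] (C : Cov X)

/-- The disjoint pieces. -/
def D (n : ℕ) : Set X := C.K n \ ⋃ k ∈ Finset.range n, C.K k

/-- The images of the pieces in the charts. -/
def A (n : ℕ) : Set ℂ := (C.e n).1.target ∩ (C.e n).1.symm ⁻¹' C.D n

lemma D_sub (n : ℕ) : C.D n ⊆ C.K n := fun _ hx => hx.1

lemma A_sub (n : ℕ) : C.A n ⊆ (C.e n).1 '' C.K n := by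
  rintro z ⟨hz, hz'⟩
  exact ⟨(C.e n).1.symm z, C.D_sub n hz', (C.e n).1.right_inv hz⟩

lemma D_disj : Pairwise (Function.onFun Disjoint C.D) := by
  have key : ∀ i j, i < j → Disjoint (C.D i) (C.D j) := by
    intro i j hij
    rw [Set.disjoint_left]
    intro x hx hx'
    apply hx'.2
    simp only [mem_iUnion]
    exact ⟨i, Finset.mem_range.2 hij, C.D_sub i hx⟩
  intro i j hij
  rcases lt_or_gt_of_ne hij with h | h
  · exact key i j h
  · exact (key j i h).symm

lemma D_cov : ⋃ n ∈ Finset.range C.N, C.D n = univ := by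
  classical
  apply eq_univ_of_forall
  intro x
  have h := C.cov x
  have hex : ∃ n, x ∈ C.K n := ⟨_, h.choose_spec.2⟩
  have hle : Nat.find hex ≤ h.choose := Nat.find_min' hex h.choose_spec.2
  simp only [mem_iUnion]
  refine ⟨Nat.find hex, Finset.mem_range.2 (hle.trans_lt h.choose_spec.1), Nat.find_spec hex, ?_⟩
  simp only [mem_iUnion]
  rintro ⟨k, hk, hk'⟩
  exact Nat.find_min hex (Finset.mem_range.1 hk) hk'

variable [T2Space X] [MeasurableSpace X] [BorelSpace X]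

lemma D_meas (n : ℕ) : MeasurableSet (C.D n) :=
  (C.comp n).measurableSet.diff
    (Finset.measurableSet_biUnion _ fun k _ => (C.comp k).measurableSet)

lemma A_meas (n : ℕ) : MeasurableSet (C.A n) := meas_pre (C.e n) (C.D_meas n)

/-- The measure space. -/
def m : Measure (ℕ × ℂ) :=
  ∑ n ∈ Finset.range C.N, (volume.restrict (C.A n)).map (fun z => (n, z))

omit [T2Space X] [MeasurableSpace X] [BorelSpace X] in
lemma emb (n : ℕ) : MeasurableEmbedding (fun z : ℂ => (n, z)) := by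
  refine ⟨fun a b h => (Prod.mk.inj h).2, measurable_prodMk_left, fun {s} hs => ?_⟩
  have : (fun z : ℂ => (n, z)) '' s = ({n} : Set ℕ) ×ˢ s := by
    ext ⟨k, z⟩
    simp [and_comm, eq_comm]
  rw [this]
  exact (measurableSet_singleton n).prod hs

omit [T2Space X] [MeasurableSpace X] [BorelSpace X] in
lemma lint (f : ℕ × ℂ → ℝ≥0∞) :
    ∫⁻ x, f x ∂C.m = ∑ n ∈ Finset.range C.N, ∫⁻ z in C.A n, f (n, z) := by
  unfold m
  rw [lintegral_finsetSum_measure]
  refine Finset.sum_congr rfl fun n _ => ?_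
  rw [(emb n).lintegral_map]

/-- The functions of the model. -/
def fn (q : QD X) (x : ℕ × ℂ) : ℂ := q.1 (C.e x.1) x.2

omit [T2Space X] [MeasurableSpace X] [BorelSpace X] in
lemma fn_int (q : QD X) : Integrable (C.fn q) C.m := by
  unfold m
  rw [integrable_finsetSum_measure]
  intro n _
  rw [(emb n).integrable_map_iff]
  have hK : IsCompact ((C.e n).1 '' C.K n) :=
    (C.comp n).image_of_continuousOn ((C.e n).1.continuousOn.mono (C.sub n))
  have hsub : (C.e n).1 '' C.K n ⊆ (C.e n).1.target := by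
    rintro _ ⟨x, hx, rfl⟩
    exact (C.e n).1.map_source (C.sub n hx)
  have h1 : IntegrableOn (q.1 (C.e n)) ((C.e n).1 '' C.K n) volume :=
    ((q.2 (C.e n)).1.continuousOn.mono hsub).integrableOn_compact hK
  exact h1.mono_set (C.A_sub n)

lemma qnorm_eq [IsManifold 𝓘(ℂ) ω X] (q : QD X) : qnorm q = ∫ x, ‖C.fn q x‖ ∂C.m := by
  rw [integral_norm_eq_lintegral_enorm (C.fn_int q).aestronglyMeasurable, C.lint]
  unfold qnorm
  rw [area_univ q C.N C.D C.e C.D_meas (fun n => (C.D_sub n).trans (C.sub n)) C.D_disj C.D_cov]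
  rfl

end Cov

end

end Pool.Agent.TNQ
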