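import Pool.Agent.TNQ.SurfEst
import Pool.Agent.TNQ.SurfDefs2

/-!
# The Teichmüller norm is not strictly plurisubharmonic: every compact Riemann surface
-/

open scoped BigOperators Topology ENNReal Manifold ContDiff
open Metric Set MeasureTheory Filter

namespace Pool.Agent.TNQ

noncomputable section

/-- The lower bound for the mean of the square of the norm of a holomorphic curve. -/
lemma surf_mean_lower {E : Type*} [NormedAddCommGroup E] [InnerProductSpace ℂ E]
    [CompleteSpace E] (G : ℂ → E) (t κ : ℝ) (ht : 0 < t)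
    (hκ : 0 ≤ κ) (hG : DifferentiableOn ℂ G (ball 0 (2 * t)))
    (hlow : ∀ ζ : ℂ, ‖ζ‖ ≤ t → κ * ‖ζ‖ ≤ ‖G ζ - G 0‖) :
    2 * Real.pi * (‖G 0‖ ^ 2 + κ ^ 2 * t ^ 2) ≤
      ∫ θ in (0 : ℝ)..(2 * Real.pi), ‖G ((t : ℂ) * Complex.exp (θ * Complex.I))‖ ^ 2 := by
  have hpi := Real.pi_pos
  have hnorm : ∀ θ : ℝ, ‖(t : ℂ) * Complex.exp (θ * Complex.I)‖ = t := by
    intro θ
    rw [norm_mul, Complex.norm_exp_ofReal_mul_I, mul_one, Complex.norm_real,
      Real.norm_of_nonneg ht.le]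
  have hcont : Continuous (fun θ : ℝ => G ((t : ℂ) * Complex.exp (θ * Complex.I))) := by
    rw [← continuousOn_univ]
    refine hG.continuousOn.comp (f := fun θ : ℝ => (t : ℂ) * Complex.exp (θ * Complex.I))
      (by fun_prop) ?_
    intro θ _
    rw [mem_ball_zero_iff, hnorm]
    linarith
  have hmean : ∫ θ in (0 : ℝ)..(2 * Real.pi), G ((t : ℂ) * Complex.exp (θ * Complex.I)) =
      (2 * Real.pi) • G 0 := by
    have h1 : DiffContOnCl ℂ G (ball 0 |t|) := by
      rw [abs_of_pos ht]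
      refine ⟨hG.mono (ball_subset_ball (by linarith)), ?_⟩
      apply hG.continuousOn.mono
      exact closure_ball_subset_closedBall.trans (closedBall_subset_ball (by linarith))
    have h2 := h1.circleAverage
    rw [Real.circleAverage_def] at h2
    have h3 : ∫ θ in (0 : ℝ)..(2 * Real.pi), G (circleMap 0 t θ) =
        ∫ θ in (0 : ℝ)..(2 * Real.pi), G ((t : ℂ) * Complex.exp (θ * Complex.I)) := by
      congr 1
      ext θ
      rw [circleMap_zero]
    rw [h3] at h2
    rw [← h2, smul_smul, mul_inv_cancel₀ (by positivity), one_smul]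
  have hI0 : IntervalIntegrable (fun θ : ℝ => G ((t : ℂ) * Complex.exp (θ * Complex.I)) - G 0)
      volume 0 (2 * Real.pi) := (hcont.sub continuous_const).intervalIntegrable _ _
  have hzero : ∫ θ in (0 : ℝ)..(2 * Real.pi),
      (G ((t : ℂ) * Complex.exp (θ * Complex.I)) - G 0) = 0 := by
    rw [intervalIntegral.integral_sub (hcont.intervalIntegrable _ _) intervalIntegrable_const,
      hmean, intervalIntegral.integral_const]
    simp
  have hinner : ∫ θ in (0 : ℝ)..(2 * Real.pi),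
      (inner ℂ (G 0) (G ((t : ℂ) * Complex.exp (θ * Complex.I)) - G 0)).re = 0 := by
    have h1 := (Complex.reCLM.comp ((innerSL ℂ (G 0)).restrictScalars ℝ)).intervalIntegral_comp_comm
      hI0
    rw [hzero, map_zero] at h1
    exact h1
  have hexp : ∀ θ : ℝ, ‖G 0‖ ^ 2 +
      2 * (inner ℂ (G 0) (G ((t : ℂ) * Complex.exp (θ * Complex.I)) - G 0)).re + κ ^ 2 * t ^ 2 ≤
      ‖G ((t : ℂ) * Complex.exp (θ * Complex.I))‖ ^ 2 := by
    intro θ
    set z := (t : ℂ) * Complex.exp (θ * Complex.I) with hz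
    have h1 : G z = G 0 + (G z - G 0) := by abel
    have h2 : ‖G z‖ ^ 2 = ‖G 0‖ ^ 2 + 2 * (inner ℂ (G 0) (G z - G 0)).re + ‖G z - G 0‖ ^ 2 := by
      conv_lhs => rw [h1]
      rw [@norm_add_sq ℂ]
      rfl
    rw [h2]
    have h3 := hlow z (hnorm θ).le
    rw [hnorm θ] at h3
    have h4 : (κ * t) ^ 2 ≤ ‖G z - G 0‖ ^ 2 := pow_le_pow_left₀ (by positivity) h3 2
    rw [mul_pow] at h4
    linarith
  have hci : Continuous (fun θ : ℝ =>
      (inner ℂ (G 0) (G ((t : ℂ) * Complex.exp (θ * Complex.I)) - G 0)).re) :=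
    Complex.continuous_re.comp (Continuous.inner continuous_const (hcont.sub continuous_const))
  have hcl : Continuous (fun θ : ℝ => ‖G 0‖ ^ 2 +
      2 * (inner ℂ (G 0) (G ((t : ℂ) * Complex.exp (θ * Complex.I)) - G 0)).re +
      κ ^ 2 * t ^ 2) :=
    (continuous_const.add (hci.const_mul 2 |>.congr fun _ => rfl)).add continuous_const
  refine le_trans (le_of_eq ?_) (intervalIntegral.integral_mono_on (by positivity)
    (hcl.intervalIntegrable _ _) ((hcont.norm.pow 2).intervalIntegrable _ _) fun θ _ => hexp θ)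
  rw [intervalIntegral.integral_add, intervalIntegral.integral_add,
    intervalIntegral.integral_const_mul, hinner, intervalIntegral.integral_const,
    intervalIntegral.integral_const]
  · simp
    ring
  · exact intervalIntegrable_const
  · exact (hci.const_mul 2 |>.congr fun _ => rfl).intervalIntegrable _ _
  · exact (continuous_const.add (hci.const_mul 2 |>.congr fun _ => rfl)).intervalIntegrable _ _
  · exact intervalIntegrable_const

/-- The main theorem: if the fibre `Q(X)^*` over the compact Riemann surface `X` (with at least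
three linearly independent quadratic differentials) is immersed holomorphically by `j` into a
complex manifold `M`, then no function `u` on `M` which restricts to the Teichmüller norm on the
fibre is strictly plurisubharmonic on an open set containing the nonzero vectors of the fibre. -/
theorem surface_main (X : Type*) [TopologicalSpace X] [T2Space X] [CompactSpace X]
    [ConnectedSpace X] [ChartedSpace ℂ X] [IsManifold 𝓘(ℂ) ω X] [MeasurableSpace X]
    [BorelSpace X] (k : ℕ) (hk : 3 ≤ k) (b : Module.Basis (Fin k) ℂ (QD X))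
    (E : Type*) [NormedAddCommGroup E] [InnerProductSpace ℂ E] [FiniteDimensional ℂ E]
    (M : Type*) [TopologicalSpace M] [ChartedSpace E M]
    [IsManifold 𝓘(ℂ, E) ω M]
    (j : EuclideanSpace ℂ (Fin k) → M)
    (hj : MDifferentiable 𝓘(ℂ, EuclideanSpace ℂ (Fin k)) 𝓘(ℂ, E) j)
    (himm : ∀ l, l ≠ 0 → Function.Injective
      (mfderiv 𝓘(ℂ, EuclideanSpace ℂ (Fin k)) 𝓘(ℂ, E) j l))
    (u : M → ℝ) (hu : ∀ l, u (j l) = tn b l) (O : Set M) (hO : ∀ l, l ≠ 0 → j l ∈ O) :
    ¬ StrictPsh (E := E) u O := by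
  have : CompleteSpace E := FiniteDimensional.complete ℂ E
  intro hS
  obtain ⟨l0, d, hl0, hd, h1, hcont, hflat⟩ := flat b hk
  obtain ⟨w, hw, haw, ε, hε, U, hU, haU, hUw, hUO, hpsh⟩ := hS (j l0) (hO l0 hl0)
  set A : ℂ → EuclideanSpace ℂ (Fin k) := fun ζ => l0 + ζ • d with hA
  have hAd : Differentiable ℂ A := by
    rw [hA]
    exact (differentiable_const _).add (differentiable_id.smul_const _)
  have hA0 : A 0 = l0 := by simp [hA]
  have hAderiv : HasDerivAt A d 0 := by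
    have h := (hasDerivAt_id (0 : ℂ)).smul_const d
    have h' := h.const_add l0
    simpa [hA] using h'
  have hjA : MDifferentiable 𝓘(ℂ) 𝓘(ℂ, E) (j ∘ A) :=
    hj.comp hAd.mdifferentiable
  have hV : IsOpen ((j ∘ A) ⁻¹' U) := hU.preimage hjA.continuous
  have h0V : (0 : ℂ) ∈ (j ∘ A) ⁻¹' U := by
    show j (A 0) ∈ U
    rw [hA0]
    exact haU
  obtain ⟨δ, hδ, hball⟩ := Metric.isOpen_iff.1 hV 0 h0V
  set G : ℂ → E := fun ζ => w (j (A ζ)) with hG
  have hwd : ∀ x ∈ w.source, MDifferentiableAt 𝓘(ℂ, E)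
      𝓘(ℂ, E) w x := fun x hx =>
    ((contMDiffOn_of_mem_maximalAtlas hw).mdifferentiableOn (by simp)).mdifferentiableAt
      (w.open_source.mem_nhds hx)
  have hws : ∀ x ∈ w.target, MDifferentiableAt 𝓘(ℂ, E)
      𝓘(ℂ, E) w.symm x := fun x hx =>
    ((contMDiffOn_symm_of_mem_maximalAtlas hw).mdifferentiableOn (by simp)).mdifferentiableAt
      (w.open_target.mem_nhds hx)
  have hGd : ∀ ζ ∈ ball (0 : ℂ) δ, DifferentiableAt ℂ G ζ := by
    intro ζ hζ
    have h2 : MDifferentiableAt 𝓘(ℂ) 𝓘(ℂ, E) G ζ :=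
      (hwd _ (hUw (hball hζ))).comp ζ (hjA ζ)
    exact h2.differentiableAt
  have hG0 : DifferentiableAt ℂ G 0 := hGd 0 (mem_ball_self hδ)
  set κ := ‖deriv G 0‖ with hκ
  have hκpos : 0 < κ := by
    rw [hκ, norm_pos_iff]
    intro h0
    have e1 : (w.symm ∘ G) =ᶠ[𝓝 0] (j ∘ A) := by
      filter_upwards [ball_mem_nhds (0 : ℂ) hδ] with ζ hζ
      exact w.left_inv (hUw (hball hζ))
    have hwt : G 0 ∈ w.target := by
      show w (j (A 0)) ∈ w.target
      rw [hA0]
      exact w.map_source haw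
    have hGf := hG0.hasDerivAt.hasFDerivAt
    rw [h0] at hGf
    have hm2 := (hws _ hwt).hasMFDerivAt.comp 0 hGf.hasMFDerivAt
    have hm3 := (hj (A 0)).hasMFDerivAt.comp 0 hAderiv.hasFDerivAt.hasMFDerivAt
    have hm4 := hm3.congr_of_eventuallyEq e1
    have hm5 := hasMFDerivAt_unique hm4 hm2
    have h8 := congrArg (fun T : ℂ →L[ℂ] E => T 1) hm5
    have h9 : (mfderiv 𝓘(ℂ, EuclideanSpace ℂ (Fin k)) 𝓘(ℂ, E) j
        (A 0)) ((1 : ℂ) • d) = (mfderiv 𝓘(ℂ, E)
          𝓘(ℂ, E) w.symm (G 0))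
            ((1 : ℂ) • (0 : E)) := h8
    rw [one_smul, smul_zero] at h9
    have h10 : (mfderiv 𝓘(ℂ, E) 𝓘(ℂ, E) w.symm
        (G 0)) (0 : TangentSpace 𝓘(ℂ, E) (G 0)) = 0 :=
      ContinuousLinearMap.map_zero _
    have h11 : (mfderiv 𝓘(ℂ, EuclideanSpace ℂ (Fin k)) 𝓘(ℂ, E) j
        (A 0)) (0 : TangentSpace 𝓘(ℂ, EuclideanSpace ℂ (Fin k)) (A 0)) = 0 :=
      ContinuousLinearMap.map_zero _
    have h12 := h9.trans h10
    have h13 := h12.trans h11.symm
    exact hd (himm (A 0) (by rw [hA0]; exact hl0) h13)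
  -- the lower bound near zero
  have hlow : ∃ t₀ : ℝ, 0 < t₀ ∧ ∀ ζ : ℂ, ‖ζ‖ < t₀ → (κ / 2) * ‖ζ‖ ≤ ‖G ζ - G 0‖ := by
    have h2 := hG0.hasDerivAt
    rw [hasDerivAt_iff_isLittleO, Asymptotics.isLittleO_iff] at h2
    have h3 := h2 (show 0 < κ / 2 by positivity)
    obtain ⟨t₀, ht₀, h4⟩ := Metric.eventually_nhds_iff.1 h3
    refine ⟨t₀, ht₀, fun ζ hζ => ?_⟩
    have h5 := h4 (y := ζ) (by rwa [dist_zero_right])
    rw [sub_zero] at h5
    have h6 : ‖ζ • deriv G 0‖ = κ * ‖ζ‖ := by rw [norm_smul, mul_comm]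
    have h7 : ‖ζ • deriv G 0‖ ≤ ‖G ζ - G 0‖ + ‖G ζ - G 0 - ζ • deriv G 0‖ := by
      have : ζ • deriv G 0 = (G ζ - G 0) - (G ζ - G 0 - ζ • deriv G 0) := by abel
      conv_lhs => rw [this]
      exact norm_sub_le _ _
    linarith
  obtain ⟨t₀, ht₀, hlow⟩ := hlow
  obtain ⟨r, hr, hup⟩ := hflat (8 / (ε * κ ^ 2)) (by positivity)
  set t : ℝ := min r (min (δ / 4) (t₀ / 2)) with ht
  have htpos : 0 < t := by positivity
  have htr : t ≤ r := min_le_left _ _
  have htδ : t ≤ δ / 4 := (min_le_right _ _).trans (min_le_left _ _)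
  have htt : t ≤ t₀ / 2 := (min_le_right _ _).trans (min_le_right _ _)
  have hpi := Real.pi_pos
  have hml := surf_mean_lower G t (κ / 2) htpos (by positivity)
    (fun ζ hζ => (hGd ζ (by
      rw [mem_ball_zero_iff] at hζ ⊢
      linarith)).differentiableWithinAt)
    (fun ζ hζ => hlow ζ (by linarith))
  -- the disc
  obtain ⟨hI, hpsh⟩ := hpsh.2 2 (fun ζ => j (A ((t : ℂ) * ζ))) (by norm_num)
    (by
      intro ζ _
      have h2 : MDifferentiableAt 𝓘(ℂ) 𝓘(ℂ, EuclideanSpace ℂ (Fin k))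
          (fun ζ : ℂ => A ((t : ℂ) * ζ)) ζ := by
        apply DifferentiableAt.mdifferentiableAt
        exact (hAd _).comp ζ ((differentiableAt_const _).mul differentiableAt_id)
      exact ((hj _).comp ζ h2).mdifferentiableWithinAt)
    (by
      intro ζ hζ
      apply hball
      rw [mem_ball_zero_iff] at hζ ⊢
      rw [norm_mul, Complex.norm_real, Real.norm_of_nonneg htpos.le]
      nlinarith [norm_nonneg ζ])
  simp only [mul_zero] at hpsh
  have hcf : Continuous (fun θ : ℝ => A ((t : ℂ) * Complex.exp (θ * Complex.I))) :=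
    hAd.continuous.comp (by fun_prop)
  have hnorm : ∀ θ : ℝ, ‖(t : ℂ) * Complex.exp (θ * Complex.I)‖ = t := by
    intro θ
    rw [norm_mul, Complex.norm_exp_ofReal_mul_I, mul_one, Complex.norm_real,
      Real.norm_of_nonneg htpos.le]
  have hint1 : IntervalIntegrable (fun θ : ℝ =>
      tn b (A ((t : ℂ) * Complex.exp (θ * Complex.I)))) volume 0 (2 * Real.pi) :=
    (hcont.comp hcf).intervalIntegrable _ _
  have hGc : Continuous (fun θ : ℝ => G ((t : ℂ) * Complex.exp (θ * Complex.I))) := by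
    rw [continuous_iff_continuousAt]
    intro θ
    have h2 : ContinuousAt G ((t : ℂ) * Complex.exp (θ * Complex.I)) :=
      (hGd _ (by rw [mem_ball_zero_iff, hnorm]; linarith)).continuousAt
    exact ContinuousAt.comp (g := G) (f := fun θ : ℝ => (t : ℂ) * Complex.exp (θ * Complex.I))
      h2 (by fun_prop)
  have hint2 : IntervalIntegrable (fun θ : ℝ =>
      ε * ‖G ((t : ℂ) * Complex.exp (θ * Complex.I))‖ ^ 2) volume 0 (2 * Real.pi) :=
    ((hGc.norm.pow 2).const_mul ε |>.congr fun _ => rfl).intervalIntegrable _ _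
  have hpsh' : tn b l0 - ε * ‖G 0‖ ^ 2 ≤ (2 * Real.pi)⁻¹ *
      ∫ θ in (0 : ℝ)..(2 * Real.pi), (tn b (A ((t : ℂ) * Complex.exp (θ * Complex.I))) -
        ε * ‖G ((t : ℂ) * Complex.exp (θ * Complex.I))‖ ^ 2) := by
    have h2 : u (j (A 0)) = tn b l0 := by rw [hu, hA0]
    rw [h2] at hpsh
    refine hpsh.trans (le_of_eq ?_)
    congr 2
    ext θ
    rw [hu]
  rw [intervalIntegral.integral_sub hint1 hint2, intervalIntegral.integral_const_mul] at hpsh'
  have hI2 : ∫ θ in (0 : ℝ)..(2 * Real.pi),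
      tn b (A ((t : ℂ) * Complex.exp (θ * Complex.I))) ≤
      2 * Real.pi * (1 + t ^ 2 / (8 / (ε * κ ^ 2))) := by
    have h2 : ∫ θ in (0 : ℝ)..(2 * Real.pi),
        tn b (A ((t : ℂ) * Complex.exp (θ * Complex.I))) ≤
        ∫ _ in (0 : ℝ)..(2 * Real.pi), (1 + t ^ 2 / (8 / (ε * κ ^ 2))) := by
      apply intervalIntegral.integral_mono_on (by positivity) hint1 intervalIntegrable_const
      intro θ _
      have h3 := hup ((t : ℂ) * Complex.exp (θ * Complex.I)) (by rw [hnorm]; exact htr)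
      rw [hnorm] at h3
      exact h3
    rw [intervalIntegral.integral_const] at h2
    simpa using h2
  have hfin : t ^ 2 / (8 / (ε * κ ^ 2)) = ε * (κ ^ 2 * t ^ 2) / 8 := by
    field_simp
  rw [hfin] at hI2
  have hγ2 : tn b l0 - ε * ‖G 0‖ ^ 2 ≤
      (1 + ε * (κ ^ 2 * t ^ 2) / 8) - ε * (‖G 0‖ ^ 2 + (κ / 2) ^ 2 * t ^ 2) := by
    refine hpsh'.trans ?_
    rw [inv_mul_le_iff₀ (by positivity)]
    have h2 := mul_le_mul_of_nonneg_left hml hε.le
    calc _ ≤ 2 * Real.pi * (1 + ε * (κ ^ 2 * t ^ 2) / 8) -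
          ε * (2 * Real.pi * (‖G 0‖ ^ 2 + (κ / 2) ^ 2 * t ^ 2)) := sub_le_sub hI2 h2
      _ = _ := by ring
  have hpos : 0 < ε * (κ ^ 2 * t ^ 2) := by positivity
  nlinarith

/-- The main theorem, in terms of `FibreIn`. -/
theorem fibre_main (X : Type*) [TopologicalSpace X] [T2Space X] [CompactSpace X]
    [ConnectedSpace X] [ChartedSpace ℂ X] [IsManifold 𝓘(ℂ) ω X] [MeasurableSpace X]
    [BorelSpace X] (hk : 3 ≤ Module.finrank ℂ (QSp X))
    (V : Type*) [NormedAddCommGroup V] [NormedSpace ℂ V] (φ : V ≃ₗ[ℂ] (QSp X →ₗ[ℂ] ℂ))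
    (E : Type*) [NormedAddCommGroup E] [InnerProductSpace ℂ E] [FiniteDimensional ℂ E]
    (M : Type*) [TopologicalSpace M] [ChartedSpace E M] [IsManifold 𝓘(ℂ, E) ω M]
    (j : V → M) (u : M → ℝ) (O : Set M) (h : FibreIn (E := E) (qn (X := X)) φ j u O) :
    ¬ StrictPsh (E := E) u O := by
  have hfin : FiniteDimensional ℂ (QSp X) := FiniteDimensional.of_finrank_pos (by omega)
  have hfin2 : FiniteDimensional ℂ (QD X) := hfin
  have hV : FiniteDimensional ℂ V := φ.symm.finiteDimensional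
  set k := Module.finrank ℂ (QSp X) with hkdef
  let b : Module.Basis (Fin k) ℂ (QD X) := Module.finBasis ℂ (QSp X)
  -- the coordinates on the dual space
  let c : EuclideanSpace ℂ (Fin k) ≃ₗ[ℂ] (QSp X →ₗ[ℂ] ℂ) :=
    (WithLp.linearEquiv 2 ℂ (Fin k → ℂ)).trans b.dualBasis.equivFun.symm
  have hc : ∀ l : EuclideanSpace ℂ (Fin k), c l = ∑ i, l i • b.coord i := by
    intro l
    show b.dualBasis.equivFun.symm (WithLp.linearEquiv 2 ℂ (Fin k → ℂ) l) = _
    rw [Module.Basis.equivFun_symm_apply]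
    refine Finset.sum_congr rfl fun i _ => ?_
    congr 1
    exact congrFun (b.coe_dualBasis) i
  let e : EuclideanSpace ℂ (Fin k) ≃L[ℂ] V := (c.trans φ.symm).toContinuousLinearEquiv
  have he : ∀ l, φ (e l) = ∑ i, l i • b.coord i := by
    intro l
    rw [← hc]
    exact φ.apply_symm_apply (c l)
  have hed : ∀ l, MDifferentiableAt 𝓘(ℂ, EuclideanSpace ℂ (Fin k)) 𝓘(ℂ, V) e l := fun l =>
    (e : EuclideanSpace ℂ (Fin k) →L[ℂ] V).differentiableAt.mdifferentiableAt
  refine surface_main X k hk b E M (fun l => j (e l)) (fun l => (h.hol _).comp l (hed l)) ?_ u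
    ?_ O ?_
  · intro l hl
    have h1 : mfderiv 𝓘(ℂ, EuclideanSpace ℂ (Fin k)) 𝓘(ℂ, E) (fun l => j (e l)) l =
        (mfderiv 𝓘(ℂ, V) 𝓘(ℂ, E) j (e l)).comp
          (mfderiv 𝓘(ℂ, EuclideanSpace ℂ (Fin k)) 𝓘(ℂ, V) e l) :=
      mfderiv_comp l (h.hol _) (hed l)
    have h2 : mfderiv 𝓘(ℂ, EuclideanSpace ℂ (Fin k)) 𝓘(ℂ, V) e l =
        (e : EuclideanSpace ℂ (Fin k) →L[ℂ] V) := by
      rw [mfderiv_eq_fderiv]
      exact (e : EuclideanSpace ℂ (Fin k) →L[ℂ] V).fderiv
    rw [h1, h2]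
    have h3 : e l ≠ 0 := by
      intro h0
      exact hl ((map_eq_zero_iff e e.injective).mp h0)
    exact (h.imm _ h3).comp e.injective
  · intro l
    rw [h.res, he]
    rfl
  · intro l hl
    refine h.sub _ ?_
    intro h0
    exact hl ((map_eq_zero_iff e e.injective).mp h0)

end

end Pool.Agent.TNQ
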